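import Pool.Agent.SAWP.L.Connector

/-!
# SAWP, case L: the chain of bridges, deterministic (module L13; paper 4.5)

Positions `t_i = pos v h D i`, base step `h`; `pos v h D (i+q) = pos v h D i + h q (D+5e₁)`.  Every `i < T` outside `bad` has a bridging family of cell side
`h q`, `1 ≤ q ≤ qmax`.  Put `Vn = nrm D + 5`.

State `(i₀, k, m, L, X)`: last bridge had cell side `hk = h q`, ended at `m` with right arm, the next position is `i₀` (so
`pos(i₀)₁ - 3hk ≤ m₁ ≤ pos(i₀)₁ - 2hk - 1`, `pos(i₀)₂ ≤ m₂ < pos(i₀)₂ + hk`), and there is a finset `𝓕` of at least `e^X` paths from `v` to `m`, all with `L` steps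
and all vertices in `x₁ ≤ m₁`.  Invariant: `X ≥ b (L + 9C hk) - b·3C h Vn·nb(i₀)`, `nb(i) = #(bad ∩ [0,i))`.
Step: let `i ≥ i₀` be the first index not in `bad`; if `i ≥ T` then `i₀ ≥ T - |bad|`, hence `L ≥ m₁ - v₁ ≥ i₀ h (D₁+5) - 3hk > n`.  Otherwise take the family at `i`, `s → m'` with cell side
`hk'`, length `ℓ`; `connector` gives a path from `m` to `s` with `c ≤ 3C nrm(s-m) + 50 C r² ≤ 9C hk + 59C hk' + 3C (i-i₀) h Vn` steps (`r² ≤ h`).
 * If `n < L + c + ℓ` (and `L ≤ n`): extend each path of `𝓕` by the connector and one bridge path and cut at `n` steps: `sig ω v n ≥ |𝓕| ≥ e^X` and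
   `X ≥ b(n - c - ℓ + 9C hk) - b·3C h Vn·nb(i₀) ≥ b n - b(59C hk' + ℓ) - b·3C h Vn nb(i)`.
 * Otherwise the new state is `(i + q', m', L+c+ℓ, X + bℓ + b·68C hk')`, and the invariant holds again (`nb(i₀) + (i-i₀) = nb(i)`).
The first bridge is reached from `v` by `start_connector` (`s₁ ≥ v₁+2h ≥ v₁+2r+1`), `𝓕 = {path}` before it.  `L` increases strictly, so the process ends.
All rectangles needed for the connectors are inside `box v N`.
Distinctness: a path through `m` (resp. `s`) which is the only vertex of the later part in `x₁ ≤ m₁` determines its initial piece and its bridge piece.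
-/

set_option autoImplicit false

namespace Pool.Agent.SAWP

namespace ChainAux

lemma length_eq {O : Set Edge} {x y : V} {l : List V} (h : IsW O x y l) :
    l.length = len l + 1 := by
  have := List.length_pos_iff.2 h.ne_nil
  unfold len
  omega

lemma saw_finite (ω : Cfg) (v : V) (n : ℕ) :
    {l : List V | l.IsChain (Step (Op ω)) ∧ l.Nodup ∧ l.head? = some v ∧
      l.length = n + 1}.Finite := by
  refine (nodup_lists_finite (box v n)).subset ?_
  rintro l ⟨h1, h2, h3, h4⟩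
  refine ⟨h2, ?_⟩
  have hne : l ≠ [] := by
    rintro rfl
    simp at h4
  have hw : IsW (Op ω) v (l.getLast hne) l := ⟨h1, h3, List.getLast?_eq_some_getLast hne⟩
  intro z hz
  obtain ⟨l₁, l₂, h5, h6, h7⟩ := hw.split hz
  rw [mem_box]
  refine h5.nrm_le.trans ?_
  have h8 : len l = len l₁ + len l₂ := by
    rw [h7]
    exact len_append_tail h5 h6
  have h9 : len l = n := by
    unfold len
    omega
  omega

lemma sig_lower {ω : Cfg} {v : V} {n : ℕ} (F : Finset (List V)) (f : List V → List V)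
    (hf : ∀ g ∈ F, (f g).IsChain (Step (Op ω)) ∧ (f g).Nodup ∧ (f g).head? = some v ∧
      (f g).length = n + 1)
    (hinj : Set.InjOn f (↑F : Set (List V))) : F.card ≤ sig ω v n := by
  classical
  unfold sig
  have h1 : (F.image f).card = F.card := Finset.card_image_of_injOn hinj
  rw [← h1, ← Set.ncard_coe_finset]
  refine Set.ncard_le_ncard ?_ (saw_finite ω v n)
  intro l hl
  rw [Finset.mem_coe, Finset.mem_image] at hl
  obtain ⟨g, hg, rfl⟩ := hl
  exact hf g hg

lemma take_saw {ω : Cfg} {v y : V} {n : ℕ} {l : List V} (h : IsP (Op ω) v y l)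
    (hn : n + 1 ≤ l.length) :
    (l.take (n + 1)).IsChain (Step (Op ω)) ∧ (l.take (n + 1)).Nodup ∧
      (l.take (n + 1)).head? = some v ∧ (l.take (n + 1)).length = n + 1 := by
  refine ⟨h.1.1.take _, h.2.sublist (List.take_sublist _ _), ?_, ?_⟩
  · obtain ⟨t, ht⟩ := h.1.eq_cons
    rw [ht]
    simp
  · rw [List.length_take]
    omega

/-- If all paths have the same length, appending a fixed list and cutting keeps injectivity. -/
lemma take_append_inj {F : Finset (List V)} {L n : ℕ} (hF : ∀ g ∈ F, g.length = L)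
    (hinj : Set.InjOn (List.take (n + 1)) (↑F : Set (List V))) (t : List V) :
    Set.InjOn (fun g => (g ++ t).take (n + 1)) (↑F : Set (List V)) := by
  intro g hg g' hg' h
  apply hinj hg hg'
  have h1 : ∀ g ∈ F, g.take (n + 1) = ((g ++ t).take (n + 1)).take L := by
    intro g hg
    rw [List.take_take, ← hF g hg]
    rcases le_total (n + 1) g.length with h2 | h2
    · rw [min_eq_right h2, List.take_append_of_le_length h2]
    · rw [min_eq_left h2, List.take_of_length_le h2, List.take_left]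
  rw [h1 g hg, h1 g' hg']
  exact congrArg _ h

/-- The next good index. -/
lemma next_good {i₁ T : ℕ} {bad : Finset ℕ} (h : i₁ + bad.card < T) :
    ∃ i', i₁ ≤ i' ∧ i' < T ∧ i' ∉ bad ∧ ∀ j, i₁ ≤ j → j < i' → j ∈ bad := by
  classical
  have hex : ∃ i', i₁ ≤ i' ∧ i' ∉ bad := by
    by_contra hcon
    push Not at hcon
    have : Finset.Ico i₁ T ⊆ bad := by
      intro j hj
      exact hcon j (Finset.mem_Ico.1 hj).1
    have := Finset.card_le_card this
    rw [Nat.card_Ico] at this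
    omega
  refine ⟨Nat.find hex, (Nat.find_spec hex).1, ?_, (Nat.find_spec hex).2, ?_⟩
  · by_contra hcon
    have : Finset.Ico i₁ T ⊆ bad := by
      intro j hj
      rw [Finset.mem_Ico] at hj
      by_contra hj'
      exact Nat.find_min hex (m := j) (by omega) ⟨hj.1, hj'⟩
    have := Finset.card_le_card this
    rw [Nat.card_Ico] at this
    omega
  · intro j h1 h2
    by_contra hj'
    exact Nat.find_min hex h2 ⟨h1, hj'⟩

/-- Number of bad indices below `i`. -/
def nb (bad : Finset ℕ) (i : ℕ) : ℕ := (bad.filter (fun j => j < i)).card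

lemma nb_le (bad : Finset ℕ) (i : ℕ) : nb bad i ≤ bad.card := Finset.card_filter_le _ _

lemma nb_add_le {bad : Finset ℕ} {i i₁ i' : ℕ} (h1 : i ≤ i₁) (h2 : i₁ ≤ i')
    (h : ∀ j, i₁ ≤ j → j < i' → j ∈ bad) : nb bad i + (i' - i₁) ≤ nb bad i' := by
  classical
  unfold nb
  rw [← Nat.card_Ico i₁ i', ← Finset.card_union_of_disjoint]
  · apply Finset.card_le_card
    intro j hj
    rw [Finset.mem_union, Finset.mem_filter, Finset.mem_Ico] at hj
    rw [Finset.mem_filter]
    rcases hj with hj | hj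
    · exact ⟨hj.1, by omega⟩
    · exact ⟨h j hj.1 hj.2, hj.2⟩
  · rw [Finset.disjoint_left]
    intro j hj hj'
    rw [Finset.mem_filter] at hj
    rw [Finset.mem_Ico] at hj'
    omega

lemma natAbs_le_nrm (x : V) : (x.1.natAbs ≤ nrm x) ∧ (x.2.natAbs ≤ nrm x) :=
  ⟨le_max_left _ _, le_max_right _ _⟩

/-- Displacement between two positions. -/
lemma pos_diff (v : V) (h : ℕ) (D : V) {i₁ i' : ℕ} (hi : i₁ ≤ i') :
    |(pos v h D i').1 - (pos v h D i₁).1| ≤ (((i' - i₁) * (h * (nrm D + 5)) : ℕ) : ℤ) ∧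
    |(pos v h D i').2 - (pos v h D i₁).2| ≤ (((i' - i₁) * (h * (nrm D + 5)) : ℕ) : ℤ) := by
  obtain ⟨d, rfl⟩ := Nat.exists_eq_add_of_le hi
  have e : i₁ + d - i₁ = d := by omega
  rw [e]
  obtain ⟨hD1, hD2⟩ := natAbs_le_nrm D
  have a1 : |D.1 + 5| ≤ ((nrm D : ℤ) + 5) := by rw [abs_le]; omega
  have a2 : |D.2| ≤ ((nrm D : ℤ) + 5) := by rw [abs_le]; omega
  constructor
  · have : (pos v h D (i₁ + d)).1 - (pos v h D i₁).1 = ((d * h : ℕ) : ℤ) * (D.1 + 5) := by
      simp only [pos]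
      push_cast
      ring
    rw [this, abs_mul, Nat.abs_cast]
    have : (((d * (h * (nrm D + 5)) : ℕ)) : ℤ) = ((d * h : ℕ) : ℤ) * ((nrm D : ℤ) + 5) := by
      push_cast
      ring
    rw [this]
    exact mul_le_mul_of_nonneg_left a1 (by positivity)
  · have : (pos v h D (i₁ + d)).2 - (pos v h D i₁).2 = ((d * h : ℕ) : ℤ) * D.2 := by
      simp only [pos]
      push_cast
      ring
    rw [this, abs_mul, Nat.abs_cast]
    have : (((d * (h * (nrm D + 5)) : ℕ)) : ℤ) = ((d * h : ℕ) : ℤ) * ((nrm D : ℤ) + 5) := by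
      push_cast
      ring
    rw [this]
    exact mul_le_mul_of_nonneg_left a2 (by positivity)

lemma pos_zero (v : V) (h : ℕ) (D : V) : pos v h D 0 = v := by
  simp [pos]

/-- The first coordinate of the positions increases. -/
lemma pos_mono (v : V) (h : ℕ) {D : V} (hD : 1 ≤ D.1) {i₁ i' : ℕ} (hi : i₁ ≤ i') :
    (pos v h D i₁).1 ≤ (pos v h D i').1 := by
  obtain ⟨d, rfl⟩ := Nat.exists_eq_add_of_le hi
  have : (pos v h D (i₁ + d)).1 - (pos v h D i₁).1 = ((d * h : ℕ) : ℤ) * (D.1 + 5) := by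
    simp only [pos]
    push_cast
    ring
  have h2 : (0 : ℤ) ≤ ((d * h : ℕ) : ℤ) * (D.1 + 5) := by
    apply mul_nonneg
    · positivity
    · omega
  omega

/-- Location of the right end of a bridging family. -/
lemma m_loc {v : V} {h q : ℕ} {D : V} {i : ℕ} {m : V}
    (hm : m ∈ sq ((pos v h D i).1 + 2 * ((h * q : ℕ) : ℤ) + ((h * q : ℕ) : ℤ) * D.1,
      (pos v h D i).2 + ((h * q : ℕ) : ℤ) * D.2) (h * q)) :
    (pos v h D (i + q)).1 - 3 * ((h * q : ℕ) : ℤ) ≤ m.1 ∧
      m.1 < (pos v h D (i + q)).1 - 2 * ((h * q : ℕ) : ℤ) ∧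
      (pos v h D (i + q)).2 ≤ m.2 ∧ m.2 < (pos v h D (i + q)).2 + ((h * q : ℕ) : ℤ) := by
  rw [mem_sq] at hm
  dsimp only at hm
  have e1 : (pos v h D (i + q)).1 =
      (pos v h D i).1 + ((h * q : ℕ) : ℤ) * D.1 + 5 * ((h * q : ℕ) : ℤ) := by
    simp only [pos]
    push_cast
    ring
  have e2 : (pos v h D (i + q)).2 = (pos v h D i).2 + ((h * q : ℕ) : ℤ) * D.2 := by
    simp only [pos]
    push_cast
    ring
  rw [e1, e2]
  refine ⟨?_, ?_, ?_, ?_⟩ <;> omega

/-- The state of the construction at the left end of the bridging family number `i`. -/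
def St (ω : Cfg) (b : ℝ) (C r h : ℕ) (v D : V) (ℓmax qmax T : ℕ) (bad : Finset ℕ)
    (n i : ℕ) : Prop :=
  i < T ∧ ∃ q : ℕ, 1 ≤ q ∧ q ≤ qmax ∧
    ∃ s ∈ sq ((pos v h D i).1 + 2 * ((h * q : ℕ) : ℤ), (pos v h D i).2) (h * q),
    ∃ m ∈ sq ((pos v h D i).1 + 2 * ((h * q : ℕ) : ℤ) + ((h * q : ℕ) : ℤ) * D.1,
      (pos v h D i).2 + ((h * q : ℕ) : ℤ) * D.2) (h * q),
      s.1 < m.1 ∧ RArm ω m r ∧ ∃ ℓ : ℕ, ℓ ≤ ℓmax ∧ ∃ 𝓑 : Finset (List V),
      (∀ l ∈ 𝓑, IsP (Op ω) s m l ∧ len l = ℓ ∧ btw s m l) ∧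
      Real.exp (b * ℓ + b * (68 * C) * ((h * q : ℕ) : ℝ)) ≤ (𝓑.card : ℝ) ∧
      ∃ (L : ℕ) (X : ℝ) (G : Finset (List V)),
        (∀ g ∈ G, IsP (Op ω) v s g ∧ len g = L ∧ ∀ z ∈ g, z ≠ s → z.1 < s.1) ∧
        Set.InjOn (List.take (n + 1)) (↑G : Set (List V)) ∧
        Real.exp X ≤ (G.card : ℝ) ∧
        b * ((L : ℝ) - 59 * C * ((h * q : ℕ) : ℝ)) -
          b * (3 * C * (h * ((nrm D : ℝ) + 5)) * (nb bad i : ℝ)) ≤ X

/-- The first state. -/
lemma first_state {ω : Cfg} {b : ℝ} (hb : 0 ≤ b) {C r h : ℕ} (hC : 1 ≤ C) (hr : 1 ≤ r)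
    (hrh : 3 * r + 2 ≤ h) (hrh' : r ^ 2 ≤ h) {B : Finset V} (hnet : Net (Op ω) B r C) {v : V}
    (hv : ∃ w, Conn (Op ω) v w ∧ 2 * r < nrm (w - v)) {D : V} (hD : 1 ≤ D.1)
    {ℓmax qmax T N : ℕ} {bad : Finset ℕ}
    (hgood : ∀ i, i < T → i ∉ bad → ∃ q, 1 ≤ q ∧ q ≤ qmax ∧
      BrAt ω b C r D ℓmax (pos v h D i) (h * q))
    (hB : box v N ⊆ B)
    (hN : (T + qmax + 1) * (h * (nrm D + 5)) + 4 * (h * qmax) + 3 * r ≤ N) {n : ℕ}
    (hbad : bad.card < T) : ∃ i, St ω b C r h v D ℓmax qmax T bad n i := by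
  obtain ⟨i, -, hiT, hib, hmin⟩ := next_good (i₁ := 0) (T := T) (bad := bad) (by omega)
  obtain ⟨q, hq1, hq2, s, hs, m, hm, hsm, hmR, hsL, ℓ, hℓ, 𝓑, h𝓑, hcard⟩ := hgood i hiT hib
  have hhq : h ≤ h * q := Nat.le_mul_of_pos_right h hq1
  have hhq' : h * q ≤ h * qmax := Nat.mul_le_mul_left h hq2
  have hpd := pos_diff v h D (Nat.zero_le i)
  rw [pos_zero, Nat.sub_zero] at hpd
  have hpm := pos_mono v h hD (Nat.zero_le i)
  rw [pos_zero] at hpm
  have hs' := mem_sq.1 hs
  dsimp only at hs'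
  obtain ⟨hpd1, hpd2⟩ := hpd
  rw [abs_le] at hpd1 hpd2
  have hiA : i * (h * (nrm D + 5)) ≤ (T + qmax + 1) * (h * (nrm D + 5)) :=
    Nat.mul_le_mul_right _ (by omega)
  obtain ⟨l, hl, hl2, hl3⟩ := start_connector hr hC hnet hv hsL (by omega) (by
    refine subset_trans ?_ hB
    intro z hz
    rw [mem_rect] at hz
    rw [mem_box]
    have h1 := hz.1
    have h2 := hz.2.1
    have h3 := hz.2.2.1
    have h4 := hz.2.2.2
    simp only [nrm, Prod.fst_sub, Prod.snd_sub]
    rcases le_total v.2 s.2 with hvs | hvs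
    · rw [min_eq_left hvs] at h3
      rw [max_eq_right hvs] at h4
      refine max_le ?_ ?_ <;> omega
    · rw [min_eq_right hvs] at h3
      rw [max_eq_left hvs] at h4
      refine max_le ?_ ?_ <;> omega)
  have hnrm : nrm (s - v) ≤ i * (h * (nrm D + 5)) + 3 * (h * q) := by
    simp only [nrm, Prod.fst_sub, Prod.snd_sub]
    refine max_le ?_ ?_ <;> simp only [nrm] at hpd1 hpd2 <;> omega
  have hlen : len l ≤ 3 * C * (i * (h * (nrm D + 5))) + 59 * C * (h * q) := by
    refine hl3.trans ?_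
    have h1 : 3 * C * nrm (s - v) ≤ 3 * C * (i * (h * (nrm D + 5)) + 3 * (h * q)) :=
      Nat.mul_le_mul_left _ hnrm
    have h2 : 50 * C * r ^ 2 ≤ 50 * C * (h * q) := Nat.mul_le_mul_left _ (hrh'.trans hhq)
    nlinarith
  refine ⟨i, hiT, q, hq1, hq2, s, hs, m, hm, hsm, hmR, ℓ, hℓ, 𝓑, h𝓑, hcard, len l, 0, {l},
    ?_, ?_, ?_, ?_⟩
  · intro g hg
    rw [Finset.mem_singleton] at hg
    subst hg
    exact ⟨hl, rfl, hl2⟩
  · simp
  · simp
  · have hnb : i ≤ nb bad i := by
      have := nb_add_le (bad := bad) (i := 0) (i₁ := 0) (i' := i) le_rfl (Nat.zero_le _) hmin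
      omega
    have h1 : (len l : ℝ) ≤ 3 * C * (i * (h * ((nrm D : ℝ) + 5))) + 59 * C * ((h * q : ℕ) : ℝ) := by
      exact_mod_cast hlen
    have h2 : 3 * C * (i * (h * ((nrm D : ℝ) + 5))) ≤
        3 * C * (h * ((nrm D : ℝ) + 5)) * (nb bad i : ℝ) := by
      have h3 : (i : ℝ) ≤ nb bad i := by exact_mod_cast hnb
      have h4 : (0 : ℝ) ≤ 3 * C * (h * ((nrm D : ℝ) + 5)) := by positivity
      nlinarith
    have h5 : (len l : ℝ) - 59 * C * ((h * q : ℕ) : ℝ) -
        3 * C * (h * ((nrm D : ℝ) + 5)) * (nb bad i : ℝ) ≤ 0 := by linarith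
    have h6 := mul_le_mul_of_nonneg_left h5 hb
    linarith

/-- One step of the construction. -/
lemma next_state {ω : Cfg} {b : ℝ} (hb : 0 ≤ b) {C r h : ℕ} (hC : 1 ≤ C) (hr : 1 ≤ r)
    (hrh : 3 * r + 2 ≤ h) (hrh' : r ^ 2 ≤ h) {B : Finset V} (hnet : Net (Op ω) B r C) {v : V}
    {D : V} (hD : 1 ≤ D.1)
    {ℓmax qmax T N : ℕ} {bad : Finset ℕ}
    (hgood : ∀ i, i < T → i ∉ bad → ∃ q, 1 ≤ q ∧ q ≤ qmax ∧
      BrAt ω b C r D ℓmax (pos v h D i) (h * q))
    (hB : box v N ⊆ B)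
    (hN : (T + qmax + 1) * (h * (nrm D + 5)) + 4 * (h * qmax) + 3 * r ≤ N) {n : ℕ}
    (hn : (n : ℝ) < (T - bad.card) * (h * ((D.1 : ℝ) + 5)) - 3 * (h * qmax)) {i : ℕ}
    (hst : St ω b C r h v D ℓmax qmax T bad n i) :
    Real.exp (b * n - b * (59 * C * (h * qmax) + ℓmax) -
      b * (3 * C * (h * (nrm D + 5)) * bad.card)) ≤ (sig ω v n : ℝ) ∨
      ∃ i', i < i' ∧ St ω b C r h v D ℓmax qmax T bad n i' := by
  classical
  obtain ⟨hiT, q, hq1, hq2, s, hs, m, hm, hsm, hmR, ℓ, hℓ, 𝓑, h𝓑, hcard, L, X, G, hG, hinj,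
    hX, hinv⟩ := hst
  have hhq : h ≤ h * q := Nat.le_mul_of_pos_right h hq1
  have hhq' : h * q ≤ h * qmax := Nat.mul_le_mul_left h hq2
  have h𝓑ne : 𝓑.Nonempty := by
    rw [← Finset.card_pos]
    have : (0 : ℝ) < (𝓑.card : ℝ) := lt_of_lt_of_le (Real.exp_pos _) hcard
    exact_mod_cast this
  have hGne : G.Nonempty := by
    rw [← Finset.card_pos]
    have : (0 : ℝ) < (G.card : ℝ) := lt_of_lt_of_le (Real.exp_pos _) hX
    exact_mod_cast this
  -- the concatenation of a path to `s` and a bridge path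
  have hcat : ∀ g ∈ G, ∀ l ∈ 𝓑, IsP (Op ω) v m (g ++ l.tail) ∧ len (g ++ l.tail) = L + ℓ ∧
      ∀ z ∈ g ++ l.tail, z.1 ≤ m.1 := by
    intro g hg l hl
    obtain ⟨hg1, hg2, hg3⟩ := hG g hg
    obtain ⟨hl1, hl2, hl3⟩ := h𝓑 l hl
    refine ⟨hg1.append hl1 ?_, ?_, ?_⟩
    · intro z hz hz'
      by_contra hzs
      have h1 := hg3 z hz hzs
      have h2 := (hl3 z hz').1
      rw [min_eq_left hsm.le] at h2
      omega
    · rw [len_append_tail hg1.1 hl1.1, hg2, hl2]
    · intro z hz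
      rcases mem_append_tail hz with hz | hz
      · by_cases hzs : z = s
        · rw [hzs]; exact hsm.le
        · have := hg3 z hz hzs
          omega
      · have h2 := (hl3 z hz).2
        rw [max_eq_right hsm.le] at h2
        exact h2
  by_cases hcase : n < L + ℓ
  · -- cut at `n` steps
    left
    obtain ⟨l₀, hl₀⟩ := h𝓑ne
    have hGl : ∀ g ∈ G, g.length = L + 1 := by
      intro g hg
      rw [length_eq (hG g hg).1.1, (hG g hg).2.1]
    have h1 : G.card ≤ sig ω v n := by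
      refine sig_lower G (fun g => (g ++ l₀.tail).take (n + 1)) ?_
        (take_append_inj hGl hinj l₀.tail)
      intro g hg
      obtain ⟨h2, h3, -⟩ := hcat g hg l₀ hl₀
      exact take_saw h2 (by rw [length_eq h2.1, h3]; omega)
    have h2 : Real.exp X ≤ (sig ω v n : ℝ) := hX.trans (by exact_mod_cast h1)
    refine le_trans (Real.exp_le_exp.2 ?_) h2
    refine le_trans ?_ hinv
    have h3 : (n : ℝ) ≤ L + ℓmax := by
      have : n ≤ L + ℓmax := by omega
      exact_mod_cast this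
    have h4 : ((h * q : ℕ) : ℝ) ≤ h * qmax := by exact_mod_cast hhq'
    have h5 : (nb bad i : ℝ) ≤ bad.card := by exact_mod_cast nb_le bad i
    have h6 : 3 * C * (h * ((nrm D : ℝ) + 5)) * (nb bad i : ℝ) ≤
        3 * C * (h * ((nrm D : ℝ) + 5)) * bad.card :=
      mul_le_mul_of_nonneg_left h5 (by positivity)
    have h7 : 59 * (C : ℝ) * ((h * q : ℕ) : ℝ) ≤ 59 * C * (h * qmax) :=
      mul_le_mul_of_nonneg_left h4 (by positivity)
    have h8 : (n : ℝ) - (59 * C * (h * qmax) + ℓmax) -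
        3 * C * (h * ((nrm D : ℝ) + 5)) * bad.card ≤
        (L : ℝ) - 59 * C * ((h * q : ℕ) : ℝ) -
          3 * C * (h * ((nrm D : ℝ) + 5)) * (nb bad i : ℝ) := by linarith
    have h9 := mul_le_mul_of_nonneg_left h8 hb
    linarith
  · -- extend
    right
    push Not at hcase
    -- the family of the paths to `m`
    set P : Finset (List V × List V) := G ×ˢ 𝓑 with hP
    have hPinj : Set.InjOn (fun p : List V × List V => p.1 ++ p.2.tail)
        (↑P : Set (List V × List V)) := by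
      rintro ⟨g, l⟩ hp ⟨g', l'⟩ hp' heq
      rw [Finset.mem_coe, hP, Finset.mem_product] at hp hp'
      dsimp only at hp hp' heq
      have h1 : g.length = g'.length := by
        rw [length_eq (hG g hp.1).1.1, length_eq (hG g' hp'.1).1.1, (hG g hp.1).2.1,
          (hG g' hp'.1).2.1]
      obtain ⟨h2, h3⟩ := List.append_inj heq h1
      obtain ⟨t, ht⟩ := (h𝓑 l hp.2).1.1.eq_cons
      obtain ⟨t', ht'⟩ := (h𝓑 l' hp'.2).1.1.eq_cons
      rw [ht, ht', List.tail_cons, List.tail_cons] at h3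
      rw [h2, ht, ht', h3]
    set F : Finset (List V) := P.image (fun p => p.1 ++ p.2.tail) with hF
    have hFcard : F.card = G.card * 𝓑.card := by
      rw [hF, Finset.card_image_of_injOn hPinj, hP, Finset.card_product]
    have hFprop : ∀ f ∈ F, IsP (Op ω) v m f ∧ len f = L + ℓ ∧ ∀ z ∈ f, z.1 ≤ m.1 := by
      intro f hf
      rw [hF, Finset.mem_image] at hf
      obtain ⟨⟨g, l⟩, hp, rfl⟩ := hf
      rw [hP, Finset.mem_product] at hp
      exact hcat g hp.1 l hp.2
    -- the next index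
    have hmloc := m_loc hm
    obtain ⟨hm1, hm2, hm3, hm4⟩ := hmloc
    have hnext : (i + q) + bad.card < T := by
      obtain ⟨g₀, hg₀⟩ := hGne
      obtain ⟨l₀, hl₀⟩ := h𝓑ne
      obtain ⟨h2, h3, -⟩ := hcat g₀ hg₀ l₀ hl₀
      have h4 := h2.1.nrm_le
      rw [h3] at h4
      have h5 : m.1 - v.1 ≤ (n : ℤ) := by
        have := (natAbs_le_nrm (m - v)).1
        rw [Prod.fst_sub] at this
        omega
      have h6 : (pos v h D (i + q)).1 = v.1 + ((i + q : ℕ) : ℤ) * (h * (D.1 + 5)) := rfl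
      rw [h6] at hm1
      have h7 : ((i + q : ℕ) : ℤ) * (h * (D.1 + 5)) - 3 * ((h * q : ℕ) : ℤ) ≤ n := by linarith
      have h8 : ((i + q : ℕ) : ℝ) * (h * ((D.1 : ℝ) + 5)) - 3 * ((h * q : ℕ) : ℝ) ≤ n := by
        exact_mod_cast h7
      have h9 : ((h * q : ℕ) : ℝ) ≤ h * qmax := by exact_mod_cast hhq'
      have h10 : ((i + q : ℕ) : ℝ) * (h * ((D.1 : ℝ) + 5)) <
          ((T : ℝ) - bad.card) * (h * ((D.1 : ℝ) + 5)) := by linarith
      have h11 : (0 : ℝ) < h * ((D.1 : ℝ) + 5) := by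
        have h12 : (1 : ℝ) ≤ (D.1 : ℝ) := by exact_mod_cast hD
        have h13 : (0 : ℝ) < (h : ℝ) := by
          have : 0 < h := by omega
          exact_mod_cast this
        positivity
      have h14 := lt_of_mul_lt_mul_right h10 h11.le
      have h15 : ((i + q + bad.card : ℕ) : ℝ) < T := by
        push_cast at h14 ⊢
        linarith
      exact_mod_cast h15
    obtain ⟨i', hi1, hi2, hi3, hmin⟩ := next_good hnext
    obtain ⟨q', hq1', hq2', s', hs', m', hm', hsm', hmR', hsL', ℓ', hℓ', 𝓑', h𝓑', hcard'⟩ :=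
      hgood i' hi2 hi3
    have hhqb : h ≤ h * q' := Nat.le_mul_of_pos_right h hq1'
    have hhqb' : h * q' ≤ h * qmax := Nat.mul_le_mul_left h hq2'
    have hpd := pos_diff v h D hi1
    have hpm := pos_mono v h hD hi1
    have hpd0 := pos_diff v h D (Nat.zero_le (i + q))
    have hpd0' := pos_diff v h D (Nat.zero_le i')
    rw [pos_zero, Nat.sub_zero] at hpd0 hpd0'
    have hs2 := mem_sq.1 hs'
    dsimp only at hs2
    obtain ⟨hpd1, hpd2⟩ := hpd
    obtain ⟨hpa1, hpa2⟩ := hpd0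
    obtain ⟨hpb1, hpb2⟩ := hpd0'
    rw [abs_le] at hpd1 hpd2 hpa1 hpa2 hpb1 hpb2
    have hiA : (i + q) * (h * (nrm D + 5)) ≤ (T + qmax + 1) * (h * (nrm D + 5)) :=
      Nat.mul_le_mul_right _ (by omega)
    have hiB : i' * (h * (nrm D + 5)) ≤ (T + qmax + 1) * (h * (nrm D + 5)) :=
      Nat.mul_le_mul_right _ (by omega)
    obtain ⟨l, hl, hl2, hl3⟩ := connector hr hC hnet hmR hsL' (by omega) (by
      refine subset_trans ?_ hB
      intro z hz
      rw [mem_rect] at hz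
      rw [mem_box]
      have h1 := hz.1
      have h2 := hz.2.1
      have h3 := hz.2.2.1
      have h4 := hz.2.2.2
      simp only [nrm, Prod.fst_sub, Prod.snd_sub]
      rcases le_total m.2 s'.2 with hvs | hvs
      · rw [min_eq_left hvs] at h3
        rw [max_eq_right hvs] at h4
        refine max_le ?_ ?_ <;> omega
      · rw [min_eq_right hvs] at h3
        rw [max_eq_left hvs] at h4
        refine max_le ?_ ?_ <;> omega)
    have hms' : m.1 < s'.1 := by omega
    have hnrm : nrm (s' - m) ≤ (i' - (i + q)) * (h * (nrm D + 5)) + 3 * (h * q) + 3 * (h * q') := by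
      simp only [nrm, Prod.fst_sub, Prod.snd_sub]
      refine max_le ?_ ?_ <;> simp only [nrm] at hpd1 hpd2 <;> omega
    have hlen : len l ≤ 3 * C * ((i' - (i + q)) * (h * (nrm D + 5))) + 9 * C * (h * q) +
        59 * C * (h * q') := by
      refine hl3.trans ?_
      have h1 : 3 * C * nrm (s' - m) ≤ 3 * C * ((i' - (i + q)) * (h * (nrm D + 5)) +
          3 * (h * q) + 3 * (h * q')) := Nat.mul_le_mul_left _ hnrm
      have h2 : 50 * C * r ^ 2 ≤ 50 * C * (h * q') := Nat.mul_le_mul_left _ (hrh'.trans hhqb)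
      nlinarith
    -- the new family
    have hFl : ∀ f ∈ F, f.length = L + ℓ + 1 := by
      intro f hf
      rw [length_eq (hFprop f hf).1.1, (hFprop f hf).2.1]
    have hFinj : Set.InjOn (List.take (n + 1)) (↑F : Set (List V)) := by
      intro f hf f' hf' heq
      rw [List.take_of_length_le (by rw [hFl f hf]; omega),
        List.take_of_length_le (by rw [hFl f' hf']; omega)] at heq
      exact heq
    have hinj1 := take_append_inj hFl hFinj l.tail
    have hinj2 : Set.InjOn (fun f => f ++ l.tail) (↑F : Set (List V)) := by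
      intro f hf f' hf' heq
      exact hinj1 hf hf' (congrArg (List.take (n + 1)) heq)
    refine ⟨i', by omega, hi2, q', hq1', hq2', s', hs', m', hm', hsm', hmR', ℓ', hℓ', 𝓑', h𝓑',
      hcard', L + ℓ + len l, X + (b * ℓ + b * (68 * C) * ((h * q : ℕ) : ℝ)),
      F.image (fun f => f ++ l.tail), ?_, ?_, ?_, ?_⟩
    · intro g hg
      rw [Finset.mem_image] at hg
      obtain ⟨f, hf, rfl⟩ := hg
      obtain ⟨hf1, hf2, hf3⟩ := hFprop f hf
      refine ⟨hf1.append hl ?_, ?_, ?_⟩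
      · intro z hz hz'
        by_contra hzm
        have h1 := hf3 z hz
        by_cases hzs : z = s'
        · rw [hzs] at h1
          omega
        · have h2 := (hl2 z hz' hzm hzs).1
          omega
      · rw [len_append_tail hf1.1 hl.1, hf2]
      · intro z hz hzs
        rcases mem_append_tail hz with hz | hz
        · have := hf3 z hz
          omega
        · by_cases hzm : z = m
          · rw [hzm]; exact hms'
          · exact (hl2 z hz hzm hzs).2
    · intro g hg g' hg' heq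
      rw [Finset.mem_coe, Finset.mem_image] at hg hg'
      obtain ⟨f, hf, rfl⟩ := hg
      obtain ⟨f', hf', rfl⟩ := hg'
      rw [hinj1 hf hf' heq]
    · rw [Finset.card_image_of_injOn hinj2, hFcard, Real.exp_add]
      push_cast
      exact mul_le_mul hX (by exact_mod_cast hcard) (Real.exp_pos _).le (by positivity)
    · have hnb := nb_add_le (bad := bad) (i := i) (i₁ := i + q) (i' := i') (by omega) hi1 hmin
      have h1 : (len l : ℝ) ≤ 3 * C * (((i' - (i + q) : ℕ) : ℝ) * (h * ((nrm D : ℝ) + 5))) +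
          9 * C * ((h * q : ℕ) : ℝ) + 59 * C * ((h * q' : ℕ) : ℝ) := by
        exact_mod_cast hlen
      have h2 : (nb bad i : ℝ) + ((i' - (i + q) : ℕ) : ℝ) ≤ (nb bad i' : ℝ) := by
        exact_mod_cast hnb
      have h3 : (0 : ℝ) ≤ 3 * C * (h * ((nrm D : ℝ) + 5)) := by positivity
      have h4 := mul_le_mul_of_nonneg_left h2 h3
      have h5 : ((L + ℓ + len l : ℕ) : ℝ) - 59 * C * ((h * q' : ℕ) : ℝ) -
          3 * C * (h * ((nrm D : ℝ) + 5)) * (nb bad i' : ℝ) ≤
          ((L : ℝ) - 59 * C * ((h * q : ℕ) : ℝ) -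
          3 * C * (h * ((nrm D : ℝ) + 5)) * (nb bad i : ℝ)) +
          (ℓ + 68 * C * ((h * q : ℕ) : ℝ)) := by
        rw [Nat.cast_add, Nat.cast_add]
        linarith
      have h6 := mul_le_mul_of_nonneg_left h5 hb
      linarith

end ChainAux

open ChainAux

theorem chain {ω : Cfg} {b : ℝ} (hb : 0 ≤ b) {C r h : ℕ} (hC : 1 ≤ C) (hr : 1 ≤ r)
    (hrh : 3 * r + 2 ≤ h) (hrh' : r ^ 2 ≤ h) {B : Finset V} (hnet : Net (Op ω) B r C) {v : V}
    (hv : ∃ w, Conn (Op ω) v w ∧ 2 * r < nrm (w - v)) {D : V} (hD : 1 ≤ D.1)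
    {ℓmax qmax T N : ℕ} {bad : Finset ℕ}
    (hgood : ∀ i, i < T → i ∉ bad → ∃ q, 1 ≤ q ∧ q ≤ qmax ∧
      BrAt ω b C r D ℓmax (pos v h D i) (h * q))
    (hB : box v N ⊆ B)
    (hN : (T + qmax + 1) * (h * (nrm D + 5)) + 4 * (h * qmax) + 3 * r ≤ N) {n : ℕ}
    (hn : (n : ℝ) < (T - bad.card) * (h * ((D.1 : ℝ) + 5)) - 3 * (h * qmax)) :
    Real.exp (b * n - b * (59 * C * (h * qmax) + ℓmax) - b * (3 * C * (h * (nrm D + 5)) * bad.card))
      ≤ (sig ω v n : ℝ) := by
  have hbad : bad.card < T := by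
    by_contra hcon
    push Not at hcon
    have h1 : (T : ℝ) ≤ bad.card := by exact_mod_cast hcon
    have h2 : (1 : ℝ) ≤ (D.1 : ℝ) := by exact_mod_cast hD
    have h3 : (0 : ℝ) ≤ h * ((D.1 : ℝ) + 5) := by positivity
    have h4 : ((T : ℝ) - bad.card) * (h * ((D.1 : ℝ) + 5)) ≤ 0 :=
      mul_nonpos_of_nonpos_of_nonneg (by linarith) h3
    have h5 : (0 : ℝ) ≤ 3 * (h * qmax) := by positivity
    have h6 : (0 : ℝ) ≤ n := by positivity
    linarith
  obtain ⟨i₀, hi₀⟩ := first_state hb hC hr hrh hrh' hnet hv hD hgood hB hN (n := n) hbad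
  have key : ∀ k i, T - i ≤ k → St ω b C r h v D ℓmax qmax T bad n i →
      Real.exp (b * n - b * (59 * C * (h * qmax) + ℓmax) -
        b * (3 * C * (h * (nrm D + 5)) * bad.card)) ≤ (sig ω v n : ℝ) := by
    intro k
    induction k with
    | zero =>
      intro i hk hst
      have := hst.1
      omega
    | succ k ih =>
      intro i hk hst
      rcases next_state hb hC hr hrh hrh' hnet hD hgood hB hN hn hst with h1 | ⟨i', h1, h2⟩
      · exact h1
      · exact ih i' (by have := hst.1; omega) h2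
  exact key (T - i₀) i₀ le_rfl hi₀

end Pool.Agent.SAWP
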