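import Pool.Agent.SAWP.L.TAProb

/-!
# SAWP, case L: probability that a position is bad (module L10; paper 4.3)

For `t` fixed and `k ∈ K` the event `TAk … k t` depends (`dep_TA`) on the slab
`t₁+2h_k-3r-1 ≤ x₁ ≤ t₁+3h_k+h_k D₁+3r`, `h_k = 16^{k-iη}`.  If `k' + (iη+1) ≤ k` then `2h_k ≥ 32·16^{iη} h_{k'}` and the slab of `k'` lies to the left of the slab of
`k` (`3r+2 ≤ h_{k'}`, `D₁ ≤ 8·16^{iη}`).  So the events are independent: `P(none) = ∏ (1 - P(TAk k t)) ≤ exp(-∑ P(TAk k t)) ≤ exp(-θ' M₀)`.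
`dep_bad`: the event no `k ∈ K` depends only on `t₁ < x₁ < t₁ + h_max (D₁+5)`.
-/

set_option autoImplicit false

open MeasureTheory

namespace Pool.Agent.SAWP

lemma badprob_setOf {ι : Type*} (K : Finset ι) (P : ι → Cfg → Prop) :
    {ω : Cfg | ∀ k ∈ K, ¬ P k ω} = ⋂ k ∈ K, {ω | P k ω}ᶜ := by
  ext ω
  simp

lemma badprob_fd_compl {A : Set Cfg} (h : FD A) : FD Aᶜ := by
  obtain ⟨F, hF⟩ := h
  exact ⟨F, hF.compl⟩

lemma badprob_fd_biInter {ι : Type*} (s : Finset ι) (A : ι → Set Cfg) (h : ∀ i ∈ s, FD (A i)) :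
    FD (⋂ i ∈ s, A i) := by
  classical
  choose! F hF using h
  refine ⟨s.biUnion F, ?_⟩
  refine Dep.iInter fun i => Dep.iInter fun hi => (hF i hi).mono ?_
  intro e he
  simp only [Finset.coe_biUnion, Set.mem_iUnion]
  exact ⟨i, hi, he⟩

/-- the slab of scale `k` -/
def badprobSlab (iη : ℕ) (D : V) (r k : ℕ) (t : V) : Set V :=
  {x : V | t.1 + 2 * 16 ^ (k - iη) - 3 * r - 1 ≤ x.1 ∧
    x.1 ≤ t.1 + 2 * 16 ^ (k - iη) + 16 ^ (k - iη) * D.1 + 16 ^ (k - iη) + 3 * r}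

lemma badprob_dep (b β : ℝ) (i₂ iη : ℕ) (a D : V) (r k : ℕ) (t : V) :
    Dep (eS (badprobSlab iη D r k t)) {ω | TAk b β i₂ iη a D r k t ω} := by
  have h := dep_TA b β (16 ^ (k - i₂))
    (sq (t.1 + 2 * 16 ^ (k - iη) - 16 ^ (k - iη) * a.1, t.2 - 16 ^ (k - iη) * a.2) (8 * 16 ^ k))
    (16 ^ (k - iη)) (t.1 + 2 * 16 ^ (k - iη), t.2)
    (t.1 + 2 * 16 ^ (k - iη) + 16 ^ (k - iη) * D.1, t.2 + 16 ^ (k - iη) * D.2) r
  refine Dep.mono (D' := eS (badprobSlab iη D r k t)) ?_ h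
  rintro e ⟨h1, h2⟩
  simp only [Set.mem_ofPred_eq] at h1 h2
  push_cast at h1 h2
  exact ⟨h1, h2⟩

lemma badprob_fd (b β : ℝ) (i₂ iη : ℕ) (a D : V) (r k : ℕ) (t : V) :
    FD {ω | TAk b β i₂ iη a D r k t ω} :=
  fd_TA b β _ _ _ _ _ _

theorem dep_bad (b β : ℝ) {i₂ iη : ℕ} {a D : V} (hD : 1 ≤ D.1) {r k₁ kmax : ℕ} (hk₁ : iη ≤ k₁)
    (hr : 3 * r + 2 ≤ 16 ^ (k₁ - iη)) {K : Finset ℕ} (hK : ∀ k ∈ K, k₁ ≤ k ∧ k ≤ kmax) (t : V) :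
    Dep (eS {x : V | t.1 < x.1 ∧ x.1 < t.1 + 16 ^ (kmax - iη) * (D.1 + 5)})
      {ω | ∀ k ∈ K, ¬ TAk b β i₂ iη a D r k t ω} := by
  rw [badprob_setOf]
  refine Dep.iInter fun k => Dep.iInter fun hk => ((badprob_dep b β i₂ iη a D r k t).compl).mono ?_
  obtain ⟨h1, h2⟩ := hK k hk
  have h3 : (16 : ℤ) ^ (k₁ - iη) ≤ 16 ^ (k - iη) := by
    exact pow_le_pow_right₀ (by norm_num) (by omega)
  have h4 : (16 : ℤ) ^ (k - iη) ≤ 16 ^ (kmax - iη) := by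
    exact pow_le_pow_right₀ (by norm_num) (by omega)
  have h5 : (3 : ℤ) * r + 2 ≤ 16 ^ (k₁ - iη) := by exact_mod_cast hr
  have key : badprobSlab iη D r k t ⊆
      {x : V | t.1 < x.1 ∧ x.1 < t.1 + 16 ^ (kmax - iη) * (D.1 + 5)} := by
    rintro x ⟨hx1, hx2⟩
    refine ⟨by omega, ?_⟩
    have h6 : (16 : ℤ) ^ (k - iη) * (D.1 + 5) ≤ 16 ^ (kmax - iη) * (D.1 + 5) :=
      mul_le_mul_of_nonneg_right h4 (by omega)
    have h7 : (16 : ℤ) ^ (k - iη) * (D.1 + 5) = 16 ^ (k - iη) * D.1 + 5 * 16 ^ (k - iη) := by ring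
    omega
  rintro e ⟨he1, he2⟩
  exact ⟨key he1, key he2⟩

theorem fd_bad (b β : ℝ) (i₂ iη : ℕ) (a D : V) (r : ℕ) (K : Finset ℕ) (t : V) :
    FD {ω | ∀ k ∈ K, ¬ TAk b β i₂ iη a D r k t ω} := by
  rw [badprob_setOf]
  exact badprob_fd_biInter K _ fun k _ => badprob_fd_compl (badprob_fd b β i₂ iη a D r k t)

lemma badprob_disj {iη : ℕ} {D : V} (hD : 1 ≤ D.1)
    (hD' : nrm D ≤ 8 * 16 ^ iη) {r k₁ : ℕ} (hk₁ : iη ≤ k₁) (hr : 3 * r + 2 ≤ 16 ^ (k₁ - iη))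
    {k k' : ℕ} (hk : k₁ ≤ k) (hkk : k + (iη + 1) ≤ k') (t : V) :
    Disjoint (eS (badprobSlab iη D r k t)) (eS (badprobSlab iη D r k' t)) := by
  rw [Set.disjoint_left]
  rintro e ⟨h1, -⟩ ⟨h2, -⟩
  have h3 : (3 : ℤ) * r + 2 ≤ 16 ^ (k₁ - iη) := by exact_mod_cast hr
  have h4 : (16 : ℤ) ^ (k₁ - iη) ≤ 16 ^ (k - iη) :=
    pow_le_pow_right₀ (by norm_num) (by omega)
  have h5 : (16 : ℤ) ^ (k - iη) * (16 * 16 ^ iη) ≤ 16 ^ (k' - iη) := by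
    rw [← pow_succ', ← pow_add]
    exact pow_le_pow_right₀ (by norm_num) (by omega)
  have h6 : D.1 ≤ 8 * 16 ^ iη := by
    have h7 : D.1.natAbs ≤ 8 * 16 ^ iη := (le_max_left _ _).trans hD'
    have h8 : ((D.1.natAbs : ℕ) : ℤ) ≤ ((8 * 16 ^ iη : ℕ) : ℤ) := by exact_mod_cast h7
    push_cast at h8
    exact (le_abs_self _).trans h8
  have h7 : (16 : ℤ) ^ (k - iη) * D.1 ≤ 16 ^ (k - iη) * (8 * 16 ^ iη) :=
    mul_le_mul_of_nonneg_left h6 (by positivity)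
  have h8 : (16 : ℤ) ^ (k - iη) * 1 ≤ 16 ^ (k - iη) * 16 ^ iη :=
    mul_le_mul_of_nonneg_left (one_le_pow₀ (by norm_num)) (by positivity)
  have h9 : (16 : ℤ) ^ (k - iη) * (16 * 16 ^ iη) = 16 * (16 ^ (k - iη) * 16 ^ iη) := by ring
  have h10 : (16 : ℤ) ^ (k - iη) * (8 * 16 ^ iη) = 8 * (16 ^ (k - iη) * 16 ^ iη) := by ring
  obtain ⟨-, h11⟩ := h1
  obtain ⟨h12, -⟩ := h2
  omega

theorem bad_prob (p : unitInterval) {θ' : ℝ} {b β : ℝ} {i₂ iη : ℕ} {a D : V} (hD : 1 ≤ D.1)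
    (hD' : nrm D ≤ 8 * 16 ^ iη) {r k₁ : ℕ} (hk₁ : iη ≤ k₁) (hr : 3 * r + 2 ≤ 16 ^ (k₁ - iη))
    {K : Finset ℕ} (hK : ∀ k ∈ K, k₁ ≤ k)
    (hsep : ∀ k ∈ K, ∀ k' ∈ K, k < k' → k + (iη + 1) ≤ k') {M₀ : ℝ}
    (hθ : ∀ k ∈ K, ∀ t : V, θ' * PR p {ω | TB b β (16 ^ (k - i₂)) (sq (0, 0) (8 * 16 ^ k))
          (16 ^ (k - iη)) (16 ^ (k - iη) * a.1, 16 ^ (k - iη) * a.2)
          (16 ^ (k - iη) * (a.1 + D.1), 16 ^ (k - iη) * (a.2 + D.2)) ω} ≤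
        PR p {ω | TAk b β i₂ iη a D r k t ω})
    (hM : M₀ ≤ ∑ k ∈ K, θ' * PR p {ω | TB b β (16 ^ (k - i₂)) (sq (0, 0) (8 * 16 ^ k))
          (16 ^ (k - iη)) (16 ^ (k - iη) * a.1, 16 ^ (k - iη) * a.2)
          (16 ^ (k - iη) * (a.1 + D.1), 16 ^ (k - iη) * (a.2 + D.2)) ω}) (t : V) :
    PR p {ω | ∀ k ∈ K, ¬ TAk b β i₂ iη a D r k t ω} ≤ Real.exp (-M₀) := by
  rw [badprob_setOf]
  rw [PR_iInter_indep p K (fun k => {ω | TAk b β i₂ iη a D r k t ω}ᶜ)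
    (fun k => eS (badprobSlab iη D r k t))
    (fun k _ => (badprob_dep b β i₂ iη a D r k t).compl)
    (fun k _ => badprob_fd_compl (badprob_fd b β i₂ iη a D r k t))]
  · calc ∏ k ∈ K, PR p {ω | TAk b β i₂ iη a D r k t ω}ᶜ
        ≤ ∏ k ∈ K, Real.exp (-PR p {ω | TAk b β i₂ iη a D r k t ω}) := by
          refine Finset.prod_le_prod (fun k _ => PR_nonneg p _) fun k _ => ?_
          rw [PR_compl p (badprob_fd b β i₂ iη a D r k t).measurableSet]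
          exact Real.one_sub_le_exp_neg _
      _ = Real.exp (-∑ k ∈ K, PR p {ω | TAk b β i₂ iη a D r k t ω}) := by
          rw [← Real.exp_sum, Finset.sum_neg_distrib]
      _ ≤ Real.exp (-M₀) := by
          rw [Real.exp_le_exp, neg_le_neg_iff]
          exact hM.trans (Finset.sum_le_sum fun k hk => hθ k hk t)
  · intro k hk k' hk' hne
    rcases lt_or_gt_of_ne hne with h | h
    · exact badprob_disj hD hD' hk₁ hr (hK k hk) (hsep k hk k' hk' h) t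
    · exact (badprob_disj hD hD' hk₁ hr (hK k' hk') (hsep k' hk' k hk h) t).symm

end Pool.Agent.SAWP
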