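import Pool.Agent.SAWP.Meas

/-!
# SAWP, case L: the number of bad positions (module L11; paper 4.4)

Events `Bd i`, `i < T`, `Bd i` and `Bd j` depend on disjoint edge sets if `i + G ≤ j`, `P(Bd i) ≤ 4^{-m}`, `m δ'' ≥ 1`.
If `#{i<T : Bd i} > δ'' T` then in some residue class `c` mod `G` (with `N_c ≥ T/G` elements, integer division, below `T`) the number of bad `i` is `> δ'' N_c`.
For fixed `c`: union over the subsets `S` of the class with `|S| > δ'' N_c`: `P(all i∈S bad) ≤ 4^{-m|S|} ≤ 4^{-N_c}` (`PR_iInter_indep`), `2^{N_c}` subsets: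
`≤ 2^{-N_c} ≤ 2^{-(T/G)}`.  Sum over the `G` classes.
-/

set_option autoImplicit false

open MeasureTheory

namespace Pool.Agent.SAWP

namespace CountBad

/-- the residue class of `c` modulo `G` below `T` -/
def cls (T G c : ℕ) : Finset ℕ := (Finset.range T).filter (fun i => i % G = c)

lemma mem_cls {T G c i : ℕ} : i ∈ cls T G c ↔ i < T ∧ i % G = c := by
  simp [cls]

lemma card_cls_ge {T G c : ℕ} (hG : 1 ≤ G) (hc : c < G) : T / G ≤ (cls T G c).card := by
  have h1 : (Finset.range (T / G)).image (fun k => c + G * k) ⊆ cls T G c := by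
    intro i hi
    obtain ⟨k, hk, rfl⟩ := Finset.mem_image.1 hi
    rw [Finset.mem_range] at hk
    rw [mem_cls]
    constructor
    · have h2 : G * (k + 1) ≤ G * (T / G) := Nat.mul_le_mul_left _ hk
      have h3 : G * (T / G) ≤ T := Nat.mul_div_le T G
      rw [mul_add, mul_one] at h2
      omega
    · rw [Nat.add_mul_mod_self_left, Nat.mod_eq_of_lt hc]
  have h2 : ((Finset.range (T / G)).image (fun k => c + G * k)).card = T / G := by
    rw [Finset.card_image_of_injective, Finset.card_range]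
    intro a b hab
    have h3 : G * a = G * b := by simpa using hab
    exact Nat.eq_of_mul_eq_mul_left hG h3
  rw [← h2]
  exact Finset.card_le_card h1

lemma sum_card_cls {T G : ℕ} (hG : 1 ≤ G) (P : ℕ → Prop) [DecidablePred P] :
    ∑ c ∈ Finset.range G, ((cls T G c).filter P).card = ((Finset.range T).filter P).card := by
  rw [Finset.card_eq_sum_card_fiberwise (f := fun i => i % G) (t := Finset.range G)]
  · refine Finset.sum_congr rfl fun c _ => ?_
    congr 1
    ext i
    simp only [Finset.mem_filter, mem_cls, Finset.mem_range]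
    tauto
  · intro i _
    simp only [Finset.coe_range, Set.mem_Iio]
    exact Nat.mod_lt _ hG

open Classical in
/-- one residue class -/
theorem class_bad (p : unitInterval) {m : ℕ} {δ : ℝ} (hm : 1 ≤ m * δ) (Bd : ℕ → Set Cfg)
    (D : ℕ → Set Edge) (C : Finset ℕ) (hdep : ∀ i, Dep (D i) (Bd i))
    (hfd : ∀ i, FD (Bd i)) (hdisj : ∀ i ∈ C, ∀ j ∈ C, i ≠ j → Disjoint (D i) (D j))
    (hP : ∀ i ∈ C, PR p (Bd i) ≤ (1 / 4 : ℝ) ^ m) :
    PR p {ω | δ * C.card < ((C.filter (fun i => ω ∈ Bd i)).card : ℝ)} ≤ (1 / 2 : ℝ) ^ C.card := by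
  have h1 : {ω | δ * C.card < ((C.filter (fun i => ω ∈ Bd i)).card : ℝ)} ⊆
      ⋃ S ∈ C.powerset.filter (fun S => δ * C.card < (S.card : ℝ)), ⋂ i ∈ S, Bd i := by
    intro ω hω
    simp only [Set.mem_iUnion, Set.mem_iInter, Finset.mem_filter, Finset.mem_powerset,
      exists_prop]
    exact ⟨C.filter (fun i => ω ∈ Bd i), ⟨Finset.filter_subset _ _, hω⟩,
      fun i hi => (Finset.mem_filter.1 hi).2⟩
  refine (PR_mono p h1).trans ((PR_biUnion_le p _ _).trans ?_)
  have h2 : ∀ S ∈ C.powerset.filter (fun S => δ * C.card < (S.card : ℝ)),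
      PR p (⋂ i ∈ S, Bd i) ≤ (1 / 4 : ℝ) ^ C.card := by
    intro S hS
    obtain ⟨hSC, hcard⟩ := Finset.mem_filter.1 hS
    rw [Finset.mem_powerset] at hSC
    rw [PR_iInter_indep p S Bd D (fun i _ => hdep i) (fun i _ => hfd i)
      (fun i hi j hj => hdisj i (hSC hi) j (hSC hj))]
    have h3 : ∏ i ∈ S, PR p (Bd i) ≤ ∏ _i ∈ S, (1 / 4 : ℝ) ^ m :=
      Finset.prod_le_prod (fun i _ => PR_nonneg p _) (fun i hi => hP i (hSC hi))
    rw [Finset.prod_const, ← pow_mul] at h3
    refine h3.trans ?_
    have h4 : C.card ≤ m * S.card := by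
      have h5 : (C.card : ℝ) ≤ m * S.card := by
        calc (C.card : ℝ) = 1 * C.card := (one_mul _).symm
          _ ≤ (m * δ) * C.card := by
              apply mul_le_mul_of_nonneg_right hm (Nat.cast_nonneg _)
          _ = m * (δ * C.card) := by ring
          _ ≤ m * S.card := by
              apply mul_le_mul_of_nonneg_left hcard.le (Nat.cast_nonneg _)
      exact_mod_cast h5
    exact pow_le_pow_of_le_one (by norm_num) (by norm_num) h4
  refine (Finset.sum_le_sum h2).trans ?_
  rw [Finset.sum_const, nsmul_eq_mul]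
  have h3 : ((C.powerset.filter (fun S => δ * C.card < (S.card : ℝ))).card : ℝ) ≤
      (2 : ℝ) ^ C.card := by
    have h4 := Finset.card_filter_le C.powerset (fun S => δ * C.card < (S.card : ℝ))
    rw [Finset.card_powerset] at h4
    exact_mod_cast h4
  refine (mul_le_mul_of_nonneg_right h3 (by positivity)).trans ?_
  rw [← mul_pow]
  norm_num

end CountBad

open CountBad

open Classical in
theorem count_bad (p : unitInterval) {T G m : ℕ} (hG : 1 ≤ G) {δ : ℝ} (hδ : 0 < δ)
    (hm : 1 ≤ m * δ) (Bd : ℕ → Set Cfg) (D : ℕ → Set Edge) (hdep : ∀ i, Dep (D i) (Bd i))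
    (hfd : ∀ i, FD (Bd i)) (hdisj : ∀ i j, i + G ≤ j → Disjoint (D i) (D j))
    (hP : ∀ i, i < T → PR p (Bd i) ≤ (1 / 4 : ℝ) ^ m) :
    PR p {ω | δ * T < (((Finset.range T).filter (fun i => ω ∈ Bd i)).card : ℝ)} ≤
      G * (1 / 2 : ℝ) ^ (T / G) := by
  have h1 : {ω | δ * T < (((Finset.range T).filter (fun i => ω ∈ Bd i)).card : ℝ)} ⊆
      ⋃ c ∈ Finset.range G, {ω | δ * (cls T G c).card <
        (((cls T G c).filter (fun i => ω ∈ Bd i)).card : ℝ)} := by
    intro ω hω
    by_contra hcon
    simp only [Set.mem_iUnion, exists_prop, not_exists, not_and, Set.mem_ofPred_eq, not_lt] at hcon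
    have h2 := Finset.sum_le_sum hcon
    rw [← Nat.cast_sum, sum_card_cls hG, ← Finset.mul_sum, ← Nat.cast_sum] at h2
    have h3 : ∑ c ∈ Finset.range G, (cls T G c).card = T := by
      have h4 := sum_card_cls (T := T) hG (fun _ => True)
      simpa using h4
    rw [h3] at h2
    exact absurd hω (not_lt.2 h2)
  refine (PR_mono p h1).trans ((PR_biUnion_le p _ _).trans ?_)
  have h2 : ∀ c ∈ Finset.range G, PR p {ω | δ * (cls T G c).card <
        (((cls T G c).filter (fun i => ω ∈ Bd i)).card : ℝ)} ≤ (1 / 2 : ℝ) ^ (T / G) := by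
    intro c hc
    rw [Finset.mem_range] at hc
    refine (class_bad p hm Bd D (cls T G c) hdep hfd ?_ ?_).trans ?_
    · intro i hi j hj hij
      rw [mem_cls] at hi hj
      have key : ∀ a b : ℕ, a % G = c → b % G = c → a < b → a + G ≤ b := by
        intro a b ha hb hab
        have h3 : (b - a) % G = 0 := by
          apply Nat.sub_mod_eq_zero_of_mod_eq
          rw [ha, hb]
        have h4 := Nat.le_of_dvd (by omega) (Nat.dvd_of_mod_eq_zero h3)
        omega
      rcases lt_or_gt_of_ne hij with h | h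
      · exact hdisj i j (key i j hi.2 hj.2 h)
      · exact (hdisj j i (key j i hj.2 hi.2 h)).symm
    · intro i hi
      exact hP i (mem_cls.1 hi).1
    · exact pow_le_pow_of_le_one (by norm_num) (by norm_num) (card_cls_ge hG hc)
  refine (Finset.sum_le_sum h2).trans ?_
  rw [Finset.sum_const, nsmul_eq_mul, Finset.card_range]

end Pool.Agent.SAWP
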