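import Pool.Agent.SAWP.Meas
import Pool.Agent.SAWP.NetDefs

/-!
# SAWP, case L: definitions (bridges, arms, positions)
-/

set_option autoImplicit false

open MeasureTheory

namespace Pool.Agent.SAWP

/-- Bridge event in the box `B`: some `s, m ∈ B`, `m₁ - s₁ ≥ w`, with bridge weight
`≥ e^{(β/4) w}`. -/
def BR (b β : ℝ) (w : ℕ) (B : Finset V) (ω : Cfg) : Prop :=
  ∃ s ∈ B, ∃ m ∈ B, (w : ℤ) ≤ m.1 - s.1 ∧
    Real.exp (β / 4 * w) ≤ gs (Op ω) B b (btw s m) s m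

/-- Typed bridge event: `s` in the cell `sq cs h`, `m` in the cell `sq cm h`. -/
def TB (b β : ℝ) (w : ℕ) (B : Finset V) (h : ℕ) (cs cm : V) (ω : Cfg) : Prop :=
  ∃ s ∈ B, ∃ m ∈ B, s ∈ sq cs h ∧ m ∈ sq cm h ∧ (w : ℤ) ≤ m.1 - s.1 ∧
    Real.exp (β / 4 * w) ≤ gs (Op ω) B b (btw s m) s m

/-- Right arm at `m`: the edge from `m` to `m + e₁` is open and `m + e₁` has a NE-arm of radius
`3r`. -/
def RArm (ω : Cfg) (m : V) (r : ℕ) : Prop :=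
  ω (m, false) = true ∧ NEarm (Op ω) (m.1 + 1, m.2) (3 * r)

/-- Left arm at `s`: the edge from `s - e₁` to `s` is open and `s - e₁` has a NW-arm of radius
`3r`. -/
def LArm (ω : Cfg) (s : V) (r : ℕ) : Prop :=
  ω ((s.1 - 1, s.2), false) = true ∧ NWarm (Op ω) (s.1 - 1, s.2) (3 * r)

/-- Typed bridge event with arms. -/
def TA (b β : ℝ) (w : ℕ) (B : Finset V) (h : ℕ) (cs cm : V) (r : ℕ) (ω : Cfg) : Prop :=
  ∃ s ∈ B, ∃ m ∈ B, s ∈ sq cs h ∧ m ∈ sq cm h ∧ (w : ℤ) ≤ m.1 - s.1 ∧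
    Real.exp (β / 4 * w) ≤ gs (Op ω) B b (btw s m) s m ∧ RArm ω m r ∧ LArm ω s r

/-- The typed bridge event with arms of scale `k` at the position `t`: width `w = 16^(k-i₂)`, cells
of side `h = 16^(k-iη)`, `s`-cell at `t + 2h e₁`, `m`-cell at `t + 2h e₁ + h D`, box of side
`8·16^k` placed so that the `s`-cell is its cell number `a`. -/
def TAk (b β : ℝ) (i₂ iη : ℕ) (a D : V) (r k : ℕ) (t : V) (ω : Cfg) : Prop :=
  TA b β (16 ^ (k - i₂))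
    (sq (t.1 + 2 * 16 ^ (k - iη) - 16 ^ (k - iη) * a.1, t.2 - 16 ^ (k - iη) * a.2) (8 * 16 ^ k))
    (16 ^ (k - iη)) (t.1 + 2 * 16 ^ (k - iη), t.2)
    (t.1 + 2 * 16 ^ (k - iη) + 16 ^ (k - iη) * D.1, t.2 + 16 ^ (k - iη) * D.2) r ω

/-- Positions `t_i = v + i h (D + 5 e₁)`. -/
def pos (v : V) (h : ℕ) (D : V) (i : ℕ) : V :=
  (v.1 + i * (h * (D.1 + 5)), v.2 + i * (h * D.2))

/-- Deterministic bridging family at the position `t` with cell side `hk`: many paths `s → m` of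
one common length `ℓ ≤ ℓmax`, between the vertical lines through `s` and `m`, with arms at `m` and
`s`. -/
def BrAt (ω : Cfg) (b : ℝ) (C r : ℕ) (D : V) (ℓmax : ℕ) (t : V) (hk : ℕ) : Prop :=
  ∃ s ∈ sq (t.1 + 2 * hk, t.2) hk, ∃ m ∈ sq (t.1 + 2 * hk + hk * D.1, t.2 + hk * D.2) hk,
    s.1 < m.1 ∧ RArm ω m r ∧ LArm ω s r ∧ ∃ ℓ : ℕ, ℓ ≤ ℓmax ∧ ∃ 𝓑 : Finset (List V),
      (∀ l ∈ 𝓑, IsP (Op ω) s m l ∧ len l = ℓ ∧ btw s m l) ∧
      Real.exp (b * ℓ + b * (68 * C) * hk) ≤ (𝓑.card : ℝ)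

end Pool.Agent.SAWP
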