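import Pool.Agent.SAWP.Perc.Crossing
import Pool.Agent.SAWP.L.LDefs

/-!
# SAWP, case L: probability of the network event (module L14)

With `C, c` from `crossing`: `P(not Net (Op ω) B r C) ≤ 2 |B| C e^{-cr}`: union bound over the corners `x ∈ B` (`Hr x r ⊆ B`
implies `x ∈ B`).  Also: `Net` is finitely dependent (`IsHX`, `IsVX` use only edges inside the rectangle).
-/

set_option autoImplicit false

open MeasureTheory

namespace Pool.Agent.SAWP

namespace NetProb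

lemma HX_restrict {O : Set Edge} {x : V} {r C : ℕ} {B : Finset V} (hB : Hr x r ⊆ B) :
    HX O x r C ↔ HX (O ∩ eS (↑B : Set V)) x r C := by
  constructor
  · rintro ⟨l, y, z, h1, h2, h3⟩
    exact ⟨l, y, z, h1.restrict (fun v hv => Finset.mem_coe.2 (hB (h2 v hv))), h2, h3⟩
  · rintro ⟨l, y, z, h1, h2, h3⟩
    exact ⟨l, y, z, h1.mono Set.inter_subset_left, h2, h3⟩

lemma VX_restrict {O : Set Edge} {x : V} {r C : ℕ} {B : Finset V} (hB : Vr x r ⊆ B) :
    VX O x r C ↔ VX (O ∩ eS (↑B : Set V)) x r C := by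
  constructor
  · rintro ⟨l, y, z, h1, h2, h3⟩
    exact ⟨l, y, z, h1.restrict (fun v hv => Finset.mem_coe.2 (hB (h2 v hv))), h2, h3⟩
  · rintro ⟨l, y, z, h1, h2, h3⟩
    exact ⟨l, y, z, h1.mono Set.inter_subset_left, h2, h3⟩

lemma Net_restrict {O : Set Edge} {B : Finset V} {r C : ℕ} :
    Net O B r C ↔ Net (O ∩ eS (↑B : Set V)) B r C := by
  unfold Net
  refine and_congr ?_ ?_
  · exact forall_congr' fun x => imp_congr_right fun hx => HX_restrict hx
  · exact forall_congr' fun x => imp_congr_right fun hx => VX_restrict hx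

lemma dep_net (B : Finset V) (r C : ℕ) :
    Dep (eS (↑B : Set V)) {ω | Net (Op ω) B r C} := by
  have h := dep_of_op (D := eS (↑B : Set V)) (fun O => Net O B r C)
  have e : {ω : Cfg | Net (Op ω) B r C} =
      {ω : Cfg | Net (Op ω ∩ eS (↑B : Set V)) B r C} := by
    ext ω
    exact Net_restrict
  rw [e]
  exact h

lemma fd_HX (x : V) (r C : ℕ) : FD {ω | HX (Op ω) x r C} := by
  refine ⟨eF (Hr x r), ?_⟩
  rw [coe_eF]
  have h := dep_of_op (D := eS (↑(Hr x r) : Set V)) (fun O => HX O x r C)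
  have e : {ω : Cfg | HX (Op ω) x r C} =
      {ω : Cfg | HX (Op ω ∩ eS (↑(Hr x r) : Set V)) x r C} := by
    ext ω
    exact HX_restrict (Finset.Subset.refl _)
  rw [e]
  exact h

lemma fd_VX (x : V) (r C : ℕ) : FD {ω | VX (Op ω) x r C} := by
  refine ⟨eF (Vr x r), ?_⟩
  rw [coe_eF]
  have h := dep_of_op (D := eS (↑(Vr x r) : Set V)) (fun O => VX O x r C)
  have e : {ω : Cfg | VX (Op ω) x r C} =
      {ω : Cfg | VX (Op ω ∩ eS (↑(Vr x r) : Set V)) x r C} := by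
    ext ω
    exact VX_restrict (Finset.Subset.refl _)
  rw [e]
  exact h

lemma self_mem_Hr (x : V) (r : ℕ) : x ∈ Hr x r := by
  unfold Hr
  rw [mem_rect]
  refine ⟨le_refl _, by omega, le_refl _, by omega⟩

lemma self_mem_Vr (x : V) (r : ℕ) : x ∈ Vr x r := by
  unfold Vr
  rw [mem_rect]
  refine ⟨le_refl _, by omega, le_refl _, by omega⟩

end NetProb

open NetProb in
theorem net_prob (p : unitInterval) {C : ℕ} {c : ℝ}
    (h : ∀ r : ℕ, 1 ≤ r → ∀ x : V,
      1 - C * Real.exp (-(c * r)) ≤ PR p {ω | HX (Op ω) x r C} ∧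
      1 - C * Real.exp (-(c * r)) ≤ PR p {ω | VX (Op ω) x r C})
    (B : Finset V) {r : ℕ} (hr : 1 ≤ r) :
    PR p {ω | ¬ Net (Op ω) B r C} ≤ 2 * B.card * (C * Real.exp (-(c * r))) := by
  have h1 : {ω : Cfg | ¬ Net (Op ω) B r C} ⊆
      ⋃ x ∈ B, ({ω : Cfg | HX (Op ω) x r C}ᶜ ∪ {ω : Cfg | VX (Op ω) x r C}ᶜ) := by
    intro ω hω
    by_contra hn
    apply hω
    simp only [Set.mem_iUnion, Set.mem_union, Set.mem_compl_iff, exists_prop, not_exists,
      not_and, not_or, not_not] at hn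
    exact ⟨fun x hx => (hn x (hx (self_mem_Hr x r))).1,
      fun x hx => (hn x (hx (self_mem_Vr x r))).2⟩
  have h2 : ∀ x ∈ B, PR p ({ω : Cfg | HX (Op ω) x r C}ᶜ ∪ {ω : Cfg | VX (Op ω) x r C}ᶜ) ≤
      2 * (C * Real.exp (-(c * r))) := by
    intro x _
    obtain ⟨h3, h4⟩ := h r hr x
    have h5 := PR_union_le p ({ω : Cfg | HX (Op ω) x r C}ᶜ) ({ω : Cfg | VX (Op ω) x r C}ᶜ)
    rw [PR_compl p (fd_HX x r C).measurableSet, PR_compl p (fd_VX x r C).measurableSet] at h5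
    linarith
  calc PR p {ω | ¬ Net (Op ω) B r C}
      ≤ PR p (⋃ x ∈ B, ({ω : Cfg | HX (Op ω) x r C}ᶜ ∪ {ω : Cfg | VX (Op ω) x r C}ᶜ)) :=
        PR_mono p h1
    _ ≤ ∑ x ∈ B, PR p ({ω : Cfg | HX (Op ω) x r C}ᶜ ∪ {ω : Cfg | VX (Op ω) x r C}ᶜ) :=
        PR_biUnion_le p B _
    _ ≤ ∑ _x ∈ B, 2 * (C * Real.exp (-(c * r))) := Finset.sum_le_sum h2
    _ = 2 * B.card * (C * Real.exp (-(c * r))) := by
        rw [Finset.sum_const, nsmul_eq_mul]; ring

open NetProb in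
theorem fd_net (B : Finset V) (r C : ℕ) : FD {ω | Net (Op ω) B r C} := by
  refine ⟨eF B, ?_⟩
  rw [coe_eF]
  exact dep_net B r C

end Pool.Agent.SAWP
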