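import Pool.Agent.SAWP.L.Types
import Pool.Agent.SAWP.L.BadProb
import Pool.Agent.SAWP.L.CountBad
import Pool.Agent.SAWP.L.NetProb

/-!
# SAWP, case L: almost surely the good events hold eventually (module L16; paper 4.4)

Fix `v`, `iη ≥ i₂+1`, `δ'' > 0`.  Let `m` with `m δ'' ≥ 1`, `θ'` from `TAk_ge`, `M₀` with `exp(-θ' M₀) ≤ 4^{-m}`; `types` gives `H`.  `C, c` from `crossing`.
For `n` large: `k₁ = Nat.log (16^(5H)) n` (so `16^{5Hk₁} ≤ n < 16^{5H(k₁+1)}`), `r = Rc (k₁+1)`, `h = 16^{k₁-iη}`, `a, D, K` from `types`,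
`T = 2n/(h(D₁+5)) + 1`, `bad = {i < T : no k ∈ K with TAk … k (pos v h D i)}`.
(1) `P(#bad > δ'' T) ≤ G (1/2)^{T/G}`, `G = 16^{H k₁ - k₁}` (`h G = 16^{H k₁ - iη}`): `count_bad` with `bad_prob`, `dep_bad` (`pos v h D j` has first coordinate
`≥ pos(i)₁ + h G (D₁+5)` for `j ≥ i+G`, so the slabs are disjoint).  `G ≤ n^{1/5}`, `T ≥ 2n/(h(D₁+5)) ≥ c n^{4/5}`: summable.
(2) `P(not Net (box v N) r C) ≤ 2(2N+1)² C e^{-cr}`, `N = 32·16^{iη} n`: with `Rc` large (`c Rc ≥ 5H·4·log 16 + …`) it is `≤ C'' n^{-2}` since `e^{-cr} ≤ 16^{-20H(k₁+1)} ≤ n^{-4}`.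
Borel-Cantelli.
-/

set_option autoImplicit false

open MeasureTheory

namespace Pool.Agent.SAWP

/-! ### Elementary estimates -/

lemma ge_pow_aux {y : ℕ} (hy : 1 ≤ y) : 1144 * y ≤ 2 * 65536 ^ y := by
  induction y, hy using Nat.le_induction with
  | base => norm_num
  | succ y hy ih => rw [pow_succ]; omega

/-- `13 · 44 H (k+1) · 16^{Hk} ≤ 2 (16^{Hk})^5`. -/
lemma ge_pow_aux2 {H k : ℕ} (hH : 1 ≤ H) (hk : 1 ≤ k) :
    13 * (44 * H * (k + 1)) * 16 ^ (H * k) ≤ 2 * 16 ^ (5 * H * k) := by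
  have hy : 1 ≤ H * k := Nat.one_le_iff_ne_zero.2 (by positivity)
  have h1 := ge_pow_aux hy
  have h2 : 13 * (44 * H * (k + 1)) ≤ 1144 * (H * k) := by nlinarith
  have h3 : (16 : ℕ) ^ (5 * H * k) = 65536 ^ (H * k) * 16 ^ (H * k) := by
    rw [show (65536 : ℕ) = 16 ^ 4 by norm_num, ← pow_mul, ← pow_add]
    congr 1; ring
  calc 13 * (44 * H * (k + 1)) * 16 ^ (H * k)
      ≤ 2 * 65536 ^ (H * k) * 16 ^ (H * k) := Nat.mul_le_mul_right _ (h2.trans h1)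
    _ = 2 * 16 ^ (5 * H * k) := by rw [h3, mul_assoc]

lemma ge_exp_log {m : ℕ} : Real.exp (-(m * Real.log 4)) = (1 / 4 : ℝ) ^ m := by
  rw [show -((m : ℝ) * Real.log 4) = (m : ℝ) * (-(Real.log 4)) by ring, Real.exp_nat_mul,
    Real.exp_neg, Real.exp_log (by norm_num)]
  norm_num

/-- Eventually `3 R (k+1) + 2 ≤ 16^(k-i)`. -/
lemma ge_lin (R i : ℕ) : ∃ K₀ : ℕ, i ≤ K₀ ∧ ∀ k, K₀ ≤ k → 3 * (R * (k + 1)) + 2 ≤ 16 ^ (k - i) := by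
  refine ⟨i + (3 * R * (i + 2) + 2) + 1, by omega, fun k hk => ?_⟩
  obtain ⟨j, rfl⟩ : ∃ j, k = i + j := ⟨k - i, by omega⟩
  have hj : 3 * R * (i + 2) + 2 < j := by omega
  rw [Nat.add_sub_cancel_left]
  have h1 : j ^ 2 < 16 ^ j := by
    have h2 : j < 4 ^ j := Nat.lt_pow_self (by norm_num)
    calc j ^ 2 < (4 ^ j) ^ 2 := by gcongr
      _ = 16 ^ j := by rw [← pow_mul, mul_comm, pow_mul]; norm_num
  refine le_trans ?_ h1.le
  have h2 : 1 ≤ j := by omega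
  nlinarith [Nat.mul_le_mul_right j hj.le, Nat.zero_le (R * i), Nat.zero_le R,
    Nat.mul_le_mul (Nat.mul_le_mul_left R h2) (le_refl 1)]

/-! ### Borel-Cantelli -/

lemma ge_bc (p : unitInterval) (E : ℕ → Set Cfg) (N₀ : ℕ) (A : ℝ)
    (h : ∀ n, N₀ ≤ n → PR p (E n) ≤ A * ((n : ℝ) ^ 2)⁻¹) :
    ∀ᵐ ω ∂(perc p), ∀ᶠ n : ℕ in Filter.atTop, ω ∉ E n := by
  have hA : ∀ n : ℕ, N₀ ≤ n → (perc p) (E n) ≤ ENNReal.ofReal (|A| * ((n : ℝ) ^ 2)⁻¹) := by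
    intro n hn
    have h1 : (perc p) (E n) = ENNReal.ofReal (PR p (E n)) := by
      unfold PR
      exact (ofReal_measureReal).symm
    rw [h1]
    apply ENNReal.ofReal_le_ofReal
    refine (h n hn).trans ?_
    exact mul_le_mul_of_nonneg_right (le_abs_self A) (by positivity)
  have hs : Summable (fun n : ℕ => |A| * ((n : ℝ) ^ 2)⁻¹) :=
    (Real.summable_nat_pow_inv.2 (by norm_num)).mul_left _
  have h2 : ∑' n, (perc p) (if N₀ ≤ n then E n else ∅) ≠ ⊤ := by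
    refine ne_top_of_le_ne_top ?_ (ENNReal.tsum_le_tsum (g := fun n : ℕ =>
      ENNReal.ofReal (|A| * ((n : ℝ) ^ 2)⁻¹)) fun n => ?_)
    · rw [← ENNReal.ofReal_tsum_of_nonneg (fun n => by positivity) hs]
      exact ENNReal.ofReal_ne_top
    · split_ifs with hn
      · exact hA n hn
      · simp
  filter_upwards [ae_eventually_notMem h2] with ω hω
  filter_upwards [hω, Filter.eventually_ge_atTop N₀] with n hn hn'
  simpa [hn'] using hn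

/-! ### The two probability bounds -/

lemma ge_box_card (v : V) (n : ℕ) : (box v n).card = (2 * n + 1) ^ 2 := by
  simp only [box, rect, Finset.card_product, Int.card_Icc]
  rw [pow_two]
  congr 1 <;> · have : ∀ x : ℤ, x + n + 1 - (x - n) = ((2 * n + 1 : ℕ) : ℤ) := by intro x; push_cast; ring
                rw [this, Int.toNat_natCast]

/-- Bound of the network probability. -/
lemma ge_net (p : unitInterval) {C : ℕ} {c : ℝ}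
    (hX : ∀ r : ℕ, 1 ≤ r → ∀ x : V,
      1 - C * Real.exp (-(c * r)) ≤ PR p {ω | HX (Op ω) x r C} ∧
      1 - C * Real.exp (-(c * r)) ≤ PR p {ω | VX (Op ω) x r C}) (v : V) {H Rc L n k₁ : ℕ}
    (hRc : 1 ≤ Rc) (hcR : 20 * H * Real.log 16 ≤ c * Rc) (hn : 1 ≤ n)
    (hlt : n < 16 ^ (5 * H * (k₁ + 1))) :
    PR p {ω | ¬ Net (Op ω) (box v (L * n)) (Rc * (k₁ + 1)) C} ≤
      2 * (2 * L + 1) ^ 2 * C * ((n : ℝ) ^ 2)⁻¹ := by
  have hr : 1 ≤ Rc * (k₁ + 1) := Nat.mul_pos hRc (by omega)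
  refine (net_prob p hX (box v (L * n)) hr).trans ?_
  rw [ge_box_card]
  have hn' : (1 : ℝ) ≤ n := by exact_mod_cast hn
  have h1 : (((2 * (L * n) + 1) ^ 2 : ℕ) : ℝ) ≤ (2 * L + 1) ^ 2 * (n : ℝ) ^ 2 := by
    push_cast
    rw [← mul_pow]
    apply pow_le_pow_left₀ (by positivity)
    nlinarith
  have h2 : Real.exp (-(c * ((Rc * (k₁ + 1) : ℕ) : ℝ))) ≤ ((n : ℝ) ^ 4)⁻¹ := by
    have h3 : (n : ℝ) ^ 4 ≤ (16 : ℝ) ^ (20 * H * (k₁ + 1)) := by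
      have h4 : (n : ℝ) ≤ (16 : ℝ) ^ (5 * H * (k₁ + 1)) := by exact_mod_cast hlt.le
      calc (n : ℝ) ^ 4 ≤ ((16 : ℝ) ^ (5 * H * (k₁ + 1))) ^ 4 :=
            pow_le_pow_left₀ (by positivity) h4 4
        _ = (16 : ℝ) ^ (20 * H * (k₁ + 1)) := by
            rw [← pow_mul]; congr 1; ring
    have h5 : (16 : ℝ) ^ (20 * H * (k₁ + 1)) = Real.exp (20 * H * Real.log 16 * (k₁ + 1)) := by
      rw [← Real.exp_log (show (0 : ℝ) < 16 by norm_num), ← Real.exp_nat_mul]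
      congr 1
      rw [Real.exp_log (by norm_num)]
      push_cast; ring
    rw [Real.exp_neg]
    apply inv_anti₀ (by positivity)
    refine h3.trans ?_
    rw [h5]
    apply Real.exp_le_exp.2
    push_cast
    rw [← mul_assoc]
    exact mul_le_mul_of_nonneg_right hcR (by positivity)
  have h0 : (0 : ℝ) < n := by linarith
  calc 2 * (((2 * (L * n) + 1) ^ 2 : ℕ) : ℝ) * (C * Real.exp (-(c * ((Rc * (k₁ + 1) : ℕ) : ℝ))))
      ≤ 2 * ((2 * L + 1) ^ 2 * (n : ℝ) ^ 2) * (C * ((n : ℝ) ^ 4)⁻¹) := by gcongr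
    _ = 2 * (2 * L + 1) ^ 2 * C * ((n : ℝ) ^ 2)⁻¹ := by
        field_simp

/-- Bound of the bad count probability from `count_bad`. -/
lemma ge_cnt {H n k₁ iη : ℕ} (hH : 1 ≤ H) (hk : 1 ≤ k₁) (hiη : iη ≤ k₁) {D : V}
    (hD : 1 ≤ D.1) (hD' : nrm D ≤ 8 * 16 ^ iη) (hge : 16 ^ (5 * H * k₁) ≤ n)
    (hlt : n < 16 ^ (5 * H * (k₁ + 1))) :
    ((16 ^ ((H - 1) * k₁) : ℕ) : ℝ) * (1 / 2 : ℝ) ^
      ((2 * n / (16 ^ (k₁ - iη) * (D.1 + 5).toNat) + 1) / 16 ^ ((H - 1) * k₁)) ≤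
      1 * ((n : ℝ) ^ 2)⁻¹ := by
  set q := 16 ^ (k₁ - iη) * (D.1 + 5).toNat with hq
  set G := 16 ^ ((H - 1) * k₁) with hG
  have hqpos : 0 < q := by
    rw [hq]; exact Nat.mul_pos (by positivity) (by omega)
  have hGpos : 0 < G := by rw [hG]; positivity
  have hn0 : 0 < n := lt_of_lt_of_le (by positivity) hge
  -- `q ≤ 13 · 16^{k₁}`
  have hq13 : q ≤ 13 * 16 ^ k₁ := by
    have h1 : (D.1 + 5).toNat ≤ 13 * 16 ^ iη := by
      have h2 : D.1.natAbs ≤ 8 * 16 ^ iη := (le_max_left _ _).trans hD'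
      have h3 : 1 ≤ 16 ^ iη := Nat.one_le_pow _ _ (by norm_num)
      omega
    calc q ≤ 16 ^ (k₁ - iη) * (13 * 16 ^ iη) := by rw [hq]; exact Nat.mul_le_mul_left _ h1
      _ = 13 * (16 ^ (k₁ - iη) * 16 ^ iη) := by ring
      _ = 13 * 16 ^ k₁ := by rw [← pow_add, Nat.sub_add_cancel hiη]
  have hGq : G * q ≤ 13 * 16 ^ (H * k₁) := by
    calc G * q ≤ 16 ^ ((H - 1) * k₁) * (13 * 16 ^ k₁) := Nat.mul_le_mul_left _ hq13
      _ = 13 * (16 ^ ((H - 1) * k₁) * 16 ^ k₁) := by ring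
      _ = 13 * 16 ^ (H * k₁) := by
          rw [← pow_add]
          congr 2
          obtain ⟨H', rfl⟩ : ∃ H', H = H' + 1 := ⟨H - 1, by omega⟩
          simp only [Nat.add_sub_cancel]; ring
  set L := 44 * H * (k₁ + 1) with hL
  have hLT : L ≤ (2 * n / q + 1) / G := by
    rw [Nat.le_div_iff_mul_le hGpos]
    have h1 : (L * G) * q ≤ 2 * n := by
      calc (L * G) * q = L * (G * q) := by ring
        _ ≤ L * (13 * 16 ^ (H * k₁)) := Nat.mul_le_mul_left _ hGq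
        _ = 13 * (44 * H * (k₁ + 1)) * 16 ^ (H * k₁) := by rw [hL]; ring
        _ ≤ 2 * 16 ^ (5 * H * k₁) := ge_pow_aux2 hH hk
        _ ≤ 2 * n := by omega
    have h2 : L * G ≤ 2 * n / q := (Nat.le_div_iff_mul_le hqpos).2 h1
    omega
  have h1 : (1 / 2 : ℝ) ^ ((2 * n / q + 1) / G) ≤ (1 / 2 : ℝ) ^ L :=
    pow_le_pow_of_le_one (by norm_num) (by norm_num) hLT
  have h2 : (1 / 2 : ℝ) ^ L = ((16 : ℝ) ^ (11 * H * (k₁ + 1)))⁻¹ := by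
    rw [hL, one_div, inv_pow, show (16 : ℝ) = 2 ^ 4 by norm_num, ← pow_mul]
    congr 2; ring
  have h3 : (n : ℝ) ^ 2 ≤ (16 : ℝ) ^ (10 * H * (k₁ + 1)) := by
    have h4 : (n : ℝ) ≤ (16 : ℝ) ^ (5 * H * (k₁ + 1)) := by exact_mod_cast hlt.le
    calc (n : ℝ) ^ 2 ≤ ((16 : ℝ) ^ (5 * H * (k₁ + 1))) ^ 2 :=
          pow_le_pow_left₀ (by positivity) h4 2
      _ = (16 : ℝ) ^ (10 * H * (k₁ + 1)) := by
          rw [← pow_mul]; congr 1; ring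
  have h4 : (G : ℝ) ≤ (16 : ℝ) ^ (H * (k₁ + 1)) := by
    rw [hG]; push_cast
    apply pow_le_pow_right₀ (by norm_num)
    exact Nat.mul_le_mul (by omega) (by omega)
  have hn1 : (0 : ℝ) < n := by exact_mod_cast hn0
  calc (G : ℝ) * (1 / 2 : ℝ) ^ ((2 * n / q + 1) / G)
      ≤ (16 : ℝ) ^ (H * (k₁ + 1)) * ((16 : ℝ) ^ (11 * H * (k₁ + 1)))⁻¹ := by
        rw [← h2]; gcongr
    _ = ((16 : ℝ) ^ (10 * H * (k₁ + 1)))⁻¹ := by
        rw [show 11 * H * (k₁ + 1) = H * (k₁ + 1) + 10 * H * (k₁ + 1) by ring, pow_add,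
          mul_inv]
        field_simp
    _ ≤ 1 * ((n : ℝ) ^ 2)⁻¹ := by
        rw [one_mul]
        exact inv_anti₀ (by positivity) h3

/-- The slabs of far apart positions are disjoint. -/
lemma ge_disj (v D : V) (hD : 1 ≤ D.1) {H k₁ iη : ℕ} (hH : 1 ≤ H) (hiη : iη ≤ k₁) {i j : ℕ}
    (hij : i + 16 ^ ((H - 1) * k₁) ≤ j) :
    Disjoint (eS {x : V | (pos v (16 ^ (k₁ - iη)) D i).1 < x.1 ∧
        x.1 < (pos v (16 ^ (k₁ - iη)) D i).1 + 16 ^ (H * k₁ - iη) * (D.1 + 5)})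
      (eS {x : V | (pos v (16 ^ (k₁ - iη)) D j).1 < x.1 ∧
        x.1 < (pos v (16 ^ (k₁ - iη)) D j).1 + 16 ^ (H * k₁ - iη) * (D.1 + 5)}) := by
  rw [Set.disjoint_left]
  rintro e ⟨h1, -⟩ ⟨h2, -⟩
  have h3 := h1.2
  have h4 := h2.1
  simp only [pos] at h3 h4
  obtain ⟨d, rfl⟩ : ∃ d, j = i + 16 ^ ((H - 1) * k₁) + d := ⟨j - (i + 16 ^ ((H - 1) * k₁)), by omega⟩
  have h5 : (16 : ℤ) ^ ((H - 1) * k₁) * 16 ^ (k₁ - iη) = 16 ^ (H * k₁ - iη) := by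
    rw [← pow_add]
    congr 1
    obtain ⟨H', rfl⟩ : ∃ H', H = H' + 1 := ⟨H - 1, by omega⟩
    simp only [Nat.add_sub_cancel]
    have : (H' + 1) * k₁ = H' * k₁ + k₁ := by ring
    omega
  push_cast at h3 h4
  have h6 : (0 : ℤ) ≤ (d : ℤ) * (16 ^ (k₁ - iη) * (D.1 + 5)) := by
    have : (0 : ℤ) ≤ D.1 + 5 := by omega
    positivity
  have h7 : ((i : ℤ) + 16 ^ ((H - 1) * k₁) + d) * (16 ^ (k₁ - iη) * (D.1 + 5)) =
      i * (16 ^ (k₁ - iη) * (D.1 + 5)) + 16 ^ (H * k₁ - iη) * (D.1 + 5) +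
        d * (16 ^ (k₁ - iη) * (D.1 + 5)) := by
    rw [← h5]; ring
  rw [h7] at h4
  linarith

open Classical in
theorem good_events (p : unitInterval) (hp : 1 / 2 < p.1) :
    ∃ C : ℕ, 1 ≤ C ∧ ∀ (b β : ℝ) (i₂ iη J : ℕ) (δ₂ : ℝ), i₂ + 1 ≤ iη → 0 < δ₂ →
      (∀ j₀, J ≤ j₀ → δ₂ ≤ ∑ k ∈ Finset.Icc j₀ (7 * j₀),
        PR p {ω | BR b β (16 ^ (k - i₂)) (sq (0, 0) (8 * 16 ^ k)) ω}) →
      ∀ δ : ℝ, 0 < δ → ∃ H Rc : ℕ, 1 ≤ H ∧ 1 ≤ Rc ∧ ∀ v : V, ∀ᵐ ω ∂(perc p),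
        ∀ᶠ n : ℕ in Filter.atTop, ∃ k₁ r h T : ℕ, ∃ (a D : V) (K : Finset ℕ),
          k₁ = Nat.log (16 ^ (5 * H)) n ∧ r = Rc * (k₁ + 1) ∧ h = 16 ^ (k₁ - iη) ∧
          (∀ k ∈ K, k₁ ≤ k ∧ k ≤ H * k₁) ∧ 1 ≤ D.1 ∧ nrm D ≤ 8 * 16 ^ iη ∧
          T = 2 * n / (h * (D.1 + 5).toNat) + 1 ∧
          Net (Op ω) (box v (32 * 16 ^ iη * n)) r C ∧
          (((Finset.range T).filter
            (fun i => ∀ k ∈ K, ¬ TAk b β i₂ iη a D r k (pos v h D i) ω)).card : ℝ) ≤ δ * T := by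
  obtain ⟨C, c, hC1, hc, hX⟩ := crossing p hp
  refine ⟨C, hC1, ?_⟩
  intro b β i₂ iη J δ₂ hi hδ₂ hBR δ hδ
  obtain ⟨θ', hθ', hTA⟩ := TAk_ge p hp
  obtain ⟨m, hm⟩ : ∃ m : ℕ, 1 ≤ m * δ := by
    obtain ⟨m, hm⟩ := exists_nat_ge (1 / δ)
    refine ⟨m, ?_⟩
    rwa [div_le_iff₀ hδ] at hm
  obtain ⟨H, hH, J', htyp⟩ := types p hi hδ₂ hBR (m * Real.log 4 / θ')
  choose! a D K hK1 hK2 hK3 hK4 hK5 using htyp
  obtain ⟨Rc₀, hRc₀⟩ := exists_nat_ge (20 * H * Real.log 16 / c)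
  set Rc := Rc₀ + 1 with hRc
  have hRc1 : 1 ≤ Rc := by omega
  have hcR : 20 * H * Real.log 16 ≤ c * Rc := by
    rw [div_le_iff₀ hc] at hRc₀
    have : (Rc : ℝ) = Rc₀ + 1 := by rw [hRc]; push_cast; ring
    rw [this]; nlinarith
  refine ⟨H, Rc, hH, hRc1, fun v => ?_⟩
  obtain ⟨K₀, hK₀, hlin⟩ := ge_lin Rc iη
  -- the scale index
  set κ : ℕ → ℕ := fun n => Nat.log (16 ^ (5 * H)) n with hκ
  have hb1 : 1 < 16 ^ (5 * H) := Nat.one_lt_pow (by omega) (by norm_num)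
  set k₀ := max (max J' K₀) 1 with hk₀
  set N₀ := (16 ^ (5 * H)) ^ k₀ with hN₀
  have hκge : ∀ n, N₀ ≤ n → k₀ ≤ κ n := by
    intro n hn
    exact Nat.le_log_of_pow_le hb1 hn
  have hN₀pos : 0 < N₀ := by positivity
  -- the events
  let T : ℕ → ℕ := fun n => 2 * n / (16 ^ (κ n - iη) * ((D (κ n)).1 + 5).toNat) + 1
  let Bd : ℕ → ℕ → Set Cfg := fun n i => {ω | ∀ k ∈ K (κ n),
    ¬ TAk b β i₂ iη (a (κ n)) (D (κ n)) (Rc * (κ n + 1)) k (pos v (16 ^ (κ n - iη)) (D (κ n)) i) ω}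
  let E1 : ℕ → Set Cfg := fun n =>
    {ω | δ * T n < ((@Finset.filter _ (fun i => ω ∈ Bd n i) (fun _ => Classical.propDecidable _)
      (Finset.range (T n))).card : ℝ)}
  let E2 : ℕ → Set Cfg := fun n =>
    {ω | ¬ Net (Op ω) (box v (32 * 16 ^ iη * n)) (Rc * (κ n + 1)) C}
  have key : ∀ n, N₀ ≤ n → 16 ^ (5 * H * κ n) ≤ n ∧ n < 16 ^ (5 * H * (κ n + 1)) := by
    intro n hn
    have hn0 : n ≠ 0 := by omega
    constructor
    · rw [pow_mul]; exact Nat.pow_log_le_self _ hn0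
    · rw [pow_mul]; exact Nat.lt_pow_succ_log_self hb1 n
  have h1 : ∀ᵐ ω ∂(perc p), ∀ᶠ n : ℕ in Filter.atTop, ω ∉ E1 n := by
    refine ge_bc p E1 N₀ 1 fun n hn => ?_
    have hk := hκge n hn
    have hkJ : J' ≤ κ n := by omega
    have hkK : K₀ ≤ κ n := by omega
    have hk1 : 1 ≤ κ n := by omega
    have hki : iη ≤ κ n := by omega
    have hr := hlin (κ n) hkK
    obtain ⟨hge, hlt⟩ := key n hn
    have hG : 1 ≤ 16 ^ ((H - 1) * κ n) := Nat.one_le_pow _ _ (by norm_num)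
    refine (count_bad p (T := T n) hG hδ hm (Bd n) (fun i => eS {x : V |
      (pos v (16 ^ (κ n - iη)) (D (κ n)) i).1 < x.1 ∧
        x.1 < (pos v (16 ^ (κ n - iη)) (D (κ n)) i).1 + 16 ^ (H * κ n - iη) * ((D (κ n)).1 + 5)})
      (fun i => ?_) (fun i => ?_) (fun i j hij => ?_) (fun i _ => ?_)).trans ?_
    · exact dep_bad b β (hK3 _ hkJ) hki hr (hK1 _ hkJ) _
    · exact fd_bad b β i₂ iη _ _ _ _ _
    · exact ge_disj v (D (κ n)) (hK3 _ hkJ) hH hki hij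
    · rw [← ge_exp_log]
      refine bad_prob p (θ' := θ') (hK3 _ hkJ) (hK4 _ hkJ) hki hr
        (fun k hk => (hK1 _ hkJ k hk).1) (hK2 _ hkJ) (fun k _ t => hTA _ _ _ _ _ _ _ _ _) ?_ _
      rw [← Finset.mul_sum]
      have := hK5 _ hkJ
      rw [div_le_iff₀ hθ'] at this
      rw [mul_comm θ']
      exact this
    · exact ge_cnt hH hk1 hki (hK3 _ hkJ) (hK4 _ hkJ) hge hlt
  have h2 : ∀ᵐ ω ∂(perc p), ∀ᶠ n : ℕ in Filter.atTop, ω ∉ E2 n := by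
    refine ge_bc p E2 N₀ (2 * (2 * ((32 * 16 ^ iη : ℕ) : ℝ) + 1) ^ 2 * C) fun n hn => ?_
    obtain ⟨hge, hlt⟩ := key n hn
    exact ge_net p hX v hRc1 hcR (by omega) hlt
  filter_upwards [h1, h2] with ω hω1 hω2
  filter_upwards [hω1, hω2, Filter.eventually_ge_atTop N₀] with n hn1 hn2 hn
  have hk := hκge n hn
  have hkJ : J' ≤ κ n := by omega
  refine ⟨κ n, Rc * (κ n + 1), 16 ^ (κ n - iη), T n, a (κ n), D (κ n), K (κ n), rfl, rfl, rfl,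
    hK1 _ hkJ, hK3 _ hkJ, hK4 _ hkJ, rfl, ?_, ?_⟩
  · by_contra hcon
    exact hn2 hcon
  · by_contra hcon
    apply hn1
    rw [not_le] at hcon
    show δ * T n < _
    refine hcon.trans_le (le_of_eq ?_)
    congr 2
    ext i
    simp only [Finset.mem_filter]
    exact Iff.rfl

end Pool.Agent.SAWP
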