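import Pool.Agent.SAWP.L.LDefs

/-!
# SAWP, case L: the most popular length (module L12; paper 4.5)

`TAk` at `t` gives `s, m` with `gs (Op ω) B b (btw s m) s m ≥ e^{(β/4) w}`, `|B| = 64·16^{2k}`; the paths have `< 64·16^{2k}` steps.  Group
them by their length `ℓ`: some `ℓ` has `N_ℓ e^{-bℓ} ≥ e^{(β/4)w}/(64·16^{2k})`, so `N_ℓ ≥ exp(bℓ + (β/4) w - log(64·16^{2k})) ≥ exp(bℓ + b·68C·h_k)`.
-/

set_option autoImplicit false

namespace Pool.Agent.SAWP

theorem popular {ω : Cfg} {b β : ℝ} {C i₂ iη : ℕ} {a D : V} {r k : ℕ} {t : V}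
    (h : TAk b β i₂ iη a D r k t ω) {ℓmax : ℕ} (hℓ : 64 * 16 ^ (2 * k) ≤ ℓmax)
    (hnum : b * (68 * C) * 16 ^ (k - iη) + Real.log (64 * 16 ^ (2 * k)) ≤
      β / 4 * 16 ^ (k - i₂)) :
    BrAt ω b C r D ℓmax t (16 ^ (k - iη)) := by
  classical
  unfold TAk TA at h
  obtain ⟨s, hsB, m, hmB, hs, hm, hw, hgs, hR, hL⟩ := h
  set B := sq (t.1 + 2 * 16 ^ (k - iη) - 16 ^ (k - iη) * a.1, t.2 - 16 ^ (k - iη) * a.2)
    (8 * 16 ^ k) with hB
  obtain ⟨M, hM⟩ : ∃ M : ℕ, M = 64 * 16 ^ (2 * k) := ⟨_, rfl⟩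
  have hcard : B.card = M := by
    rw [hB, sq_card, hM, pow_mul']
    ring
  have hMpos : 0 < M := by rw [hM]; positivity
  have hMr : (0 : ℝ) < M := by exact_mod_cast hMpos
  -- the lengths
  have hlen : ∀ l ∈ (saws (Op ω) B s m).filter (btw s m), len l < M := by
    intro l hl
    rw [Finset.mem_filter, mem_saws] at hl
    have h1 : l.toFinset ⊆ B := fun z hz => hl.1.2 z (List.mem_toFinset.1 hz)
    have h2 := Finset.card_le_card h1
    rw [List.toFinset_card_of_nodup hl.1.1.2, hcard] at h2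
    have h3 := List.length_pos_iff.2 hl.1.1.1.ne_nil
    unfold len
    omega
  -- grouping
  obtain ⟨ℓ, hℓM, hN⟩ : ∃ ℓ < M, Real.exp (β / 4 * 16 ^ (k - i₂)) / M ≤
      ((((saws (Op ω) B s m).filter (btw s m)).filter fun l => len l = ℓ).card : ℝ) *
        Real.exp (-(b * ℓ)) := by
    by_contra hcon
    push Not at hcon
    have h1 : gs (Op ω) B b (btw s m) s m = ∑ ℓ ∈ Finset.range M,
        ((((saws (Op ω) B s m).filter (btw s m)).filter fun l => len l = ℓ).card : ℝ) *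
        Real.exp (-(b * ℓ)) := by
      unfold gs
      rw [← Finset.sum_fiberwise_of_maps_to (t := Finset.range M) (g := fun l => len l)
        (fun l hl => Finset.mem_range.2 (hlen l hl))]
      refine Finset.sum_congr rfl fun ℓ _ => ?_
      rw [Finset.sum_congr rfl (g := fun _ => Real.exp (-(b * (ℓ : ℝ))))]
      · rw [Finset.sum_const, nsmul_eq_mul]
      · intro l hl
        rw [(Finset.mem_filter.1 hl).2]
    have h2 : gs (Op ω) B b (btw s m) s m < ∑ ℓ ∈ Finset.range M,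
        Real.exp (β / 4 * 16 ^ (k - i₂)) / M := by
      rw [h1]
      refine Finset.sum_lt_sum_of_nonempty ⟨0, Finset.mem_range.2 hMpos⟩ fun ℓ hl => ?_
      exact hcon ℓ (Finset.mem_range.1 hl)
    rw [Finset.sum_const, Finset.card_range, nsmul_eq_mul, mul_div_cancel₀ _ hMr.ne'] at h2
    push_cast at hgs
    exact absurd hgs (not_le.2 h2)
  have hcast : ((16 ^ (k - iη) : ℕ) : ℤ) = 16 ^ (k - iη) := by push_cast; rfl
  unfold BrAt
  rw [hcast]
  refine ⟨s, hs, m, hm, ?_, hR, hL, ℓ, by omega,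
    ((saws (Op ω) B s m).filter (btw s m)).filter fun l => len l = ℓ, ?_, ?_⟩
  · have : (0 : ℤ) < ((16 ^ (k - i₂) : ℕ) : ℤ) := by positivity
    omega
  · intro l hl
    rw [Finset.mem_filter, Finset.mem_filter, mem_saws] at hl
    exact ⟨hl.1.1.1, hl.2, hl.1.2⟩
  · have h3 : Real.exp (β / 4 * 16 ^ (k - i₂)) / M * Real.exp (b * ℓ) ≤
        ((((saws (Op ω) B s m).filter (btw s m)).filter fun l => len l = ℓ).card : ℝ) := by
      have h4 := mul_le_mul_of_nonneg_right hN (Real.exp_pos (b * ℓ)).le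
      rw [mul_assoc, ← Real.exp_add, neg_add_cancel, Real.exp_zero, mul_one] at h4
      exact h4
    refine le_trans ?_ h3
    have h5 : (M : ℝ) = Real.exp (Real.log (64 * 16 ^ (2 * k))) := by
      rw [Real.exp_log (by positivity), hM]
      push_cast
      rfl
    rw [h5, ← Real.exp_sub, ← Real.exp_add]
    apply Real.exp_le_exp.2
    push_cast
    linarith

end Pool.Agent.SAWP
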