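import Pool.Agent.SAWP.L.BridgeSum
import Pool.Agent.SAWP.L.GoodEvents
import Pool.Agent.SAWP.L.Popular
import Pool.Agent.SAWP.L.Chain

/-!
# SAWP, case L: assembly (module L17; paper 4.4-4.5)

Given `ε > 0`.  `δ₂` from `bridge_sum`; `C` from `good_events`.  Choose `iη ≥ i₂+1` with `b·68C·16^{i₂}·16 ≤ β·16^{iη}`... precisely so that for large `k`
`b·68C·16^{k-iη} + log(64·16^{2k}) ≤ (β/4)16^{k-i₂}` (e.g. `b·68C·16^{i₂} ≤ (β/8) 16^{iη}`), then `δ ≤ 1/4` with `b·3C·(8·16^{iη}+5)·δ ≤ ε/8` or so, then `H, Rc` from `good_events`.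
For fixed `v` with infinite cluster and `n` large: `k₁ → ∞`, `r = Rc(k₁+1)`, `h = 16^{k₁-iη} ≥ r², 3r+2`; `qmax = 16^{Hk₁-k₁}`, `h qmax = 16^{Hk₁-iη} ≤ n^{1/5}`,
`ℓmax = 64·16^{2Hk₁} ≤ 64 n^{2/5}`; `bad` = the filter; for `i ∉ bad`: `popular` gives `BrAt … (16^{k-iη})`, `16^{k-iη} = h q`, `q = 16^{k-k₁}`.
`T h (D₁+5) ≥ 2n`, `|bad| ≤ T/4`: `(T-|bad|) h (D₁+5) - 3 h qmax ≥ (3/2) n - 3n^{1/5} > n`.  `T h (nrm D+5) ≤ (2n/(D₁+5) + h)(nrm D + 5)`, so `hN` holds with `N = 32·16^{iη} n`.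
`chain`: `sig ≥ exp(b n - b(59C n^{1/5} + 64 n^{2/5}) - b·3C·(nrm D+5)·h·δT)`, `hT ≤ 2n/6 + h + 1 ≤ n`: `≥ exp((b-ε)n)`.
An infinite cluster contains vertices at arbitrarily large distance.  `LB` asks for all `ε`: use `ε = 1/j` and countable intersections (or note that the bad
set for `ε` is increasing as `ε ↓ 0`).
-/

set_option autoImplicit false

open MeasureTheory

namespace Pool.Agent.SAWP

/-- an infinite cluster contains far vertices -/
theorem InfCl.exists_far {ω : Cfg} {v : V} (h : InfCl ω v) (R : ℕ) :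
    ∃ w, Conn (Op ω) v w ∧ R < nrm (w - v) := by
  by_contra hcon
  push Not at hcon
  apply h
  refine Set.Finite.subset (Finset.finite_toSet (rect (v.1 - R) (v.1 + R) (v.2 - R) (v.2 + R))) ?_
  intro w hw
  have h1 := hcon w hw
  simp only [nrm, Prod.fst_sub, Prod.snd_sub] at h1
  simp only [rect, Finset.coe_product, Finset.coe_Icc, Set.mem_prod, Set.mem_Icc]
  omega

open Classical in
/-- the deterministic part of the assembly -/
theorem caseL_step {ω : Cfg} {b β ε δ : ℝ} (hb : 0 ≤ b) (hδ4 : δ ≤ 1 / 4)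
    {C i₂ iη H Rc : ℕ} (hC : 1 ≤ C) (hH : 1 ≤ H) (hRc : 1 ≤ Rc)
    (hδε : b * (3 * C) * (8 * 16 ^ iη + 5) * δ ≤ ε / 2) (hδ : 0 ≤ δ)
    {v : V} (hv : InfCl ω v) {n k₁ r h T : ℕ} {a D : V} {K : Finset ℕ}
    (hk₁ : k₁ = Nat.log (16 ^ (5 * H)) n) (hrdef : r = Rc * (k₁ + 1)) (hhdef : h = 16 ^ (k₁ - iη))
    (hK : ∀ k ∈ K, k₁ ≤ k ∧ k ≤ H * k₁) (hD : 1 ≤ D.1) (hD' : nrm D ≤ 8 * 16 ^ iη)
    (hT : T = 2 * n / (h * (D.1 + 5).toNat) + 1) (hnet : Net (Op ω) (box v (32 * 16 ^ iη * n)) r C)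
    (hbad : (((Finset.range T).filter
      (fun i => ∀ k ∈ K, ¬ TAk b β i₂ iη a D r k (pos v h D i) ω)).card : ℝ) ≤ δ * T)
    (E0 : 1 ≤ k₁) (E1 : iη ≤ k₁) (E2 : 3 * (Rc * (k₁ + 1)) + 2 ≤ 16 ^ (k₁ - iη))
    (E3 : (Rc * (k₁ + 1)) ^ 2 ≤ 16 ^ (k₁ - iη))
    (E4 : ∀ k, k₁ ≤ k → b * (68 * C) * 16 ^ (k - iη) + Real.log (64 * 16 ^ (2 * k)) ≤
      β / 4 * 16 ^ (k - i₂))
    (E6 : b * (59 * C + 64) ≤ ε / 2 * 16 ^ (3 * H * k₁)) :
    Real.exp ((b - ε) * n) ≤ (sig ω v n : ℝ) := by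
  classical
  have hn0 : n ≠ 0 := by
    rintro rfl
    rw [Nat.log_zero_right] at hk₁
    omega
  set X := 16 ^ (H * k₁) with hX
  have hX5 : X ^ 5 ≤ n := by
    have h1 := Nat.pow_log_le_self (16 ^ (5 * H)) hn0
    rw [← hk₁] at h1
    calc X ^ 5 = (16 ^ (5 * H)) ^ k₁ := by rw [hX, ← pow_mul, ← pow_mul]; congr 1; ring
      _ ≤ n := h1
  have hHk : 1 ≤ H * k₁ := Nat.mul_pos hH E0
  have hX16 : 16 ≤ X := by
    calc 16 = 16 ^ 1 := (pow_one _).symm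
      _ ≤ X := Nat.pow_le_pow_right (by norm_num) hHk
  have hX100 : 100 * X ≤ n := by
    refine le_trans ?_ hX5
    have : 100 ≤ X ^ 4 := by
      calc 100 ≤ 16 ^ 4 := by norm_num
        _ ≤ X ^ 4 := Nat.pow_le_pow_left hX16 4
    calc 100 * X ≤ X ^ 4 * X := Nat.mul_le_mul_right _ this
      _ = X ^ 5 := by ring
  set qmax := 16 ^ (H * k₁ - k₁) with hqmax
  have hHk1 : k₁ ≤ H * k₁ := Nat.le_mul_of_pos_left _ hH
  have hhq : h * qmax ≤ X := by
    rw [hhdef, hqmax, hX, ← pow_add]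
    exact Nat.pow_le_pow_right (by norm_num) (by omega)
  have hh1 : 1 ≤ h := by rw [hhdef]; exact Nat.one_le_pow _ _ (by norm_num)
  have hq1 : 1 ≤ qmax := Nat.one_le_pow _ _ (by norm_num)
  have hhX : h ≤ X := le_trans (Nat.le_mul_of_pos_right _ hq1) hhq
  set Y := 16 ^ iη with hY
  have hY1 : 1 ≤ Y := Nat.one_le_pow _ _ (by norm_num)
  set d := (D.1 + 5).toNat with hd
  have hdD : (d : ℤ) = D.1 + 5 := by rw [hd]; omega
  have hd6 : 6 ≤ d := by omega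
  have hhd : 0 < h * d := Nat.mul_pos hh1 (by omega)
  have hT1 : 2 * n < T * (h * d) := by
    rw [hT]
    exact (Nat.lt_mul_of_div_lt (Nat.lt_succ_self _) hhd).trans_eq
      (by rw [Nat.succ_eq_add_one])
  have hT2 : T * (h * d) ≤ 2 * n + h * d := by
    rw [hT, add_mul, one_mul]
    exact Nat.add_le_add_right (Nat.div_mul_le_self _ _) _
  -- `3 h T ≤ n + 3 h`
  have hT3 : 3 * (T * h) ≤ n + 3 * h := by
    have h1 : (T - 1) * (h * d) ≤ 2 * n := by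
      rw [hT, Nat.add_sub_cancel]; exact Nat.div_mul_le_self _ _
    have h2 : (T - 1) * (h * 6) ≤ 2 * n := le_trans (Nat.mul_le_mul_left _
      (Nat.mul_le_mul_left _ hd6)) h1
    have h3 : 1 ≤ T := by rw [hT]; exact Nat.le_add_left 1 _
    obtain ⟨T', rfl⟩ : ∃ T', T = T' + 1 := ⟨T - 1, by omega⟩
    rw [Nat.add_sub_cancel] at h2
    have h4 : (T' + 1) * h = T' * h + h := by ring
    have h5 : T' * (h * 6) = 6 * (T' * h) := by ring
    omega
  set bad := (Finset.range T).filter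
    (fun i => ∀ k ∈ K, ¬ TAk b β i₂ iη a D r k (pos v h D i) ω) with hbadd
  set ℓmax := 64 * 16 ^ (2 * (H * k₁)) with hℓ
  have hℓX : ℓmax = 64 * X ^ 2 := by rw [hℓ, hX, ← pow_mul]; congr 2; ring
  have hgood : ∀ i, i < T → i ∉ bad → ∃ q, 1 ≤ q ∧ q ≤ qmax ∧
      BrAt ω b C r D ℓmax (pos v h D i) (h * q) := by
    intro i hi hib
    rw [hbadd, Finset.mem_filter, not_and] at hib
    have h1 := hib (Finset.mem_range.2 hi)
    push Not at h1
    obtain ⟨k, hkK, hk⟩ := h1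
    obtain ⟨hk1, hk2⟩ := hK k hkK
    refine ⟨16 ^ (k - k₁), Nat.one_le_pow _ _ (by norm_num),
      Nat.pow_le_pow_right (by norm_num) (by omega), ?_⟩
    have h2 := popular (C := C) (ℓmax := ℓmax) hk (by
      rw [hℓ]
      exact Nat.mul_le_mul_left _ (Nat.pow_le_pow_right (by norm_num) (by omega))) (E4 k hk1)
    have h3 : h * 16 ^ (k - k₁) = 16 ^ (k - iη) := by
      rw [hhdef, ← pow_add]; congr 1; omega
    rw [h3]
    exact h2
  have hr1 : 1 ≤ r := by rw [hrdef]; exact Nat.mul_pos hRc (by omega)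
  have hrh : 3 * r + 2 ≤ h := by rw [hrdef, hhdef]; exact E2
  have hrh' : r ^ 2 ≤ h := by rw [hrdef, hhdef]; exact E3
  have hN : (T + qmax + 1) * (h * (nrm D + 5)) + 4 * (h * qmax) + 3 * r ≤
      32 * Y * n := by
    have h1 : 3 * ((T + qmax + 1) * h) ≤ n + 9 * X := by
      have h2 : 3 * ((T + qmax + 1) * h) = 3 * (T * h) + 3 * (h * qmax) + 3 * h := by ring
      rw [h2]; omega
    have h2 : nrm D + 5 ≤ 13 * Y := by omega
    set S := (T + qmax + 1) * h with hS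
    have h3 : (T + qmax + 1) * (h * (nrm D + 5)) ≤ S * (13 * Y) := by
      rw [← mul_assoc, ← hS]; exact Nat.mul_le_mul_left _ h2
    have h4 : 300 * S ≤ 109 * n := by omega
    have h5 : 300 * (S * (13 * Y)) ≤ 1417 * (n * Y) := by
      calc 300 * (S * (13 * Y)) = (300 * S) * (13 * Y) := by ring
        _ ≤ (109 * n) * (13 * Y) := Nat.mul_le_mul_right _ h4
        _ = 1417 * (n * Y) := by ring
    have h6 : n ≤ n * Y := Nat.le_mul_of_pos_right _ hY1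
    have h7 : 32 * Y * n = 32 * (n * Y) := by ring
    rw [h7]
    omega
  have hTr : (0 : ℝ) ≤ T := Nat.cast_nonneg _
  have hnX : (100 : ℝ) * X ≤ n := by exact_mod_cast hX100
  have hhqr : (h : ℝ) * qmax ≤ X := by exact_mod_cast hhq
  have hDr : ((D.1 : ℤ) : ℝ) + 5 = d := by
    have : ((d : ℤ) : ℝ) = ((D.1 + 5 : ℤ) : ℝ) := by rw [hdD]
    push_cast at this
    linarith
  have hhdr : (0 : ℝ) ≤ h * d := by positivity
  have hT1r : (2 : ℝ) * n < T * (h * d) := by exact_mod_cast hT1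
  have hXr : (1 : ℝ) ≤ X := by
    have : 1 ≤ X := by omega
    exact_mod_cast this
  have hnT : (n : ℝ) < (T - bad.card) * (h * ((D.1 : ℝ) + 5)) - 3 * (h * qmax) := by
    rw [hDr]
    have h1 : (3 / 4 : ℝ) * T ≤ T - bad.card := by
      have : (bad.card : ℝ) ≤ 1 / 4 * T := hbad.trans (mul_le_mul_of_nonneg_right hδ4 hTr)
      linarith
    have h2 : (3 / 4 : ℝ) * T * (h * d) ≤ (T - bad.card) * (h * d) :=
      mul_le_mul_of_nonneg_right h1 hhdr
    have h3 : (3 / 4 : ℝ) * T * (h * d) = 3 / 4 * (T * (h * d)) := by ring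
    nlinarith
  have hmain := chain (ω := ω) hb hC hr1 hrh hrh' hnet (hv.exists_far (2 * r)) hD
    (ℓmax := ℓmax) (qmax := qmax) (T := T) (N := 32 * Y * n) (bad := bad) hgood (le_refl _) hN hnT
  refine le_trans (Real.exp_le_exp.2 ?_) hmain
  -- the exponents
  have hx1 : b * (59 * C * (h * qmax) + ℓmax) ≤ ε / 2 * n := by
    have h1 : (ℓmax : ℝ) = 64 * (X : ℝ) ^ 2 := by exact_mod_cast hℓX
    have h2 : (59 : ℝ) * C * (h * qmax) ≤ 59 * C * X ^ 2 := by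
      have h3 : (h : ℝ) * qmax ≤ (X : ℝ) ^ 2 := by
        calc (h : ℝ) * qmax ≤ X := hhqr
          _ = X * 1 := (mul_one _).symm
          _ ≤ X * X := by gcongr
          _ = (X : ℝ) ^ 2 := by ring
      exact mul_le_mul_of_nonneg_left h3 (by positivity)
    have h4 : b * (59 * C * (h * qmax) + ℓmax) ≤ b * (59 * C + 64) * (X : ℝ) ^ 2 := by
      rw [h1]
      calc b * (59 * C * (h * qmax) + 64 * (X : ℝ) ^ 2)
          ≤ b * (59 * C * X ^ 2 + 64 * (X : ℝ) ^ 2) := by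
            apply mul_le_mul_of_nonneg_left _ hb
            linarith
        _ = _ := by ring
    have h5 : ((16 : ℝ) ^ (3 * H * k₁)) * (X : ℝ) ^ 2 = (X : ℝ) ^ 5 := by
      rw [hX]; push_cast
      rw [← pow_mul, ← pow_mul, ← pow_add]
      congr 1; ring
    have h6 : (X : ℝ) ^ 5 ≤ n := by exact_mod_cast hX5
    have hε : 0 ≤ ε / 2 := by
      have h7 : 0 ≤ b * (59 * C + 64) := by positivity
      by_contra hneg
      rw [not_le] at hneg
      have h8 : ε / 2 * 16 ^ (3 * H * k₁) < 0 := mul_neg_of_neg_of_pos hneg (by positivity)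
      linarith
    calc b * (59 * C * (h * qmax) + ℓmax) ≤ b * (59 * C + 64) * (X : ℝ) ^ 2 := h4
      _ ≤ (ε / 2 * 16 ^ (3 * H * k₁)) * (X : ℝ) ^ 2 :=
        mul_le_mul_of_nonneg_right E6 (by positivity)
      _ = ε / 2 * (X : ℝ) ^ 5 := by rw [mul_assoc, h5]
      _ ≤ ε / 2 * n := mul_le_mul_of_nonneg_left h6 hε
  have hx2 : b * (3 * C * (h * (nrm D + 5)) * bad.card) ≤ ε / 2 * n := by
    have h1 : (h : ℝ) * T ≤ n := by
      have h2 : T * h ≤ n := by omega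
      have : ((T * h : ℕ) : ℝ) ≤ n := by exact_mod_cast h2
      push_cast at this
      linarith
    have h2 : (nrm D : ℝ) + 5 ≤ 8 * 16 ^ iη + 5 := by
      have : ((nrm D : ℕ) : ℝ) ≤ ((8 * 16 ^ iη : ℕ) : ℝ) := by exact_mod_cast hD'
      push_cast at this
      linarith
    have h3 : (h : ℝ) * bad.card ≤ δ * n := by
      calc (h : ℝ) * bad.card ≤ h * (δ * T) := mul_le_mul_of_nonneg_left hbad (by positivity)
        _ = δ * (h * T) := by ring
        _ ≤ δ * n := mul_le_mul_of_nonneg_left h1 hδ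
    calc b * (3 * C * (h * (nrm D + 5)) * bad.card)
        = b * (3 * C) * ((nrm D : ℝ) + 5) * (h * bad.card) := by ring
      _ ≤ b * (3 * C) * ((nrm D : ℝ) + 5) * (δ * n) :=
        mul_le_mul_of_nonneg_left h3 (by positivity)
      _ ≤ b * (3 * C) * (8 * 16 ^ iη + 5) * (δ * n) := by
        apply mul_le_mul_of_nonneg_right _ (by positivity)
        exact mul_le_mul_of_nonneg_left h2 (by positivity)
      _ = (b * (3 * C) * (8 * 16 ^ iη + 5) * δ) * n := by ring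
      _ ≤ ε / 2 * n := mul_le_mul_of_nonneg_right hδε (by positivity)
  have e : (b - ε) * (n : ℝ) = b * n - ε / 2 * n - ε / 2 * n := by ring
  rw [e]
  linarith

/-- powers grow faster than squares -/
theorem eventually_sq_le {c : ℝ} (hc : 0 < c) :
    ∀ᶠ k : ℕ in Filter.atTop, (k : ℝ) ^ 2 ≤ c * 16 ^ k := by
  have h := tendsto_pow_const_div_const_pow_of_one_lt 2 (by norm_num : (1 : ℝ) < 16)
  have h1 := h.eventually (gt_mem_nhds hc)
  filter_upwards [h1] with k hk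
  have h2 : (0 : ℝ) < 16 ^ k := by positivity
  exact ((div_lt_iff₀ h2).1 hk).le

/-- the conditions on the scale `k₁` hold eventually -/
theorem eventually_scale {b β ε : ℝ} (hβ : 0 < β) (hε : 0 < ε) {C i₂ g H Rc : ℕ}
    (hH : 1 ≤ H) (hRc : 1 ≤ Rc) (hg : b * (68 * C) ≤ β / 8 * 16 ^ g) :
    ∀ᶠ k₁ : ℕ in Filter.atTop, 1 ≤ k₁ ∧ i₂ + 1 + g ≤ k₁ ∧
      3 * (Rc * (k₁ + 1)) + 2 ≤ 16 ^ (k₁ - (i₂ + 1 + g)) ∧
      (Rc * (k₁ + 1)) ^ 2 ≤ 16 ^ (k₁ - (i₂ + 1 + g)) ∧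
      (∀ k, k₁ ≤ k → b * (68 * C) * 16 ^ (k - (i₂ + 1 + g)) + Real.log (64 * 16 ^ (2 * k)) ≤
        β / 4 * 16 ^ (k - i₂)) ∧
      b * (59 * C + 64) ≤ ε / 2 * 16 ^ (3 * H * k₁) := by
  set iη := i₂ + 1 + g with hiη
  have hpos : ∀ m : ℕ, (0 : ℝ) < 16 ^ m := fun m => by positivity
  have hRc0 : (0 : ℝ) < Rc := by exact_mod_cast hRc
  -- logarithms
  have hlog : ∀ᶠ k : ℕ in Filter.atTop, b * (68 * C) * 16 ^ (k - iη) +
      Real.log (64 * 16 ^ (2 * k)) ≤ β / 4 * 16 ^ (k - i₂) := by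
    have hc : (0 : ℝ) < β / 8 / 96 / 16 ^ i₂ := by positivity
    filter_upwards [eventually_sq_le hc, Filter.eventually_ge_atTop iη,
      Filter.eventually_ge_atTop 1] with k hk hki hk1
    have hk1r : (1 : ℝ) ≤ k := by exact_mod_cast hk1
    have e1 : (16 : ℝ) ^ (k - i₂) = 16 ^ (k - iη) * (16 * 16 ^ g) := by
      rw [← pow_succ', ← pow_add]; congr 1; omega
    have e2 : (16 : ℝ) ^ k = 16 ^ (k - i₂) * 16 ^ i₂ := by
      rw [← pow_add]; congr 1; omega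
    have h1 : b * (68 * C) * 16 ^ (k - iη) ≤ β / 8 * 16 ^ (k - i₂) := by
      calc b * (68 * C) * 16 ^ (k - iη) ≤ (β / 8 * 16 ^ g) * 16 ^ (k - iη) :=
          mul_le_mul_of_nonneg_right hg (hpos _).le
        _ ≤ (β / 8 * 16 ^ g) * 16 ^ (k - iη) * 16 := by
          have : (0 : ℝ) ≤ (β / 8 * 16 ^ g) * 16 ^ (k - iη) := by positivity
          linarith
        _ = β / 8 * 16 ^ (k - i₂) := by rw [e1]; ring
    have h2 : Real.log (64 * 16 ^ (2 * k)) ≤ 96 * (k : ℝ) ^ 2 := by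
      rw [Real.log_mul (by norm_num) (hpos _).ne', Real.log_pow]
      have h3 : Real.log 64 ≤ 64 := Real.log_le_self (by norm_num)
      have h4 : Real.log 16 ≤ 16 := Real.log_le_self (by norm_num)
      have h5 : ((2 * k : ℕ) : ℝ) * Real.log 16 ≤ ((2 * k : ℕ) : ℝ) * 16 :=
        mul_le_mul_of_nonneg_left h4 (by positivity)
      push_cast at h5 ⊢
      nlinarith
    have h3 : 96 * (k : ℝ) ^ 2 ≤ β / 8 * 16 ^ (k - i₂) := by
      rw [e2] at hk
      have h4 : β / 8 / 96 / 16 ^ i₂ * (16 ^ (k - i₂) * 16 ^ i₂) = β / 8 / 96 * 16 ^ (k - i₂) := by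
        have := (hpos i₂).ne'
        field_simp
      rw [h4] at hk
      linarith
    linarith
  obtain ⟨k₀, hk₀⟩ := Filter.eventually_atTop.1 hlog
  -- the sizes of `r`
  have hc1 : (0 : ℝ) < 1 / (8 * (Rc : ℝ) ^ 2) / 16 ^ iη := by positivity
  have hE6 : ∀ᶠ k : ℕ in Filter.atTop, b * (59 * C + 64) ≤ ε / 2 * 16 ^ k := by
    have h1 : Filter.Tendsto (fun k : ℕ => ε / 2 * (16 : ℝ) ^ k) Filter.atTop Filter.atTop :=
      (tendsto_pow_atTop_atTop_of_one_lt (by norm_num)).const_mul_atTop (by positivity)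
    exact h1.eventually (Filter.eventually_ge_atTop _)
  filter_upwards [Filter.eventually_ge_atTop 1, Filter.eventually_ge_atTop iη,
    Filter.eventually_ge_atTop k₀, eventually_sq_le hc1, hE6] with k hk1 hki hkk hsq hk6
  have hk1r : (1 : ℝ) ≤ k := by exact_mod_cast hk1
  have hRc1 : (1 : ℝ) ≤ Rc := by exact_mod_cast hRc
  have e2 : (16 : ℝ) ^ k = 16 ^ (k - iη) * 16 ^ iη := by
    rw [← pow_add]; congr 1; omega
  have hsq' : 8 * (Rc : ℝ) ^ 2 * (k : ℝ) ^ 2 ≤ 16 ^ (k - iη) := by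
    rw [e2] at hsq
    have h4 : 1 / (8 * (Rc : ℝ) ^ 2) / 16 ^ iη * (16 ^ (k - iη) * 16 ^ iη) =
        16 ^ (k - iη) / (8 * (Rc : ℝ) ^ 2) := by
      have := (hpos iη).ne'
      field_simp
    rw [h4, le_div_iff₀ (by positivity)] at hsq
    linarith
  have hsqN : 8 * Rc ^ 2 * k ^ 2 ≤ 16 ^ (k - iη) := by exact_mod_cast hsq'
  refine ⟨hk1, hki, ?_, ?_, ?_, ?_⟩
  · refine le_trans ?_ hsqN
    have h1 : 1 ≤ Rc * k := Nat.mul_pos hRc hk1
    have h2 : 3 * (Rc * (k + 1)) + 2 ≤ 8 * (Rc * k) := by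
      have : Rc ≤ Rc * k := Nat.le_mul_of_pos_right _ hk1
      have e : 3 * (Rc * (k + 1)) = 3 * (Rc * k) + 3 * Rc := by ring
      omega
    refine h2.trans ?_
    have e : 8 * Rc ^ 2 * k ^ 2 = 8 * (Rc * k) * (Rc * k) := by ring
    rw [e]
    exact Nat.le_mul_of_pos_right _ h1
  · refine le_trans ?_ hsqN
    have h2 : k + 1 ≤ 2 * k := by omega
    calc (Rc * (k + 1)) ^ 2 ≤ (Rc * (2 * k)) ^ 2 :=
        Nat.pow_le_pow_left (Nat.mul_le_mul_left _ h2) 2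
      _ = 4 * Rc ^ 2 * k ^ 2 := by ring
      _ ≤ 8 * Rc ^ 2 * k ^ 2 := by
        apply Nat.mul_le_mul_right
        omega
  · intro k' hk'
    exact hk₀ k' (le_trans hkk hk')
  · refine hk6.trans ?_
    apply mul_le_mul_of_nonneg_left _ (by positivity)
    apply pow_le_pow_right₀ (by norm_num)
    calc k = 1 * k := (one_mul k).symm
      _ ≤ (3 * H) * k := Nat.mul_le_mul_right _ (by omega)

theorem caseL (p : unitInterval) (hp : 1 / 2 < p.1) :
    ∃ C' : ℝ, 1 ≤ C' ∧ ∀ (b β A₀ : ℝ) (i₂ : ℕ), 0 ≤ b → 0 < β → C' * b + β / 4 + 1 ≤ A₀ →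
      (∃ J : ℕ, ∀ j₀, J ≤ j₀ → delta1 < ∑ k ∈ Finset.Icc j₀ (7 * j₀), rho p b β A₀ i₂ k) →
      LB p b := by
  classical
  obtain ⟨C', hC', hbs⟩ := bridge_sum p hp
  obtain ⟨C, hC, hge⟩ := good_events p hp
  refine ⟨C', hC', ?_⟩
  intro b β A₀ i₂ hb hβ hA hJ
  obtain ⟨δ₂, hδ₂, J, hJ'⟩ := hbs b β A₀ i₂ hb hβ hA hJ
  obtain ⟨g, hg⟩ : ∃ g : ℕ, b * (68 * C) ≤ β / 8 * 16 ^ g := by
    have h1 : Filter.Tendsto (fun k : ℕ => β / 8 * (16 : ℝ) ^ k) Filter.atTop Filter.atTop :=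
      (tendsto_pow_atTop_atTop_of_one_lt (by norm_num)).const_mul_atTop (by positivity)
    exact (h1.eventually (Filter.eventually_ge_atTop _)).exists
  have key : ∀ ε : ℝ, 0 < ε → ∀ v : V, ∀ᵐ ω ∂(perc p), InfCl ω v →
      ∀ᶠ n : ℕ in Filter.atTop, Real.exp ((b - ε) * n) ≤ (sig ω v n : ℝ) := by
    intro ε hε v
    set A : ℝ := b * (3 * C) * (8 * 16 ^ (i₂ + 1 + g) + 5) with hAdef
    have hA0 : 0 ≤ A := by positivity
    set δ : ℝ := min (1 / 4) (ε / (2 * (A + 1))) with hδdef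
    have hδ : 0 < δ := lt_min (by norm_num) (by positivity)
    have hδ4 : δ ≤ 1 / 4 := min_le_left _ _
    have hδε : A * δ ≤ ε / 2 := by
      calc A * δ ≤ A * (ε / (2 * (A + 1))) := mul_le_mul_of_nonneg_left (min_le_right _ _) hA0
        _ ≤ (A + 1) * (ε / (2 * (A + 1))) := by
          apply mul_le_mul_of_nonneg_right (by linarith) (by positivity)
        _ = ε / 2 := by
          have : A + 1 ≠ 0 := by positivity
          field_simp
    obtain ⟨H, Rc, hH, hRc, hHv⟩ := hge b β i₂ (i₂ + 1 + g) J δ₂ (by omega) hδ₂ hJ' δ hδ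
    filter_upwards [hHv v] with ω hω hinf
    obtain ⟨κ, hκ⟩ := Filter.eventually_atTop.1
      (eventually_scale (i₂ := i₂) hβ hε hH hRc hg)
    filter_upwards [hω, Filter.eventually_ge_atTop ((16 ^ (5 * H)) ^ κ)] with n hn hnκ
    obtain ⟨k₁, r, h, T, a, D, K, h1, h2, h3, h4, h5, h6, h7, h8, h9⟩ := hn
    have hk : κ ≤ k₁ := by
      rw [h1]
      refine Nat.le_log_of_pow_le ?_ hnκ
      calc 1 < 16 ^ 1 := by norm_num
        _ ≤ 16 ^ (5 * H) := Nat.pow_le_pow_right (by norm_num) (by omega)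
    obtain ⟨E0, E1, E2, E3, E4, E6⟩ := hκ k₁ hk
    exact caseL_step hb hδ4 hC hH hRc hδε hδ.le hinf h1 h2 h3 h4 h5 h6 h7 h8 h9 E0 E1 E2 E3 E4 E6
  have h2 := ae_all_iff.2 (fun v : V => ae_all_iff.2
    (fun j : ℕ => key (1 / ((j : ℝ) + 1)) (by positivity) v))
  unfold LB
  filter_upwards [h2] with ω hω v hv ε hε
  obtain ⟨j, hj⟩ := exists_nat_one_div_lt hε
  filter_upwards [hω v j hv] with n hn
  refine le_trans (Real.exp_le_exp.2 ?_) hn
  exact mul_le_mul_of_nonneg_right (by linarith) (Nat.cast_nonneg n)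

end Pool.Agent.SAWP
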