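import Pool.Agent.SAWP.L.Travel

/-!
# SAWP, case L: arms meet the network (module L2; paper 4.0 ARM LEMMA)

`ne_arm_hit`: the arm from `z` ends on the top or right side of `z+[0,3r]²`. If on the top side, it meets the crossing of `H(z+(0,2r))`
(`cross_meet`: rows `z₂+2r..z₂+3r`, columns `z₁..z₁+3r`). If on the right side it meets the crossing of `Vt(z+(2r,0))`, which meets the crossing of
`H(z+(0,2r))` (`h_cross_v`).  The arm is a path in a box with `(3r+1)²` vertices.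
`nw_arm_hit`: mirror image with `H(z+(-3r,2r))`, `Vt(z+(-3r,0))`.
`start_hit`: `v` is joined to some `w` with `nrm (w-v) > 2r`.  Take the path up to its first vertex on the boundary of `v+[-r,2r]²`.
top: meets `H(v+(-r,r))`; right: meets `Vt(v+(r,-r))`, which meets `H(v+(-r,r))`; left: meets `Vt(v+(-r,-r))`, which meets `H(v+(-r,r))`;
bottom: meets `H(v+(-r,-r))`, which meets `Vt(v+(-r,-r))`, which meets `H(v+(-r,r))`.
-/

set_option autoImplicit false

namespace Pool.Agent.SAWP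

namespace ArmX

/-- The part of a walk between two of its vertices. -/
lemma sub_walk {O : Set Edge} {a b : V} {l : List V} (h : IsW O a b l) {u v : V} (hu : u ∈ l)
    (hv : v ∈ l) : ∃ l', IsW O u v l' ∧ (∀ z ∈ l', z ∈ l) ∧ len l' ≤ len l := by
  obtain ⟨l₁, l₂, h1, h2, rfl⟩ := h.split hu
  have hlen := len_append_tail h1 h2
  obtain ⟨t₂, rfl⟩ := h2.eq_cons
  have hmem₁ : ∀ z ∈ l₁, z ∈ l₁ ++ (u :: t₂).tail := fun z hz => List.mem_append_left _ hz
  have hmem₂ : ∀ z ∈ u :: t₂, z ∈ l₁ ++ (u :: t₂).tail := by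
    intro z hz
    rcases List.mem_cons.1 hz with rfl | hz
    · exact List.mem_append_left _ h1.right_mem
    · exact List.mem_append_right _ hz
  rcases mem_append_tail hv with hv | hv
  · obtain ⟨m₁, m₂, g1, g2, e⟩ := h1.split hv
    have hl := len_append_tail g1 g2
    rw [← e] at hl
    refine ⟨m₂.reverse, g2.reverse, fun z hz => hmem₁ z ?_, ?_⟩
    · rw [List.mem_reverse] at hz
      rw [e]
      obtain ⟨t, rfl⟩ := g2.eq_cons
      rcases List.mem_cons.1 hz with rfl | hz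
      · exact List.mem_append_left _ g1.right_mem
      · exact List.mem_append_right _ hz
    · rw [len_reverse]
      omega
  · obtain ⟨m₁, m₂, g1, g2, e⟩ := h2.split hv
    have hl := len_append_tail g1 g2
    rw [← e] at hl
    refine ⟨m₁, g1, fun z hz => hmem₂ z ?_, ?_⟩
    · rw [e]
      exact List.mem_append_left _ hz
    · omega

lemma path_len {O : Set Edge} {x y : V} {l : List V} (h : IsP O x y l) {R : Finset V}
    (hR : ∀ v ∈ l, v ∈ R) : len l + 1 ≤ R.card := by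
  have h1 : l.toFinset ⊆ R := fun z hz => hR z (List.mem_toFinset.1 hz)
  have h2 := Finset.card_le_card h1
  rw [List.toFinset_card_of_nodup h.2] at h2
  have h3 := List.length_pos_iff.2 h.1.ne_nil
  unfold len
  omega

lemma card_rect3 (a c : ℤ) (r : ℕ) (b d : ℤ) (hb : b = a + 3 * r) (hd : d = c + 3 * r) :
    (rect a b c d).card = (3 * r + 1) ^ 2 := by
  unfold rect
  rw [Finset.card_product, Int.card_Icc, Int.card_Icc]
  have h1 : (b + 1 - a).toNat = 3 * r + 1 := by omega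
  have h2 : (d + 1 - c).toNat = 3 * r + 1 := by omega
  rw [h1, h2]; ring

/-- A walk that starts strictly inside a rectangle and ends elsewhere reaches the boundary. -/
lemma exit {O : Set Edge} {a b c d : ℤ} {x y : V} {l : List V} (h : IsW O x y l)
    (hx : a < x.1 ∧ x.1 < b ∧ c < x.2 ∧ x.2 < d)
    (hy : ¬ (a < y.1 ∧ y.1 < b ∧ c < y.2 ∧ y.2 < d)) :
    ∃ z l', IsW O x z l' ∧ (∀ v ∈ l', v ∈ rect a b c d) ∧
      (z.1 = a ∨ z.1 = b ∨ z.2 = c ∨ z.2 = d) := by
  induction l generalizing x with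
  | nil => exact absurd rfl h.ne_nil
  | cons u t ih =>
    cases t with
    | nil =>
      obtain ⟨rfl, rfl⟩ := isW_single.1 h
      exact absurd hx hy
    | cons v t =>
      obtain ⟨rfl, hs, h2⟩ := isW_cons_cons.1 h
      have hu : u ∈ rect a b c d := by rw [mem_rect]; omega
      by_cases hv : a < v.1 ∧ v.1 < b ∧ c < v.2 ∧ v.2 < d
      · obtain ⟨z, l', h3, h4, h5⟩ := ih h2 hv
        refine ⟨z, u :: l', h3.cons hs, fun w hw => ?_, h5⟩
        rcases List.mem_cons.1 hw with rfl | hw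
        · exact hu
        · exact h4 w hw
      · have hb : v ∈ rect a b c d ∧ (v.1 = a ∨ v.1 = b ∨ v.2 = c ∨ v.2 = d) := by
          rw [mem_rect]
          rcases adj_cases hs.1 with e | e | e | e
          · rw [e] at hv ⊢; simp only at hv ⊢; omega
          · rw [e] at hv ⊢; simp only at hv ⊢; omega
          · rw [e] at hx; simp only at hx; omega
          · rw [e] at hx; simp only at hx; omega
        refine ⟨v, [u, v], (isW_singleton O v).cons hs, fun w hw => ?_, hb.2⟩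
        rcases List.mem_cons.1 hw with rfl | hw
        · exact hu
        · rw [List.mem_singleton] at hw
          rw [hw]
          exact hb.1

/-- go along `l` from `x` to `u`, then along `l'` from `u` to `v` -/
lemma two_legs {O : Set Edge} {x y u v a b : V} {l l' : List V} (h : IsW O x y l) (hu : u ∈ l)
    (h' : IsW O a b l') (hu' : u ∈ l') (hv : v ∈ l') :
    ∃ m, IsW O x v m ∧ (∀ z ∈ m, z ∈ l ∨ z ∈ l') ∧ len m ≤ len l + len l' := by
  obtain ⟨m₁, g1, g2, g3⟩ := sub_walk h h.left_mem hu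
  obtain ⟨m₂, k1, k2, k3⟩ := sub_walk h' hu' hv
  refine ⟨m₁ ++ m₂.tail, g1.append k1, fun z hz => ?_, ?_⟩
  · rcases mem_append_tail hz with hz | hz
    · exact Or.inl (g2 z hz)
    · exact Or.inr (k2 z hz)
  · rw [len_append_tail g1 k1]
    omega

end ArmX

open ArmX

theorem ne_arm_hit {O : Set Edge} {z : V} {r C : ℕ} (hr : 1 ≤ r) (ha : NEarm O z (3 * r))
    (hH : HX O (z.1, z.2 + 2 * r) r C) (hV : VX O (z.1 + 2 * r, z.2) r C) :
    ∃ v l, OnH O (z.1, z.2 + 2 * r) r C v ∧ IsW O z v l ∧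
      (∀ a ∈ l, a ∈ rect z.1 (z.1 + 3 * r) z.2 (z.2 + 3 * r)) ∧
      len l ≤ (3 * r + 1) ^ 2 + C * r := by
  obtain ⟨y, l, hl, hlR, hy⟩ := ha
  push_cast at hlR hy
  obtain ⟨lH, hlH⟩ := hH
  obtain ⟨lV, hlV⟩ := hV
  have hlen := path_len hl hlR
  rw [card_rect3 z.1 z.2 r _ _ rfl rfl] at hlen
  rcases hy with hy | hy
  · -- right side
    obtain ⟨v, hvH, hvV⟩ := h_cross_v hlH hlV (by simp only; omega) (by simp only; omega)
      (by simp only; omega) (by simp only; omega)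
    obtain ⟨p, q, hV1, hV2, hV3, hV4, hV5⟩ := id hlV
    have hVr : ∀ u ∈ lV, z.1 + 2 * r ≤ u.1 ∧ u.1 ≤ z.1 + 3 * r ∧ z.2 ≤ u.2 ∧ u.2 ≤ z.2 + 3 * r := by
      intro u hu
      have := hV2 u hu
      rw [Vr, mem_rect] at this
      simp only at this
      omega
    obtain ⟨u, hu1, hu2⟩ := cross_meet (a := z.1 + 2 * r) (b := z.1 + 3 * r) (c := z.2)
      (d := z.2 + 3 * r) hl.1 hV1.1
      (fun w hw => by have := hlR w hw; rw [mem_rect] at this; omega) (by omega) (by omega)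
      (fun w hw => by have := hVr w hw; omega) (by rw [hV3]) (by rw [hV4])
    obtain ⟨m, hm1, hm2, hm3⟩ := two_legs hl.1 hu1 hV1.1 hu2 hvV
    refine ⟨v, m, ⟨lH, hlH, hvH⟩, hm1, fun w hw => ?_, by omega⟩
    rcases hm2 w hw with hw | hw
    · exact hlR w hw
    · have := hVr w hw
      rw [mem_rect]
      omega
  · -- top side
    obtain ⟨p, q, hH1, hH2, hH3, hH4, hH5⟩ := id hlH
    have hHr : ∀ u ∈ lH, z.1 ≤ u.1 ∧ u.1 ≤ z.1 + 3 * r ∧ z.2 + 2 * r ≤ u.2 ∧ u.2 ≤ z.2 + 3 * r := by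
      intro u hu
      have := hH2 u hu
      rw [Hr, mem_rect] at this
      simp only at this
      omega
    obtain ⟨v, hv1, hv2⟩ := cross_meet (a := z.1) (b := z.1 + 3 * r) (c := z.2 + 2 * r)
      (d := z.2 + 3 * r) hH1.1 hl.1
      (fun w hw => by have := hHr w hw; omega) (by rw [hH3]) (by rw [hH4])
      (fun w hw => by have := hlR w hw; rw [mem_rect] at this; omega) (by omega) (by omega)
    obtain ⟨m, hm1, hm2, hm3⟩ := sub_walk hl.1 hl.1.left_mem hv2
    exact ⟨v, m, ⟨lH, hlH, hv1⟩, hm1, fun w hw => hlR w (hm2 w hw), by omega⟩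

theorem nw_arm_hit {O : Set Edge} {z : V} {r C : ℕ} (hr : 1 ≤ r) (ha : NWarm O z (3 * r))
    (hH : HX O (z.1 - 3 * r, z.2 + 2 * r) r C) (hV : VX O (z.1 - 3 * r, z.2) r C) :
    ∃ v l, OnH O (z.1 - 3 * r, z.2 + 2 * r) r C v ∧ IsW O z v l ∧
      (∀ a ∈ l, a ∈ rect (z.1 - 3 * r) z.1 z.2 (z.2 + 3 * r)) ∧
      len l ≤ (3 * r + 1) ^ 2 + C * r := by
  obtain ⟨y, l, hl, hlR, hy⟩ := ha
  push_cast at hlR hy
  obtain ⟨lH, hlH⟩ := hH
  obtain ⟨lV, hlV⟩ := hV
  have hlen := path_len hl hlR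
  rw [card_rect3 (z.1 - 3 * r) z.2 r _ _ (by ring) rfl] at hlen
  rcases hy with hy | hy
  · -- left side
    obtain ⟨v, hvH, hvV⟩ := h_cross_v hlH hlV (by simp only; omega) (by simp only; omega)
      (by simp only; omega) (by simp only; omega)
    obtain ⟨p, q, hV1, hV2, hV3, hV4, hV5⟩ := id hlV
    have hVr : ∀ u ∈ lV, z.1 - 3 * r ≤ u.1 ∧ u.1 ≤ z.1 - 2 * r ∧ z.2 ≤ u.2 ∧
        u.2 ≤ z.2 + 3 * r := by
      intro u hu
      have := hV2 u hu
      rw [Vr, mem_rect] at this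
      simp only at this
      omega
    obtain ⟨u, hu1, hu2⟩ := cross_meet (a := z.1 - 3 * r) (b := z.1 - 2 * r) (c := z.2)
      (d := z.2 + 3 * r) hl.1.reverse hV1.1
      (fun w hw => by
        have := hlR w (List.mem_reverse.1 hw); rw [mem_rect] at this; omega) (by omega) (by omega)
      (fun w hw => by have := hVr w hw; omega) (by rw [hV3]) (by rw [hV4])
    obtain ⟨m, hm1, hm2, hm3⟩ := two_legs hl.1 (List.mem_reverse.1 hu1) hV1.1 hu2 hvV
    refine ⟨v, m, ⟨lH, hlH, hvH⟩, hm1, fun w hw => ?_, by omega⟩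
    rcases hm2 w hw with hw | hw
    · exact hlR w hw
    · have := hVr w hw
      rw [mem_rect]
      omega
  · -- top side
    obtain ⟨p, q, hH1, hH2, hH3, hH4, hH5⟩ := id hlH
    have hHr : ∀ u ∈ lH, z.1 - 3 * r ≤ u.1 ∧ u.1 ≤ z.1 ∧ z.2 + 2 * r ≤ u.2 ∧
        u.2 ≤ z.2 + 3 * r := by
      intro u hu
      have := hH2 u hu
      rw [Hr, mem_rect] at this
      simp only at this
      omega
    simp only at hH3 hH4
    obtain ⟨v, hv1, hv2⟩ := cross_meet (a := z.1 - 3 * r) (b := z.1) (c := z.2 + 2 * r)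
      (d := z.2 + 3 * r) hH1.1 hl.1
      (fun w hw => by have := hHr w hw; omega) (by omega) (by omega)
      (fun w hw => by have := hlR w hw; rw [mem_rect] at this; omega) (by omega) (by omega)
    obtain ⟨m, hm1, hm2, hm3⟩ := sub_walk hl.1 hl.1.left_mem hv2
    exact ⟨v, m, ⟨lH, hlH, hv1⟩, hm1, fun w hw => hlR w (hm2 w hw), by omega⟩

theorem start_hit {O : Set Edge} {v : V} {r C : ℕ} (hr : 1 ≤ r)
    (hnet : Net O (rect (v.1 - r) (v.1 + 2 * r) (v.2 - r) (v.2 + 2 * r)) r C)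
    (hv : ∃ w, Conn O v w ∧ 2 * r < nrm (w - v)) :
    ∃ a l, OnH O (v.1 - r, v.2 + r) r C a ∧ IsW O v a l ∧
      (∀ z ∈ l, z ∈ rect (v.1 - r) (v.1 + 2 * r) (v.2 - r) (v.2 + 2 * r)) ∧
      len l ≤ (3 * r + 1) ^ 2 + 2 * C * r := by
  obtain ⟨w, ⟨l₀, hl₀⟩, hw⟩ := hv
  have hw' : ¬ (v.1 - r < w.1 ∧ w.1 < v.1 + 2 * r ∧ v.2 - r < w.2 ∧ w.2 < v.2 + 2 * r) := by
    intro hin
    simp only [nrm, Prod.fst_sub, Prod.snd_sub] at hw
    rcases lt_max_iff.1 hw with h | h <;> omega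
  obtain ⟨z, l₁, h1, h2, h3⟩ := exit hl₀ (a := v.1 - r) (b := v.1 + 2 * r) (c := v.2 - r)
    (d := v.2 + 2 * r) (by omega) hw'
  obtain ⟨l, hl, hlsub, -⟩ := h1.exists_path
  have hlR : ∀ u ∈ l, u ∈ rect (v.1 - r) (v.1 + 2 * r) (v.2 - r) (v.2 + 2 * r) :=
    fun u hu => h2 u (hlsub u hu)
  have hlen := path_len hl hlR
  rw [card_rect3 (v.1 - r) (v.2 - r) r _ _ (by ring) (by ring)] at hlen
  have hlb : ∀ u ∈ l, v.1 - r ≤ u.1 ∧ u.1 ≤ v.1 + 2 * r ∧ v.2 - r ≤ u.2 ∧ u.2 ≤ v.2 + 2 * r := by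
    intro u hu
    have := hlR u hu
    rwa [mem_rect] at this
  -- the crossings
  have hHsub : ∀ e : ℤ, v.2 - r ≤ e → e ≤ v.2 + r → Hr (v.1 - r, e) r ⊆
      rect (v.1 - r) (v.1 + 2 * r) (v.2 - r) (v.2 + 2 * r) := by
    intro e he he' u hu
    rw [Hr, mem_rect] at hu
    rw [mem_rect]
    simp only at hu
    omega
  have hVsub : ∀ e : ℤ, v.1 - r ≤ e → e ≤ v.1 + r → Vr (e, v.2 - r) r ⊆
      rect (v.1 - r) (v.1 + 2 * r) (v.2 - r) (v.2 + 2 * r) := by
    intro e he he' u hu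
    rw [Vr, mem_rect] at hu
    rw [mem_rect]
    simp only at hu
    omega
  obtain ⟨lH, hlH⟩ := hnet.1 _ (hHsub (v.2 + r) (by omega) le_rfl)
  obtain ⟨p, q, hH1, hH2, hH3, hH4, hH5⟩ := id hlH
  have hHr := fun u hu => hHsub (v.2 + r) (by omega) le_rfl (hH2 u hu)
  have hHr' : ∀ u ∈ lH, v.2 + r ≤ u.2 := by
    intro u hu
    have := hH2 u hu
    rw [Hr, mem_rect] at this
    exact this.2.2.1
  simp only at hH3 hH4
  rcases h3 with h3 | h3 | h3 | h3
  · -- left
    obtain ⟨lV, hlV⟩ := hnet.2 _ (hVsub (v.1 - r) le_rfl (by omega))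
    obtain ⟨p', q', hV1, hV2, hV3, hV4, hV5⟩ := id hlV
    simp only at hV3 hV4
    have hVr : ∀ u ∈ lV, v.1 - r ≤ u.1 ∧ u.1 ≤ v.1 ∧ v.2 - r ≤ u.2 ∧ u.2 ≤ v.2 + 2 * r := by
      intro u hu
      have := hV2 u hu
      rw [Vr, mem_rect] at this
      simp only at this
      omega
    obtain ⟨a, haH, haV⟩ := h_cross_v hlH hlV (by simp only; omega) (by simp only; omega)
      (by simp only; omega) (by simp only; omega)
    obtain ⟨u, hu1, hu2⟩ := cross_meet (a := v.1 - r) (b := v.1) (c := v.2 - r)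
      (d := v.2 + 2 * r) hl.1.reverse hV1.1
      (fun w hw => by have := hlb w (List.mem_reverse.1 hw); omega) (by omega) (by omega)
      (fun w hw => by have := hVr w hw; omega) (by omega) (by omega)
    obtain ⟨m, hm1, hm2, hm3⟩ := two_legs hl.1 (List.mem_reverse.1 hu1) hV1.1 hu2 haV
    refine ⟨a, m, ⟨lH, hlH, haH⟩, hm1, fun w hw => ?_, ?_⟩
    · rcases hm2 w hw with hw | hw
      · exact hlR w hw
      · have := hVr w hw
        rw [mem_rect]
        omega
    · have h5 : 2 * C * r = C * r + C * r := by ring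
      omega
  · -- right
    obtain ⟨lV, hlV⟩ := hnet.2 _ (hVsub (v.1 + r) (by omega) le_rfl)
    obtain ⟨p', q', hV1, hV2, hV3, hV4, hV5⟩ := id hlV
    simp only at hV3 hV4
    have hVr : ∀ u ∈ lV, v.1 + r ≤ u.1 ∧ u.1 ≤ v.1 + 2 * r ∧ v.2 - r ≤ u.2 ∧
        u.2 ≤ v.2 + 2 * r := by
      intro u hu
      have := hV2 u hu
      rw [Vr, mem_rect] at this
      simp only at this
      omega
    obtain ⟨a, haH, haV⟩ := h_cross_v hlH hlV (by simp only; omega) (by simp only; omega)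
      (by simp only; omega) (by simp only; omega)
    obtain ⟨u, hu1, hu2⟩ := cross_meet (a := v.1 + r) (b := v.1 + 2 * r) (c := v.2 - r)
      (d := v.2 + 2 * r) hl.1 hV1.1
      (fun w hw => by have := hlb w hw; omega) (by omega) (by omega)
      (fun w hw => by have := hVr w hw; omega) (by omega) (by omega)
    obtain ⟨m, hm1, hm2, hm3⟩ := two_legs hl.1 hu1 hV1.1 hu2 haV
    refine ⟨a, m, ⟨lH, hlH, haH⟩, hm1, fun w hw => ?_, ?_⟩
    · rcases hm2 w hw with hw | hw
      · exact hlR w hw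
      · have := hVr w hw
        rw [mem_rect]
        omega
    · have h5 : 2 * C * r = C * r + C * r := by ring
      omega
  · -- bottom
    obtain ⟨lV, hlV⟩ := hnet.2 _ (hVsub (v.1 - r) le_rfl (by omega))
    obtain ⟨p', q', hV1, hV2, hV3, hV4, hV5⟩ := id hlV
    obtain ⟨lB, hlB⟩ := hnet.1 _ (hHsub (v.2 - r) le_rfl (by omega))
    obtain ⟨p'', q'', hB1, hB2, hB3, hB4, hB5⟩ := id hlB
    simp only at hB3 hB4
    have hBr : ∀ u ∈ lB, v.1 - r ≤ u.1 ∧ u.1 ≤ v.1 + 2 * r ∧ v.2 - r ≤ u.2 ∧ u.2 ≤ v.2 := by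
      intro u hu
      have := hB2 u hu
      rw [Hr, mem_rect] at this
      simp only at this
      omega
    obtain ⟨a, haH, haV⟩ := h_cross_v hlH hlV (by simp only; omega) (by simp only; omega)
      (by simp only; omega) (by simp only; omega)
    obtain ⟨c, hcB, hcV⟩ := h_cross_v hlB hlV (by simp only; omega) (by simp only; omega)
      (by simp only; omega) (by simp only; omega)
    obtain ⟨u, hu1, hu2⟩ := cross_meet (a := v.1 - r) (b := v.1 + 2 * r) (c := v.2 - r)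
      (d := v.2) hB1.1 hl.1.reverse
      (fun w hw => by have := hBr w hw; omega) (by omega) (by omega)
      (fun w hw => by have := hlb w (List.mem_reverse.1 hw); omega) (by omega) (by omega)
    obtain ⟨m, hm1, hm2, hm3⟩ := two_legs hl.1 (List.mem_reverse.1 hu2) hB1.1 hu1 hcB
    obtain ⟨m', hm1', hm2', hm3'⟩ := two_legs hm1 hm1.right_mem hV1.1 hcV haV
    refine ⟨a, m', ⟨lH, hlH, haH⟩, hm1', fun w hw => ?_, ?_⟩
    · rcases hm2' w hw with hw | hw
      · rcases hm2 w hw with hw | hw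
        · exact hlR w hw
        · have := hBr w hw
          rw [mem_rect]
          omega
      · exact hVsub (v.1 - r) le_rfl (by omega) (hV2 w hw)
    · have h5 : 2 * C * r = C * r + C * r := by ring
      omega
  · -- top
    obtain ⟨a, ha1, ha2⟩ := cross_meet (a := v.1 - r) (b := v.1 + 2 * r) (c := v.2 + r)
      (d := v.2 + 2 * r) hH1.1 hl.1
      (fun w hw => by
        have h5 := hHr w hw
        have h6 := hHr' w hw
        rw [mem_rect] at h5
        omega) (by omega) (by omega)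
      (fun w hw => by have := hlb w hw; omega) (by omega) (by omega)
    obtain ⟨m, hm1, hm2, hm3⟩ := sub_walk hl.1 hl.1.left_mem ha2
    refine ⟨a, m, ⟨lH, hlH, ha1⟩, hm1, fun w hw => hlR w (hm2 w hw), ?_⟩
    have h5 : 2 * C * r = C * r + C * r := by ring
    omega

end Pool.Agent.SAWP
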