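import Pool.Agent.SAWP.L.RhoBridge

/-!
# SAWP, case L: lower bound for sums of bridge probabilities (module L15; paper 4.2 end)

`delta1 < ∑_{k=j₀}^{7j₀} ρ_k ≤ K₀ (∑ P(BR_k) + ∑_{k≥j₀} 16^{-k})`, so `∑ P(BR_k) ≥ delta1/K₀ - (16/15)16^{-j₀} ≥ delta1/(2K₀) =: δ₂` for large `j₀`.
-/

set_option autoImplicit false

open MeasureTheory

namespace Pool.Agent.SAWP

theorem bridge_sum (p : unitInterval) (hp : 1 / 2 < p.1) :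
    ∃ C' : ℝ, 1 ≤ C' ∧ ∀ (b β A₀ : ℝ) (i₂ : ℕ), 0 ≤ b → 0 < β → C' * b + β / 4 + 1 ≤ A₀ →
      (∃ J : ℕ, ∀ j₀, J ≤ j₀ → delta1 < ∑ k ∈ Finset.Icc j₀ (7 * j₀), rho p b β A₀ i₂ k) →
      ∃ δ₂ : ℝ, 0 < δ₂ ∧ ∃ J : ℕ, ∀ j₀, J ≤ j₀ → δ₂ ≤ ∑ k ∈ Finset.Icc j₀ (7 * j₀),
        PR p {ω | BR b β (16 ^ (k - i₂)) (sq (0, 0) (8 * 16 ^ k)) ω} := by
  obtain ⟨C', hC', hmain⟩ := rho_le_bridge p hp
  refine ⟨C', hC', fun b β A₀ i₂ hb hβ hA => ?_⟩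
  rintro ⟨J, hJ⟩
  obtain ⟨K₀, hK₀, k₀, hk₀⟩ := hmain b β A₀ i₂ hb hβ hA
  have hd : 0 < delta1 := by unfold delta1; positivity
  refine ⟨delta1 / (2 * K₀), by positivity, ?_⟩
  obtain ⟨J', hJ'⟩ : ∃ J' : ℕ, ∀ j : ℕ, J' ≤ j → (16 : ℝ)⁻¹ ^ j / (1 - (16 : ℝ)⁻¹) ≤
      delta1 / (2 * K₀) := by
    have h1 : Filter.Tendsto (fun j : ℕ => (16 : ℝ)⁻¹ ^ j / (1 - (16 : ℝ)⁻¹)) Filter.atTop
        (nhds (0 / (1 - (16 : ℝ)⁻¹))) :=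
      (tendsto_pow_atTop_nhds_zero_of_lt_one (by norm_num) (by norm_num)).div_const _
    rw [zero_div] at h1
    have h2 := h1.eventually (Iic_mem_nhds (show (0 : ℝ) < delta1 / (2 * K₀) by positivity))
    obtain ⟨N, hN⟩ := Filter.eventually_atTop.1 h2
    exact ⟨N, fun j hj => hN j hj⟩
  refine ⟨max J (max k₀ J'), fun j₀ hj₀ => ?_⟩
  have h1 := hJ j₀ ((le_max_left _ _).trans hj₀)
  have h2 : k₀ ≤ j₀ := (le_max_left _ _).trans ((le_max_right _ _).trans hj₀)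
  have h3 := hJ' j₀ ((le_max_right _ _).trans ((le_max_right _ _).trans hj₀))
  have h4 : ∑ k ∈ Finset.Icc j₀ (7 * j₀), rho p b β A₀ i₂ k ≤
      K₀ * (∑ k ∈ Finset.Icc j₀ (7 * j₀),
        PR p {ω | BR b β (16 ^ (k - i₂)) (sq (0, 0) (8 * 16 ^ k)) ω} +
        ∑ k ∈ Finset.Icc j₀ (7 * j₀), (16 : ℝ)⁻¹ ^ k) := by
    rw [← Finset.sum_add_distrib, Finset.mul_sum]
    refine Finset.sum_le_sum fun k hk => hk₀ k ?_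
    exact h2.trans (Finset.mem_Icc.1 hk).1
  have h5 : ∑ k ∈ Finset.Icc j₀ (7 * j₀), (16 : ℝ)⁻¹ ^ k ≤ (16 : ℝ)⁻¹ ^ j₀ / (1 - (16 : ℝ)⁻¹) := by
    rw [← Finset.Ico_succ_right_eq_Icc]
    exact geom_sum_Ico_le_of_lt_one (by norm_num) (by norm_num)
  have h6 : delta1 / K₀ ≤ ∑ k ∈ Finset.Icc j₀ (7 * j₀),
        PR p {ω | BR b β (16 ^ (k - i₂)) (sq (0, 0) (8 * 16 ^ k)) ω} +
        ∑ k ∈ Finset.Icc j₀ (7 * j₀), (16 : ℝ)⁻¹ ^ k := by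
    rw [div_le_iff₀ hK₀, mul_comm]
    exact h1.le.trans h4
  have h7 : delta1 / K₀ = delta1 / (2 * K₀) + delta1 / (2 * K₀) := by
    field_simp
    ring
  linarith

end Pool.Agent.SAWP
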