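import Pool.Agent.SAWP.L.ArmHit
import Pool.Agent.SAWP.L.LDefs

/-!
# SAWP, case L: connectors (module L3; paper 4.5)

`connector`: `m` has a right arm, `s` a left arm, `s₁ - m₁ ≥ 3r+2`.  Walk: `m → m+e₁ =: a`, `ne_arm_hit` to the crossing of `H(a+(0,2r))`, `travel` in
`G = rect (m₁+1) (s₁-1) (min m₂ s₂) (max m₂ s₂ + 3r)` to the crossing of `H(a'+(-3r,2r))`, `a' = s-e₁`, back along `nw_arm_hit` to `a'`, and to `s`.
Length `≤ 2 + 2((3r+1)²+Cr) + 3C(nrm(s-m)+r) ≤ 3C nrm(s-m) + 50Cr²` (`nrm(x'-x) ≤ nrm(s-m)` since `s₁-m₁ ≥ 3r+2`).  All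
vertices except `m`, `s` are in `G`; extract a path (`IsW.exists_path`).
`start_connector`: the same from `v` with `start_hit`, `G = rect (v₁-r) (s₁-1) (min v₂ s₂ - r) (max v₂ s₂ + 3r)`.
-/

set_option autoImplicit false

namespace Pool.Agent.SAWP

lemma conn_len_aux {C r n n' L1 L2 L3 : ℕ} (hr : 1 ≤ r) (hC : 1 ≤ C) (hn : n' ≤ n + r)
    (h1 : L1 ≤ (3 * r + 1) ^ 2 + 2 * C * r) (h2 : L2 ≤ 3 * C * (n' + r))
    (h3 : L3 ≤ (3 * r + 1) ^ 2 + C * r) : L1 + L2 + L3 + 2 ≤ 3 * C * n + 50 * C * r ^ 2 := by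
  have hr2 : r ≤ r ^ 2 := by nlinarith
  have h4 : (3 * r + 1) ^ 2 ≤ 16 * r ^ 2 := by nlinarith
  have h5 : C * r ≤ C * r ^ 2 := Nat.mul_le_mul_left _ hr2
  have h6 : r ^ 2 ≤ C * r ^ 2 := Nat.le_mul_of_pos_left _ hC
  have h7 : 1 ≤ r ^ 2 := by nlinarith
  have h8 : C * (n' + r) ≤ C * (n + 2 * r) := Nat.mul_le_mul_left _ (by omega)
  nlinarith

theorem connector {ω : Cfg} {B : Finset V} {r C : ℕ} (hr : 1 ≤ r) (hC : 1 ≤ C)
    (hnet : Net (Op ω) B r C) {m s : V} (hm : RArm ω m r) (hs : LArm ω s r)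
    (hgap : m.1 + 3 * r + 2 ≤ s.1)
    (hB : rect (m.1 + 1) (s.1 - 1) (min m.2 s.2) (max m.2 s.2 + 3 * r) ⊆ B) :
    ∃ l, IsP (Op ω) m s l ∧ (∀ z ∈ l, z ≠ m → z ≠ s → m.1 < z.1 ∧ z.1 < s.1) ∧
      len l ≤ 3 * C * nrm (s - m) + 50 * C * r ^ 2 := by
  obtain ⟨m₁, m₂⟩ := m
  obtain ⟨s₁, s₂⟩ := s
  obtain ⟨hme, hma⟩ := hm
  obtain ⟨hse, hsa⟩ := hs
  simp only at hme hma hse hsa hgap hB
  have hmin1 : min m₂ s₂ ≤ m₂ := min_le_left _ _
  have hmin2 : min m₂ s₂ ≤ s₂ := min_le_right _ _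
  have hmax1 : m₂ ≤ max m₂ s₂ := le_max_left _ _
  have hmax2 : s₂ ≤ max m₂ s₂ := le_max_right _ _
  set lo := min m₂ s₂ with hlo
  set hi := max m₂ s₂ with hhi
  have hH1 : Hr (m₁ + 1, m₂ + 2 * r) r ⊆ rect (m₁ + 1) (s₁ - 1) lo (hi + 3 * r) := by
    intro z hz
    rw [Hr, mem_rect] at hz
    rw [mem_rect]
    simp only at hz
    omega
  have hV1 : Vr (m₁ + 1 + 2 * r, m₂) r ⊆ rect (m₁ + 1) (s₁ - 1) lo (hi + 3 * r) := by
    intro z hz
    rw [Vr, mem_rect] at hz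
    rw [mem_rect]
    simp only at hz
    omega
  have hH2 : Hr (s₁ - 1 - 3 * r, s₂ + 2 * r) r ⊆ rect (m₁ + 1) (s₁ - 1) lo (hi + 3 * r) := by
    intro z hz
    rw [Hr, mem_rect] at hz
    rw [mem_rect]
    simp only at hz
    omega
  have hV2 : Vr (s₁ - 1 - 3 * r, s₂) r ⊆ rect (m₁ + 1) (s₁ - 1) lo (hi + 3 * r) := by
    intro z hz
    rw [Vr, mem_rect] at hz
    rw [mem_rect]
    simp only at hz
    omega
  obtain ⟨v, l₁, hv, hl₁, hm₁, hn₁⟩ := ne_arm_hit (z := (m₁ + 1, m₂)) hr hma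
    (hnet.1 _ (hH1.trans hB)) (hnet.2 _ (hV1.trans hB))
  obtain ⟨v', l₃, hv', hl₃, hm₃, hn₃⟩ := nw_arm_hit (z := (s₁ - 1, s₂)) hr hsa
    (hnet.1 _ (hH2.trans hB)) (hnet.2 _ (hV2.trans hB))
  obtain ⟨l₂, hl₂, hm₂, hn₂⟩ := travel hr hnet hB (x := (m₁ + 1, m₂ + 2 * r))
    (x' := (s₁ - 1 - 3 * r, s₂ + 2 * r)) hH1 hH2 (by simp only; omega) (by simp only; omega)
    hv hv'
  have e1 : Step (Op ω) (m₁, m₂) (m₁ + 1, m₂) := by
    have := step_of_edge (O := Op ω) (e := ((m₁, m₂), false)) hme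
    simpa [src, tgt] using this
  have e2 : Step (Op ω) (s₁, s₂) (s₁ - 1, s₂) := by
    have := step_of_edge (O := Op ω) (e := ((s₁ - 1, s₂), false)) hse
    have h := this.symm
    simpa [src, tgt] using h
  have w1 : IsW (Op ω) (m₁, m₂) v ((m₁, m₂) :: l₁) := hl₁.cons e1
  have w3 : IsW (Op ω) (s₁, s₂) v' ((s₁, s₂) :: l₃) := hl₃.cons e2
  have w12 := w1.append hl₂
  have w := w12.append w3.reverse
  obtain ⟨l, hl, hsub, hlen⟩ := w.exists_path
  refine ⟨l, hl, ?_, ?_⟩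
  · intro z hz hzm hzs
    have hzz := hsub z hz
    have key : z ∈ rect (m₁ + 1) (s₁ - 1) lo (hi + 3 * r) := by
      rcases mem_append_tail hzz with h | h
      · rcases mem_append_tail h with h | h
        · rcases List.mem_cons.1 h with h | h
          · exact absurd h hzm
          · have := mem_rect.1 (hm₁ z h)
            rw [mem_rect]
            simp only at this
            omega
        · exact hm₂ z h
      · rcases List.mem_cons.1 (List.mem_reverse.1 h) with h | h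
        · exact absurd h hzs
        · have := mem_rect.1 (hm₃ z h)
          rw [mem_rect]
          simp only at this
          omega
    rw [mem_rect] at key
    exact ⟨by simp only; omega, by simp only; omega⟩
  · have hL1 : len ((m₁, m₂) :: l₁) = len l₁ + 1 := by
      have := List.length_pos_iff.2 hl₁.ne_nil
      simp only [len, List.length_cons]; omega
    have hL3 : len ((s₁, s₂) :: l₃) = len l₃ + 1 := by
      have := List.length_pos_iff.2 hl₃.ne_nil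
      simp only [len, List.length_cons]; omega
    rw [len_append_tail w12 w3.reverse, len_append_tail w1 hl₂, len_reverse, hL1, hL3] at hlen
    have hnrm : nrm ((s₁ - 1 - 3 * r, s₂ + 2 * r) - ((m₁ + 1, m₂ + 2 * r) : V)) ≤
        nrm (((s₁, s₂) : V) - (m₁, m₂)) + r := by
      simp only [nrm, Prod.fst_sub, Prod.snd_sub]
      have h7 := le_max_left (s₁ - m₁).natAbs (s₂ - m₂).natAbs
      have h8 := le_max_right (s₁ - m₁).natAbs (s₂ - m₂).natAbs
      refine max_le ?_ ?_ <;> omega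
    have := conn_len_aux (L1 := len l₁) (L2 := len l₂) (L3 := len l₃) hr hC hnrm
      (hn₁.trans (by nlinarith)) hn₂ hn₃
    omega

theorem start_connector {ω : Cfg} {B : Finset V} {r C : ℕ} (hr : 1 ≤ r) (hC : 1 ≤ C)
    (hnet : Net (Op ω) B r C) {v s : V} (hv : ∃ w, Conn (Op ω) v w ∧ 2 * r < nrm (w - v))
    (hs : LArm ω s r) (hgap : v.1 + 2 * r + 1 ≤ s.1)
    (hB : rect (v.1 - r) (s.1 - 1) (min v.2 s.2 - r) (max v.2 s.2 + 3 * r) ⊆ B) :
    ∃ l, IsP (Op ω) v s l ∧ (∀ z ∈ l, z ≠ s → z.1 < s.1) ∧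
      len l ≤ 3 * C * nrm (s - v) + 50 * C * r ^ 2 := by
  obtain ⟨m₁, m₂⟩ := v
  obtain ⟨s₁, s₂⟩ := s
  obtain ⟨hse, hsa⟩ := hs
  simp only at hse hsa hgap hB
  have hmin1 : min m₂ s₂ ≤ m₂ := min_le_left _ _
  have hmin2 : min m₂ s₂ ≤ s₂ := min_le_right _ _
  have hmax1 : m₂ ≤ max m₂ s₂ := le_max_left _ _
  have hmax2 : s₂ ≤ max m₂ s₂ := le_max_right _ _
  set lo := min m₂ s₂ with hlo
  set hi := max m₂ s₂ with hhi
  have hR : rect (m₁ - r) (m₁ + 2 * r) (m₂ - r) (m₂ + 2 * r) ⊆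
      rect (m₁ - r) (s₁ - 1) (lo - r) (hi + 3 * r) := by
    intro z hz
    rw [mem_rect] at hz
    rw [mem_rect]
    omega
  have hH1 : Hr (m₁ - r, m₂ + r) r ⊆ rect (m₁ - r) (s₁ - 1) (lo - r) (hi + 3 * r) := by
    intro z hz
    rw [Hr, mem_rect] at hz
    rw [mem_rect]
    simp only at hz
    omega
  have hH2 : Hr (s₁ - 1 - 3 * r, s₂ + 2 * r) r ⊆
      rect (m₁ - r) (s₁ - 1) (lo - r) (hi + 3 * r) := by
    intro z hz
    rw [Hr, mem_rect] at hz
    rw [mem_rect]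
    simp only at hz
    omega
  have hV2 : Vr (s₁ - 1 - 3 * r, s₂) r ⊆ rect (m₁ - r) (s₁ - 1) (lo - r) (hi + 3 * r) := by
    intro z hz
    rw [Vr, mem_rect] at hz
    rw [mem_rect]
    simp only at hz
    omega
  have hnet' : Net (Op ω) (rect (m₁ - r) (m₁ + 2 * r) (m₂ - r) (m₂ + 2 * r)) r C :=
    ⟨fun x hx => hnet.1 x ((hx.trans hR).trans hB), fun x hx => hnet.2 x ((hx.trans hR).trans hB)⟩
  obtain ⟨a, l₁, ha, hl₁, hm₁, hn₁⟩ := start_hit (v := (m₁, m₂)) hr hnet' hv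
  obtain ⟨v', l₃, hv', hl₃, hm₃, hn₃⟩ := nw_arm_hit (z := (s₁ - 1, s₂)) hr hsa
    (hnet.1 _ (hH2.trans hB)) (hnet.2 _ (hV2.trans hB))
  obtain ⟨l₂, hl₂, hm₂, hn₂⟩ := travel hr hnet hB (x := (m₁ - r, m₂ + r))
    (x' := (s₁ - 1 - 3 * r, s₂ + 2 * r)) hH1 hH2 (by simp only; omega) (by simp only; omega)
    ha hv'
  have e2 : Step (Op ω) (s₁, s₂) (s₁ - 1, s₂) := by
    have := step_of_edge (O := Op ω) (e := ((s₁ - 1, s₂), false)) hse
    have h := this.symm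
    simpa [src, tgt] using h
  have w3 : IsW (Op ω) (s₁, s₂) v' ((s₁, s₂) :: l₃) := hl₃.cons e2
  have w12 := hl₁.append hl₂
  have w := w12.append w3.reverse
  obtain ⟨l, hl, hsub, hlen⟩ := w.exists_path
  refine ⟨l, hl, ?_, ?_⟩
  · intro z hz hzs
    have hzz := hsub z hz
    have key : z ∈ rect (m₁ - r) (s₁ - 1) (lo - r) (hi + 3 * r) := by
      rcases mem_append_tail hzz with h | h
      · rcases mem_append_tail h with h | h
        · exact hR (hm₁ z h)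
        · exact hm₂ z h
      · rcases List.mem_cons.1 (List.mem_reverse.1 h) with h | h
        · exact absurd h hzs
        · have := mem_rect.1 (hm₃ z h)
          rw [mem_rect]
          simp only at this
          omega
    rw [mem_rect] at key
    simp only
    omega
  · have hL3 : len ((s₁, s₂) :: l₃) = len l₃ + 1 := by
      have := List.length_pos_iff.2 hl₃.ne_nil
      simp only [len, List.length_cons]; omega
    rw [len_append_tail w12 w3.reverse, len_append_tail hl₁ hl₂, len_reverse, hL3] at hlen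
    have hnrm : nrm ((s₁ - 1 - 3 * r, s₂ + 2 * r) - ((m₁ - r, m₂ + r) : V)) ≤
        nrm (((s₁, s₂) : V) - (m₁, m₂)) + r := by
      simp only [nrm, Prod.fst_sub, Prod.snd_sub]
      have h7 := le_max_left (s₁ - m₁).natAbs (s₂ - m₂).natAbs
      have h8 := le_max_right (s₁ - m₁).natAbs (s₂ - m₂).natAbs
      refine max_le ?_ ?_ <;> omega
    have := conn_len_aux (L1 := len l₁) (L2 := len l₂) (L3 := len l₃) hr hC hnrm hn₁ hn₂ hn₃
    omega

end Pool.Agent.SAWP
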