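import Pool.Agent.SAWP.L.ArmHit
import Pool.Agent.SAWP.L.LDefs

/-!
# SAWP, case L: from corner pieces to bridges, deterministic part (module L4; paper 4.2)

`R = sq c (4u)`, `B = sq (c-(2u,2u)) (8u)`.  `s, e ∈ R`, the paths in `R` from `s` to `e` with diameter `< w`, `s` leftmost, `e` topmost have
`gs ≥ e^{A₀w}/4`; the edge `e, e' = e+e₂` is open, `e'` has a NE-arm of radius `3r`; `Net (Op ω) B r C`; `2 ≤ w ≤ u`, `(3r+1)² ≤ w`, `1 ≤ r`.
There is at least one such path (the sum is positive), so `s₁ ≤ e₁ < s₁+w`.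
Walk `π₀` from `e`: `e → e'`, `ne_arm_hit` to the crossing of `H(e'+(0,2r))`, `travel` in `G = rect e₁ (s₁+w+3r) (e₂+1) (e₂+1+3r)` to the crossing of
`H((s₁+w, e'₂+2r))` (all its vertices have `x₁ ≥ s₁+w`).  Length `≤ 1+(3r+1)²+Cr+3C(w+r) ≤ 9Cw`.  Stop at the first vertex `m` with `m₁ = s₁+w` (`IsW.first_hit` with
`P z = (s₁+w ≤ z₁)`; steps change `x₁` by at most one), extract a path `π` from `e` to `m`: apart from `e` it lies in `x₂ ≥ e₂+1`, and it has `s₁ ≤ e₁ ≤ x₁ ≤ s₁+w`.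
Concatenation `γ ↦ γ ++ π.tail` (`IsP.append`, `γ` lies in `x₂ ≤ e₂`) is injective and gives
`gs (Op ω) B b (btw s m) s m ≥ e^{-9bCw} e^{A₀w}/4 ≥ e^{(β/4)w}` as `A₀ ≥ 9Cb+β/4+1`, `e^w ≥ 4`.
-/

set_option autoImplicit false

namespace Pool.Agent.SAWP

/-- Extending all counted paths by a fixed path. -/
lemma gs_extend {O : Set Edge} {R R' : Finset V} {b : ℝ} {Q Q' : List V → Prop} {x y z : V}
    {π : List V} (hπ : IsP O y z π)
    (h : ∀ l, IsP O x y l → (∀ v ∈ l, v ∈ R) → Q l →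
      (∀ v ∈ l, v ∈ π → v = y) ∧ (∀ v ∈ l ++ π.tail, v ∈ R') ∧ Q' (l ++ π.tail)) :
    gs O R b Q x y * Real.exp (-(b * (len π : ℝ))) ≤ gs O R' b Q' x z := by
  classical
  unfold gs
  rw [Finset.sum_mul]
  have h2 : ∑ l ∈ (saws O R x y).filter Q,
      Real.exp (-(b * (len l : ℝ))) * Real.exp (-(b * (len π : ℝ))) =
      ∑ l ∈ ((saws O R x y).filter Q).image (fun l => l ++ π.tail),
        Real.exp (-(b * (len l : ℝ))) := by
    rw [Finset.sum_image]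
    · refine Finset.sum_congr rfl fun l hl => ?_
      rw [Finset.mem_filter, mem_saws] at hl
      rw [← Real.exp_add, len_append_tail hl.1.1.1 hπ.1]
      congr 1
      push_cast
      ring
    · intro l _ l' _ hll
      exact List.append_cancel_right hll
  rw [h2]
  refine Finset.sum_le_sum_of_subset_of_nonneg ?_ fun _ _ _ => (Real.exp_pos _).le
  intro l hl
  rw [Finset.mem_image] at hl
  obtain ⟨l', hl', rfl⟩ := hl
  rw [Finset.mem_filter, mem_saws] at hl'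
  obtain ⟨h3, h4, h5⟩ := h l' hl'.1.1 hl'.1.2 hl'.2
  rw [Finset.mem_filter, mem_saws]
  exact ⟨⟨hl'.1.1.append hπ h3, h4⟩, h5⟩

theorem corner_to_bridge {ω : Cfg} {b β A₀ : ℝ} {C u w r : ℕ} {c s e : V} (hb : 0 ≤ b)
    (hC : 1 ≤ C) (hr : 1 ≤ r) (hw : 2 ≤ w) (hwu : w ≤ u) (hrw : (3 * r + 1) ^ 2 ≤ w)
    (hA : 9 * C * b + β / 4 + 1 ≤ A₀) (hs : s ∈ sq c (4 * u)) (he : e ∈ sq c (4 * u))
    (hsum : Real.exp (A₀ * w) / 4 ≤ gs (Op ω) (sq c (4 * u)) b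
      (fun l => dlt w l ∧ (∀ z ∈ l, s.1 ≤ z.1) ∧ (∀ z ∈ l, z.2 ≤ e.2)) s e)
    (hopen : ω (e, true) = true) (harm : NEarm (Op ω) (e.1, e.2 + 1) (3 * r))
    (hnet : Net (Op ω) (sq (c.1 - 2 * u, c.2 - 2 * u) (8 * u)) r C) :
    BR b β w (sq (c.1 - 2 * u, c.2 - 2 * u) (8 * u)) ω := by
  classical
  set B := sq (c.1 - 2 * u, c.2 - 2 * u) (8 * u) with hB
  have hmemB : ∀ z : V, z ∈ B ↔ c.1 - 2 * u ≤ z.1 ∧ z.1 < c.1 + 6 * u ∧ c.2 - 2 * u ≤ z.2 ∧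
      z.2 < c.2 + 6 * u := by
    intro z
    rw [hB, mem_sq]
    push_cast
    constructor <;> rintro ⟨h1, h2, h3, h4⟩ <;> refine ⟨?_, ?_, ?_, ?_⟩ <;> omega
  have hmemR : ∀ z : V, z ∈ sq c (4 * u) ↔ c.1 ≤ z.1 ∧ z.1 < c.1 + 4 * u ∧ c.2 ≤ z.2 ∧
      z.2 < c.2 + 4 * u := by
    intro z
    rw [mem_sq]
    push_cast
    exact Iff.rfl
  have hs' := (hmemR s).1 hs
  have he' := (hmemR e).1 he
  -- arithmetic on the parameters
  have hrw' : 16 * r ≤ w := by nlinarith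
  have hr16 : 3 * r + 1 ≤ w := by nlinarith
  -- one corner piece
  obtain ⟨l₀, hl₀⟩ : ∃ l₀, l₀ ∈ (saws (Op ω) (sq c (4 * u)) s e).filter
      (fun l => dlt w l ∧ (∀ z ∈ l, s.1 ≤ z.1) ∧ (∀ z ∈ l, z.2 ≤ e.2)) := by
    by_contra hcon
    push Not at hcon
    have h1 : gs (Op ω) (sq c (4 * u)) b
      (fun l => dlt w l ∧ (∀ z ∈ l, s.1 ≤ z.1) ∧ (∀ z ∈ l, z.2 ≤ e.2)) s e = 0 := by
      unfold gs
      refine Finset.sum_eq_zero fun l hl => absurd ?_ (hcon l)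
      convert hl
    rw [h1] at hsum
    have := Real.exp_pos (A₀ * w)
    linarith
  rw [Finset.mem_filter, mem_saws] at hl₀
  obtain ⟨⟨hp₀, -⟩, hd₀, hleft₀, -⟩ := hl₀
  have hse1 : s.1 ≤ e.1 := hleft₀ e hp₀.1.right_mem
  have hse2 : e.1 < s.1 + w := by
    have h1 := (hd₀ e hp₀.1.right_mem s hp₀.1.left_mem).1
    have h2 := (abs_lt.1 h1).2
    linarith
  -- the arm
  have hHr : ∀ (x z : V), z ∈ Hr x r ↔ x.1 ≤ z.1 ∧ z.1 ≤ x.1 + 3 * r ∧ x.2 ≤ z.2 ∧ z.2 ≤ x.2 + r :=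
    fun x z => mem_rect
  have hVr : ∀ (x z : V), z ∈ Vr x r ↔ x.1 ≤ z.1 ∧ z.1 ≤ x.1 + r ∧ x.2 ≤ z.2 ∧ z.2 ≤ x.2 + 3 * r :=
    fun x z => mem_rect
  have hu16 : 16 * (r : ℤ) ≤ u := by exact_mod_cast hrw'.trans hwu
  have hu1 : (w : ℤ) ≤ u := by exact_mod_cast hwu
  have hr1 : (1 : ℤ) ≤ r := by exact_mod_cast hr
  have hw16 : 16 * (r : ℤ) ≤ w := by exact_mod_cast hrw'
  obtain ⟨v₁, l₁, hv₁, hl₁, hm₁, hlen₁⟩ := ne_arm_hit (O := Op ω) (z := (e.1, e.2 + 1)) (C := C)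
    hr harm
    (by
      refine hnet.1 _ fun z hz => (hmemB z).2 ?_
      obtain ⟨h1, h2, h3, h4⟩ := (hHr _ z).1 hz
      simp only at h1 h2 h3 h4
      refine ⟨?_, ?_, ?_, ?_⟩ <;> omega)
    (by
      refine hnet.2 _ fun z hz => (hmemB z).2 ?_
      obtain ⟨h1, h2, h3, h4⟩ := (hVr _ z).1 hz
      simp only at h1 h2 h3 h4
      refine ⟨?_, ?_, ?_, ?_⟩ <;> omega)
  simp only at hv₁ hl₁ hm₁
  -- travel to the right
  have hG : rect e.1 (s.1 + w + 3 * r) (e.2 + 1) (e.2 + 1 + 3 * r) ⊆ B := by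
    intro z hz
    obtain ⟨h1, h2, h3, h4⟩ := mem_rect.1 hz
    rw [hmemB]
    refine ⟨?_, ?_, ?_, ?_⟩ <;> omega
  have hx' : Hr (s.1 + w, e.2 + 1 + 2 * r) r ⊆
      rect e.1 (s.1 + w + 3 * r) (e.2 + 1) (e.2 + 1 + 3 * r) := by
    intro z hz
    obtain ⟨h1, h2, h3, h4⟩ := (hHr _ z).1 hz
    simp only at h1 h2 h3 h4
    rw [mem_rect]
    refine ⟨?_, ?_, ?_, ?_⟩ <;> omega
  have hx : Hr (e.1, e.2 + 1 + 2 * r) r ⊆
      rect e.1 (s.1 + w + 3 * r) (e.2 + 1) (e.2 + 1 + 3 * r) := by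
    intro z hz
    obtain ⟨h1, h2, h3, h4⟩ := (hHr _ z).1 hz
    simp only at h1 h2 h3 h4
    rw [mem_rect]
    refine ⟨?_, ?_, ?_, ?_⟩ <;> omega
  obtain ⟨lx, hlx⟩ := hnet.1 _ (hx'.trans hG)
  obtain ⟨y, y', hy1, hy2, hy3, -, -⟩ := id hlx
  simp only at hy3
  obtain ⟨l₂, hl₂, hm₂, hlen₂⟩ := travel hr hnet hG hx hx' (le_refl _) (le_refl _) hv₁
    ⟨lx, hlx, hy1.1.left_mem⟩
  -- the whole walk
  have hW := hl₁.append hl₂
  have hWm : ∀ z ∈ l₁ ++ l₂.tail, z ∈ rect e.1 (s.1 + w + 3 * r) (e.2 + 1) (e.2 + 1 + 3 * r) := by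
    intro z hz
    rcases mem_append_tail hz with h | h
    · obtain ⟨h1, h2, h3, h4⟩ := mem_rect.1 (hm₁ z h)
      rw [mem_rect]
      refine ⟨?_, ?_, ?_, ?_⟩ <;> omega
    · exact hm₂ z h
  have hWlen := len_append_tail hl₁ hl₂
  obtain ⟨m, l₃, l₄, hPm, hl₃, hl₄, hWeq, hbefore⟩ := hW.first_hit (fun z => s.1 + w ≤ z.1)
    ⟨y, hW.right_mem, hy3.ge⟩
  have hl₃m : ∀ z ∈ l₃, z ∈ l₁ ++ l₂.tail := fun z hz => by
    rw [hWeq]; exact List.mem_append_left _ hz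
  obtain ⟨l₅, hl₅, hm₅, hlen₅⟩ := hl₃.exists_path
  have hlen₃ : len l₃ ≤ len (l₁ ++ l₂.tail) := by
    rw [hWeq, len_append_tail hl₃ hl₄]
    exact Nat.le_add_right _ _
  have hpos : ∀ z ∈ l₅, e.1 ≤ z.1 ∧ z.1 ≤ m.1 ∧ e.2 + 1 ≤ z.2 ∧ z ∈ B := by
    intro z hz
    have h1 := hWm z (hl₃m z (hm₅ z hz))
    obtain ⟨h2, h3, h4, h5⟩ := mem_rect.1 h1
    refine ⟨h2, ?_, h4, hG h1⟩
    have h6 := hm₅ z hz
    have h7 : l₃ = l₃.dropLast ++ [m] := by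
      have h8 := List.dropLast_append_getLast hl₃.ne_nil
      have h9 : l₃.getLast hl₃.ne_nil = m := by
        have := hl₃.2.2
        rw [List.getLast?_eq_some_getLast hl₃.ne_nil] at this
        exact Option.some.inj this
      rw [h9] at h8
      exact h8.symm
    rw [h7] at h6
    rcases List.mem_append.1 h6 with h8 | h8
    · have h9 := hbefore z h8
      have h10 : s.1 + w ≤ m.1 := hPm
      omega
    · rw [List.mem_singleton] at h8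
      rw [h8]
  have hPm' : s.1 + w ≤ m.1 := hPm
  -- the path from `e`
  have hstep : Step (Op ω) e (e.1, e.2 + 1) := ⟨adj_up e, by rw [edgeOf_up]; exact hopen⟩
  have hπ : IsP (Op ω) e m (e :: l₅) := by
    refine ⟨hl₅.1.cons hstep, List.nodup_cons.2 ⟨fun h => ?_, hl₅.2⟩⟩
    have := (hpos e h).2.2.1
    omega
  have hlenπ : len (e :: l₅) = len l₅ + 1 := by
    have := List.length_pos_iff.2 hl₅.1.ne_nil
    simp only [len, List.length_cons]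
    omega
  have hnrm : nrm ((s.1 + w, e.2 + 1 + 2 * r) - (e.1, e.2 + 1 + 2 * r) : V) ≤ w := by
    simp only [nrm, Prod.fst_sub, Prod.snd_sub]
    refine max_le ?_ ?_ <;> omega
  have hNle : len (e :: l₅) ≤ 9 * C * w := by
    have h1 : len l₂ ≤ 3 * C * (w + r) := hlen₂.trans (Nat.mul_le_mul_left _ (by omega))
    have h2 : len l₅ ≤ (3 * r + 1) ^ 2 + C * r + 3 * C * (w + r) := by omega
    have h3 : C * (16 * r) ≤ C * w := Nat.mul_le_mul_left _ hrw'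
    have h4 : w ≤ C * w := Nat.le_mul_of_pos_left _ hC
    rw [hlenπ]
    nlinarith
  -- conclusion
  have hmB : m ∈ B := (hpos m hl₅.1.right_mem).2.2.2
  have hsB : s ∈ B := by
    rw [hmemB]
    refine ⟨?_, ?_, ?_, ?_⟩ <;> omega
  refine ⟨s, hsB, m, hmB, by omega, ?_⟩
  have key := gs_extend (R := sq c (4 * u)) (R' := B) (b := b)
    (Q := fun l => dlt w l ∧ (∀ z ∈ l, s.1 ≤ z.1) ∧ (∀ z ∈ l, z.2 ≤ e.2)) (Q' := btw s m)
    (x := s) hπ (by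
      rintro l hl hlR ⟨hd, hleft, htop⟩
      have hpt : ∀ v ∈ l ++ (e :: l₅).tail, s.1 ≤ v.1 ∧ v.1 ≤ m.1 ∧ v ∈ B := by
        intro v hv
        rcases List.mem_append.1 hv with hv | hv
        · have h1 := (abs_lt.1 (hd v hv s hl.1.left_mem).1).2
          have h2 := (hmemR v).1 (hlR v hv)
          refine ⟨hleft v hv, by omega, (hmemB v).2 ?_⟩
          refine ⟨?_, ?_, ?_, ?_⟩ <;> omega
        · have h1 := hpos v hv
          exact ⟨by omega, h1.2.1, h1.2.2.2⟩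
      refine ⟨?_, fun v hv => (hpt v hv).2.2, ?_⟩
      · intro v hv hvπ
        rcases List.mem_cons.1 hvπ with h1 | h1
        · exact h1
        · have h2 := (hpos v h1).2.2.1
          have h3 := htop v hv
          omega
      · intro v hv
        have h1 := hpt v hv
        rw [min_eq_left (by omega), max_eq_right (by omega)]
        exact ⟨h1.1, h1.2.1⟩)
  refine le_trans ?_ key
  have h1 : Real.exp (-(b * (9 * C * w))) ≤ Real.exp (-(b * (len (e :: l₅) : ℝ))) := by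
    apply Real.exp_le_exp.2
    have h2 : ((len (e :: l₅) : ℕ) : ℝ) ≤ 9 * C * w := by exact_mod_cast hNle
    nlinarith
  have h2 : Real.exp (A₀ * w) / 4 * Real.exp (-(b * (9 * C * w))) ≤
      gs (Op ω) (sq c (4 * u)) b
        (fun l => dlt w l ∧ (∀ z ∈ l, s.1 ≤ z.1) ∧ (∀ z ∈ l, z.2 ≤ e.2)) s e *
        Real.exp (-(b * (len (e :: l₅) : ℝ))) :=
    mul_le_mul hsum h1 (Real.exp_pos _).le (gs_nonneg _ _ _ _ _ _)
  refine le_trans ?_ h2
  have h4 : (4 : ℝ) ≤ Real.exp w := by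
    have h5 : (2 : ℝ) ≤ Real.exp 1 := by
      have := Real.add_one_le_exp (1 : ℝ)
      linarith
    have h6 : (4 : ℝ) ≤ Real.exp 2 := by
      have h7 : Real.exp 2 = Real.exp 1 * Real.exp 1 := by
        rw [← Real.exp_add]; norm_num
      rw [h7]
      nlinarith
    refine h6.trans (Real.exp_le_exp.2 ?_)
    exact_mod_cast hw
  have h5 : Real.exp (β / 4 * w) * Real.exp w ≤ Real.exp (A₀ * w) * Real.exp (-(b * (9 * C * w))) := by
    rw [← Real.exp_add, ← Real.exp_add]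
    apply Real.exp_le_exp.2
    have h6 : (0 : ℝ) ≤ w := Nat.cast_nonneg _
    nlinarith [mul_le_mul_of_nonneg_right hA h6]
  have h6 := Real.exp_pos (β / 4 * w)
  nlinarith [mul_le_mul_of_nonneg_left h4 h6.le]

end Pool.Agent.SAWP
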