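import Pool.Agent.SAWP.Meas

/-!
# SAWP, case L: exploration lemma (module L5; paper 4.1)

`(Q i)`, `i ∈ I` finite, events with levels `lev i ∈ ℤ`; `D a` edge sets increasing in `a`; `Q i` depends only on `D (lev i)`, `R i` only on the
complement of `D (lev i)`, all finitely dependent, `P(R i) ≥ θ`.  Then `P(⋃ Q_i ∩ R_i) ≥ θ P(⋃ Q_i)`.
Proof. Order `I` by the level, ties by a fixed linear order (e.g. enumerate `I` by a list sorted by level).  Let
`F_i = Q_i ∩ ⋂_{i' before i} (Q_{i'})ᶜ`: it depends only on `D (lev i)` (for `i'` before `i`, `lev i' ≤ lev i`).  The `F_i` are disjoint with union `⋃ Q_i`;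
`P(⋃ (Q_i ∩ R_i)) ≥ ∑ P(F_i ∩ R_i) = ∑ P(F_i) P(R_i) ≥ θ ∑ P(F_i)` (`PR_indep`).
-/

set_option autoImplicit false

open MeasureTheory

namespace Pool.Agent.SAWP

private lemma explore_FD_inter {A B : Set Cfg} (hA : FD A) (hB : FD B) : FD (A ∩ B) := by
  classical
  obtain ⟨F, hF⟩ := hA
  obtain ⟨G, hG⟩ := hB
  refine ⟨F ∪ G, Dep.inter (hF.mono ?_) (hG.mono ?_)⟩
  · intro e he; simp only [Finset.coe_union, Set.mem_union]; exact Or.inl he
  · intro e he; simp only [Finset.coe_union, Set.mem_union]; exact Or.inr he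

private lemma explore_FD_compl {A : Set Cfg} (hA : FD A) : FD Aᶜ := by
  obtain ⟨F, hF⟩ := hA
  exact ⟨F, hF.compl⟩

private lemma explore_FD_biUnion {ι : Type*} (s : Finset ι) (A : ι → Set Cfg)
    (h : ∀ i ∈ s, FD (A i)) : FD (⋃ i ∈ s, A i) := by
  classical
  choose! F hF using h
  refine ⟨s.biUnion F, Dep.iUnion fun i => Dep.iUnion fun hi => (hF i hi).mono ?_⟩
  intro e he
  simp only [Finset.coe_biUnion, Set.mem_iUnion]
  exact ⟨i, hi, he⟩

private lemma explore_PR_union (p : unitInterval) {A B : Set Cfg} (hd : Disjoint A B)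
    (hB : MeasurableSet B) : PR p (A ∪ B) = PR p A + PR p B := by
  unfold PR
  exact measureReal_union hd hB

theorem exploration (p : unitInterval) {ι : Type*} (I : Finset ι) (Q R : ι → Set Cfg)
    (lev : ι → ℤ) (D : ℤ → Set Edge) (hD : Monotone D)
    (hQ : ∀ i ∈ I, Dep (D (lev i)) (Q i)) (hQF : ∀ i ∈ I, FD (Q i))
    (hR : ∀ i ∈ I, Dep (D (lev i))ᶜ (R i)) (hRF : ∀ i ∈ I, FD (R i)) {θ : ℝ}
    (hθ : ∀ i ∈ I, θ ≤ PR p (R i)) :
    θ * PR p (⋃ i ∈ I, Q i) ≤ PR p (⋃ i ∈ I, Q i ∩ R i) := by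
  classical
  induction I using Finset.induction_on_max_value lev with
  | empty => simp [PR]
  | insert a s ha hmax ih =>
    have hs : ∀ i ∈ s, i ∈ insert a s := fun i hi => Finset.mem_insert_of_mem hi
    have haI : a ∈ insert a s := Finset.mem_insert_self a s
    have IH := ih (fun i hi => hQ i (hs i hi)) (fun i hi => hQF i (hs i hi))
      (fun i hi => hR i (hs i hi)) (fun i hi => hRF i (hs i hi)) (fun i hi => hθ i (hs i hi))
    rw [Finset.set_biUnion_insert, Finset.set_biUnion_insert]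
    set U : Set Cfg := ⋃ i ∈ s, Q i with hU
    set V : Set Cfg := ⋃ i ∈ s, Q i ∩ R i with hV
    have hVU : V ⊆ U := by
      refine Set.iUnion₂_mono fun i _ => Set.inter_subset_left
    have hUF : FD U := explore_FD_biUnion s Q (fun i hi => hQF i (hs i hi))
    have hUD : Dep (D (lev a)) U :=
      Dep.iUnion fun i => Dep.iUnion fun hi => (hQ i (hs i hi)).mono (hD (hmax i hi))
    have hFF : FD (Q a ∩ Uᶜ) := explore_FD_inter (hQF a haI) (explore_FD_compl hUF)
    have hFD : Dep (D (lev a)) (Q a ∩ Uᶜ) := (hQ a haI).inter hUD.compl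
    have hRa := hRF a haI
    have e1 : PR p ((Q a ∩ Uᶜ) ∩ R a) = PR p (Q a ∩ Uᶜ) * PR p (R a) :=
      PR_indep p hFD (hR a haI) disjoint_compl_right hFF hRa
    have e2 : Q a ∪ U = U ∪ (Q a ∩ Uᶜ) := by
      ext ω
      simp only [Set.mem_union, Set.mem_inter_iff, Set.mem_compl_iff]
      tauto
    have e3 : PR p (Q a ∪ U) = PR p U + PR p (Q a ∩ Uᶜ) := by
      rw [e2]
      refine explore_PR_union p ?_ hFF.measurableSet
      rw [Set.disjoint_left]
      intro ω h1 h2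
      exact h2.2 h1
    have e4 : V ∪ ((Q a ∩ Uᶜ) ∩ R a) ⊆ (Q a ∩ R a) ∪ V := by
      intro ω hω
      rcases hω with h | h
      · exact Or.inr h
      · exact Or.inl ⟨h.1.1, h.2⟩
    have e5 : PR p (V ∪ ((Q a ∩ Uᶜ) ∩ R a)) = PR p V + PR p ((Q a ∩ Uᶜ) ∩ R a) := by
      refine explore_PR_union p ?_ (explore_FD_inter hFF hRa).measurableSet
      rw [Set.disjoint_left]
      intro ω h1 h2
      exact h2.1.2 (hVU h1)
    have h6 : θ * PR p (Q a ∩ Uᶜ) ≤ PR p (Q a ∩ Uᶜ) * PR p (R a) := by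
      rw [mul_comm]
      exact mul_le_mul_of_nonneg_left (hθ a haI) (PR_nonneg p _)
    calc θ * PR p (Q a ∪ U) = θ * PR p U + θ * PR p (Q a ∩ Uᶜ) := by rw [e3]; ring
      _ ≤ PR p V + PR p ((Q a ∩ Uᶜ) ∩ R a) := by rw [e1]; exact add_le_add IH h6
      _ = PR p (V ∪ ((Q a ∩ Uᶜ) ∩ R a)) := e5.symm
      _ ≤ PR p ((Q a ∩ R a) ∪ V) := PR_mono p e4

end Pool.Agent.SAWP
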