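import Pool.Agent.SAWP.L.LDefs

/-!
# SAWP, case L: symmetries of the K-bad event (module L6; paper 4.2)

Lattice automorphisms (translations, `x₁ ↦ -x₁`, `x₂ ↦ -x₂`, transposition) act on vertices, edges (`edgeOf (φ x) (φ y) = φE (edgeOf x y)` for adjacent
`x,y`), configurations; paths are mapped by `List.map φ`; `gs` is invariant; `PR_perm` gives equality of probabilities.

`type1 … c` : some `s, m ∈ sq c L`, `m₁ - s₁ ≥ w`, `gs (btw s m) ≥ e^{(β/4)w}` (this is `BR` with `B = sq c L`).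
`type2 … c` : some `s, e ∈ sq c L` with sum over the paths of diameter `< w`, `s` leftmost, `e` topmost `≥ e^{A₀w}/4`.

`kbad_split`: `P(KBad b β A₀ w (sq 0 L)) ≤ 2 P(type1) + 4 P(type2)`.
Clause (1) of `KBad` is `type1` (if `m₁ < s₁` exchange `s, m` by `gs_reverse`; `btw` is symmetric); clause (2) is the transpose of clause (1).
Clause (3): `hext s ∧ vext e` is a union of four cases, one of the four sums is `≥ e^{A₀w}/4`; each is the image of `type2` under a reflection of the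
square `sq 0 L` (`x₁ ↦ L-1-x₁` etc.).
-/

set_option autoImplicit false

open MeasureTheory

namespace Pool.Agent.SAWP

/-! ### Lattice automorphisms -/

/-- Automorphisms of the square lattice with their action on edges. -/
structure LAut where
  /-- action on vertices -/
  φ : V ≃ V
  /-- action on edges -/
  ψ : Edge ≃ Edge
  adj : ∀ x y, Adj (φ x) (φ y) ↔ Adj x y
  edge : ∀ x y, Adj x y → edgeOf (φ x) (φ y) = ψ (edgeOf x y)

/-- Composition. -/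
def LAut.comp (a a' : LAut) : LAut where
  φ := a.φ.trans a'.φ
  ψ := a.ψ.trans a'.ψ
  adj x y := by simp [a.adj, a'.adj]
  edge x y h := by
    simp only [Equiv.trans_apply]
    rw [a'.edge _ _ ((a.adj x y).2 h), a.edge x y h]

/-- Action on configurations. -/
def LAut.act (a : LAut) (ω : Cfg) : Cfg := fun e => ω (a.ψ e)

lemma LAut.step_iff (a : LAut) (ω : Cfg) (x y : V) :
    Step (Op ω) (a.φ x) (a.φ y) ↔ Step (Op (a.act ω)) x y := by
  unfold Step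
  rw [a.adj]
  refine and_congr_right fun h => ?_
  rw [a.edge x y h]
  rfl

lemma LAut.isP_iff (a : LAut) (ω : Cfg) (x y : V) (l : List V) :
    IsP (Op ω) (a.φ x) (a.φ y) (l.map a.φ) ↔ IsP (Op (a.act ω)) x y l := by
  unfold IsP IsW
  rw [List.isChain_map, List.head?_map, List.getLast?_map, List.nodup_map_iff a.φ.injective]
  simp only [a.step_iff, Option.map_eq_some_iff, a.φ.injective.eq_iff, exists_eq_right]

/-- Invariance of the weighted sums under lattice automorphisms. -/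
lemma LAut.gs_eq (a : LAut) (ω : Cfg) {R R' : Finset V} (hR : ∀ z, a.φ z ∈ R' ↔ z ∈ R) (b : ℝ)
    {Q Q' : List V → Prop} (hQ : ∀ l, Q' (l.map a.φ) ↔ Q l) (x y : V) :
    gs (Op (a.act ω)) R b Q x y = gs (Op ω) R' b Q' (a.φ x) (a.φ y) := by
  classical
  unfold gs
  refine Finset.sum_bij' (fun l _ => l.map a.φ) (fun l _ => l.map a.φ.symm) ?_ ?_ ?_ ?_ ?_
  · intro l hl
    rw [Finset.mem_filter, mem_saws] at hl ⊢
    refine ⟨⟨(a.isP_iff ω x y l).2 hl.1.1, ?_⟩, (hQ l).2 hl.2⟩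
    intro z hz
    obtain ⟨z', hz', rfl⟩ := List.mem_map.1 hz
    exact (hR z').2 (hl.1.2 z' hz')
  · intro l hl
    rw [Finset.mem_filter, mem_saws] at hl ⊢
    have h1 : (l.map a.φ.symm).map a.φ = l := by
      rw [List.map_map]; simp
    refine ⟨⟨(a.isP_iff ω x y _).1 (by rw [h1]; exact hl.1.1), ?_⟩, (hQ _).1 (by rw [h1]; exact hl.2)⟩
    intro z hz
    obtain ⟨z', hz', rfl⟩ := List.mem_map.1 hz
    exact (hR _).1 (by rw [a.φ.apply_symm_apply]; exact hl.1.2 z' hz')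
  · intro l _
    rw [List.map_map]; simp
  · intro l _
    rw [List.map_map]; simp
  · intro l _
    simp [len]

/-- Invariance of probabilities. -/
lemma LAut.PR_eq (a : LAut) (p : unitInterval) {A : Set Cfg} (hA : FD A) :
    PR p {ω | a.act ω ∈ A} = PR p A := PR_perm p a.ψ hA.measurableSet

/-- Translation by `t`. -/
def LAut.shift (t : V) : LAut where
  φ := Equiv.addRight t
  ψ := (Equiv.addRight t).prodCongr (Equiv.refl Bool)
  adj x y := by simp [Adj]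
  edge x y _ := by
    simp only [Equiv.coe_addRight, edgeOf, Prod.fst_add, Prod.snd_add, add_left_inj,
      Equiv.prodCongr_apply, Prod.map_apply, Equiv.refl_apply, Prod.mk.injEq, and_true]
    ext <;> simp

/-- Transposition. -/
def LAut.swap : LAut where
  φ := Equiv.prodComm ℤ ℤ
  ψ := (Equiv.prodComm ℤ ℤ).prodCongr Equiv.boolNot
  adj x y := by simp [Adj, add_comm]
  edge x y h := by
    obtain ⟨a1, a2⟩ := x
    obtain ⟨b1, b2⟩ := y
    rcases adj_cases h with h | h | h | h <;> simp only [Prod.mk.injEq] at h <;>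
      obtain ⟨rfl, rfl⟩ := h <;> simp [edgeOf]

/-- The edge action of the reflection `x₁ ↦ K - x₁`. -/
def reflE (K : ℤ) : Edge ≃ Edge where
  toFun e := if e.2 then ((K - e.1.1, e.1.2), true) else ((K - 1 - e.1.1, e.1.2), false)
  invFun e := if e.2 then ((K - e.1.1, e.1.2), true) else ((K - 1 - e.1.1, e.1.2), false)
  left_inv e := by
    obtain ⟨⟨a, b⟩, t⟩ := e
    cases t <;> simp
  right_inv e := by
    obtain ⟨⟨a, b⟩, t⟩ := e
    cases t <;> simp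

/-- The reflection `x₁ ↦ K - x₁`. -/
def LAut.refl1 (K : ℤ) : LAut where
  φ := (Equiv.subLeft K).prodCongr (Equiv.refl ℤ)
  ψ := reflE K
  adj x y := by
    simp only [Adj, Equiv.prodCongr_apply, Prod.map_fst, Prod.map_snd, Equiv.subLeft_apply,
      Equiv.refl_apply]
    have : K - x.1 - (K - y.1) = y.1 - x.1 := by ring
    rw [this, abs_sub_comm y.1 x.1]
  edge x y h := by
    obtain ⟨a1, a2⟩ := x
    obtain ⟨b1, b2⟩ := y
    rcases adj_cases h with h | h | h | h <;> simp only [Prod.mk.injEq] at h <;>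
      obtain ⟨rfl, rfl⟩ := h <;> simp [edgeOf, reflE] <;> omega

/-- The reflection `x₂ ↦ K - x₂`. -/
def LAut.refl2 (K : ℤ) : LAut := (LAut.swap.comp (LAut.refl1 K)).comp LAut.swap

lemma LAut.shift_apply (t z : V) : (LAut.shift t).φ z = z + t := rfl
lemma LAut.swap_apply (z : V) : LAut.swap.φ z = (z.2, z.1) := rfl
lemma LAut.refl1_apply (K : ℤ) (z : V) : (LAut.refl1 K).φ z = (K - z.1, z.2) := rfl
lemma LAut.refl2_apply (K : ℤ) (z : V) : (LAut.refl2 K).φ z = (z.1, K - z.2) := rfl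

/-! ### Dependence -/

lemma gs_inter_eS (O : Set Edge) (B : Finset V) (b : ℝ) (Q : List V → Prop) (x y : V) :
    gs (O ∩ (↑(eF B) : Set Edge)) B b Q x y = gs O B b Q x y := by
  refine gs_congr fun l => ?_
  constructor
  · rintro ⟨h1, h2, h3⟩
    exact ⟨h1.mono Set.inter_subset_left, h2, h3⟩
  · rintro ⟨h1, h2, h3⟩
    refine ⟨?_, h2, h3⟩
    rw [coe_eF]
    exact h1.restrict h2

/-- Corner event of fixed type: `s` leftmost, `e` topmost. -/
def T2 (b A₀ : ℝ) (w : ℕ) (B : Finset V) (ω : Cfg) : Prop :=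
  ∃ s ∈ B, ∃ e ∈ B, Real.exp (A₀ * w) / 4 ≤ gs (Op ω) B b
    (fun l => dlt w l ∧ (∀ z ∈ l, s.1 ≤ z.1) ∧ (∀ z ∈ l, z.2 ≤ e.2)) s e

theorem dep_BR (b β : ℝ) (w : ℕ) (B : Finset V) :
    Dep (↑(eF B) : Set Edge) {ω | BR b β w B ω} := by
  have h := dep_of_op (D := (↑(eF B) : Set Edge)) (fun O => ∃ s ∈ B, ∃ m ∈ B,
    (w : ℤ) ≤ m.1 - s.1 ∧ Real.exp (β / 4 * w) ≤ gs O B b (btw s m) s m)
  simp only [gs_inter_eS] at h
  exact h

theorem dep_T2 (b A₀ : ℝ) (w : ℕ) (B : Finset V) :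
    Dep (↑(eF B) : Set Edge) {ω | T2 b A₀ w B ω} := by
  have h := dep_of_op (D := (↑(eF B) : Set Edge)) (fun O => ∃ s ∈ B, ∃ e ∈ B,
    Real.exp (A₀ * w) / 4 ≤ gs O B b
      (fun l => dlt w l ∧ (∀ z ∈ l, s.1 ≤ z.1) ∧ (∀ z ∈ l, z.2 ≤ e.2)) s e)
  simp only [gs_inter_eS] at h
  exact h

theorem dep_TB (b β : ℝ) (w : ℕ) (B : Finset V) (h : ℕ) (cs cm : V) :
    Dep (↑(eF B) : Set Edge) {ω | TB b β w B h cs cm ω} := by
  have h := dep_of_op (D := (↑(eF B) : Set Edge)) (fun O => ∃ s ∈ B, ∃ m ∈ B,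
    s ∈ sq cs h ∧ m ∈ sq cm h ∧
    (w : ℤ) ≤ m.1 - s.1 ∧ Real.exp (β / 4 * w) ≤ gs O B b (btw s m) s m)
  simp only [gs_inter_eS] at h
  exact h

/-! ### Translations -/

lemma mem_sq_add {c t : V} {L : ℕ} {z : V} : z + t ∈ sq (c + t) L ↔ z ∈ sq c L := by
  rw [mem_sq, mem_sq]
  simp only [Prod.fst_add, Prod.snd_add]
  constructor <;> rintro ⟨h1, h2, h3, h4⟩ <;> refine ⟨?_, ?_, ?_, ?_⟩ <;> omega

lemma btw_shift (t s m : V) (l : List V) :
    btw (s + t) (m + t) (l.map (LAut.shift t).φ) ↔ btw s m l := by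
  unfold btw
  simp only [List.mem_map, forall_exists_index, and_imp, forall_apply_eq_imp_iff₂,
    LAut.shift_apply, Prod.fst_add]
  refine forall₂_congr fun z _ => ?_
  omega

lemma TB_shift (b β : ℝ) (w L h : ℕ) (c cs cm t : V) (ω : Cfg) :
    TB b β w (sq (c + t) L) h (cs + t) (cm + t) ω ↔
      TB b β w (sq c L) h cs cm ((LAut.shift t).act ω) := by
  have key : ∀ s m : V, gs (Op ((LAut.shift t).act ω)) (sq c L) b (btw s m) s m =
      gs (Op ω) (sq (c + t) L) b (btw (s + t) (m + t)) (s + t) (m + t) := fun s m =>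
    (LAut.shift t).gs_eq ω (fun z => mem_sq_add) b (fun l => btw_shift t s m l) s m
  constructor
  · rintro ⟨s, hs, m, hm, h1, h2, h3, h4⟩
    refine ⟨s - t, ?_, m - t, ?_, ?_, ?_, ?_, ?_⟩
    · rw [← mem_sq_add (t := t)]; simpa using hs
    · rw [← mem_sq_add (t := t)]; simpa using hm
    · rw [← mem_sq_add (t := t)]; simpa using h1
    · rw [← mem_sq_add (t := t)]; simpa using h2
    · simp only [Prod.fst_sub]; omega
    · rw [key]; simpa using h4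
  · rintro ⟨s, hs, m, hm, h1, h2, h3, h4⟩
    refine ⟨s + t, mem_sq_add.2 hs, m + t, mem_sq_add.2 hm, mem_sq_add.2 h1, mem_sq_add.2 h2, ?_, ?_⟩
    · simp only [Prod.fst_add]; omega
    · rw [← key]; exact h4

lemma BR_shift (b β : ℝ) (w L : ℕ) (c t : V) (ω : Cfg) :
    BR b β w (sq (c + t) L) ω ↔ BR b β w (sq c L) ((LAut.shift t).act ω) := by
  have key : ∀ s m : V, gs (Op ((LAut.shift t).act ω)) (sq c L) b (btw s m) s m =
      gs (Op ω) (sq (c + t) L) b (btw (s + t) (m + t)) (s + t) (m + t) := fun s m =>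
    (LAut.shift t).gs_eq ω (fun z => mem_sq_add) b (fun l => btw_shift t s m l) s m
  constructor
  · rintro ⟨s, hs, m, hm, h3, h4⟩
    refine ⟨s - t, ?_, m - t, ?_, ?_, ?_⟩
    · rw [← mem_sq_add (t := t)]; simpa using hs
    · rw [← mem_sq_add (t := t)]; simpa using hm
    · simp only [Prod.fst_sub]; omega
    · rw [key]; simpa using h4
  · rintro ⟨s, hs, m, hm, h3, h4⟩
    refine ⟨s + t, mem_sq_add.2 hs, m + t, mem_sq_add.2 hm, ?_, ?_⟩
    · simp only [Prod.fst_add]; omega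
    · rw [← key]; exact h4

theorem BR_translate (p : unitInterval) (b β : ℝ) (w L : ℕ) (c c' : V) :
    PR p {ω | BR b β w (sq c L) ω} = PR p {ω | BR b β w (sq c' L) ω} := by
  have h := (LAut.shift (c' - c)).PR_eq p (A := {ω | BR b β w (sq c L) ω}) ⟨_, dep_BR b β w _⟩
  rw [← h]
  congr 1
  ext ω
  have h2 := BR_shift b β w L c (c' - c) ω
  rw [add_sub_cancel] at h2
  exact h2.symm

theorem TB_translate (p : unitInterval) (b β : ℝ) (w L h : ℕ) (c cs cm t : V) :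
    PR p {ω | TB b β w (sq (c + t) L) h (cs + t) (cm + t) ω} =
      PR p {ω | TB b β w (sq c L) h cs cm ω} := by
  rw [← (LAut.shift t).PR_eq p (A := {ω | TB b β w (sq c L) h cs cm ω}) ⟨_, dep_TB b β w _ h cs cm⟩]
  congr 1
  ext ω
  exact TB_shift b β w L h c cs cm t ω

/-! ### Splitting of the K-bad event -/

lemma btw_comm (s m : V) (l : List V) : btw s m l ↔ btw m s l := by
  unfold btw; rw [min_comm s.1, max_comm s.1]

lemma btw_reverse (s m : V) (l : List V) : btw s m l.reverse ↔ btw s m l := by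
  unfold btw; simp

/-- Clause (1) of `KBad` gives a bridge. -/
lemma clause1 {b β : ℝ} {w : ℕ} {B : Finset V} {ω : Cfg}
    (h : ∃ s ∈ B, ∃ m ∈ B, (w : ℤ) ≤ |m.1 - s.1| ∧
      Real.exp (β / 4 * w) ≤ gs (Op ω) B b (btw s m) s m) : BR b β w B ω := by
  obtain ⟨s, hs, m, hm, h1, h2⟩ := h
  rcases le_total 0 (m.1 - s.1) with h3 | h3
  · rw [abs_of_nonneg h3] at h1
    exact ⟨s, hs, m, hm, h1, h2⟩
  · rw [abs_of_nonpos h3] at h1
    refine ⟨m, hm, s, hs, by omega, h2.trans (le_of_eq ?_)⟩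
    rw [gs_reverse]
    refine gs_congr fun l => ?_
    rw [btw_reverse, btw_comm]

lemma vbtw_swap (s m : V) (l : List V) :
    vbtw s m (l.map LAut.swap.φ) ↔ btw (LAut.swap.φ s) (LAut.swap.φ m) l := by
  unfold btw vbtw
  simp only [List.mem_map, forall_exists_index, and_imp, forall_apply_eq_imp_iff₂,
    LAut.swap_apply]

lemma mem_sq_swap {L : ℕ} (z : V) : LAut.swap.φ z ∈ sq (0, 0) L ↔ z ∈ sq (0, 0) L := by
  rw [mem_sq, mem_sq, LAut.swap_apply]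
  simp only
  constructor <;> rintro ⟨h1, h2, h3, h4⟩ <;> refine ⟨?_, ?_, ?_, ?_⟩ <;> omega

lemma mem_sq_refl1 {L : ℕ} (z : V) : (LAut.refl1 (L - 1)).φ z ∈ sq (0, 0) L ↔ z ∈ sq (0, 0) L := by
  rw [mem_sq, mem_sq, LAut.refl1_apply]
  simp only
  constructor <;> rintro ⟨h1, h2, h3, h4⟩ <;> refine ⟨?_, ?_, ?_, ?_⟩ <;> omega

lemma mem_sq_refl2 {L : ℕ} (z : V) : (LAut.refl2 (L - 1)).φ z ∈ sq (0, 0) L ↔ z ∈ sq (0, 0) L := by
  rw [mem_sq, mem_sq, LAut.refl2_apply]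
  simp only
  constructor <;> rintro ⟨h1, h2, h3, h4⟩ <;> refine ⟨?_, ?_, ?_, ?_⟩ <;> omega

/-- Clause (2) of `KBad` is the transpose of clause (1). -/
lemma clause2 {b β : ℝ} {w L : ℕ} {ω : Cfg}
    (h : ∃ s ∈ sq (0, 0) L, ∃ m ∈ sq (0, 0) L, (w : ℤ) ≤ |m.2 - s.2| ∧
      Real.exp (β / 4 * w) ≤ gs (Op ω) (sq (0, 0) L) b (vbtw s m) s m) :
    BR b β w (sq (0, 0) L) (LAut.swap.act ω) := by
  obtain ⟨s, hs, m, hm, h1, h2⟩ := h
  refine clause1 ⟨LAut.swap.φ s, (mem_sq_swap s).2 hs, LAut.swap.φ m, (mem_sq_swap m).2 hm, h1,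
    h2.trans (le_of_eq ?_)⟩
  exact (LAut.swap.gs_eq ω (fun z => mem_sq_swap z) b (fun l => vbtw_swap s m l)
    (LAut.swap.φ s) (LAut.swap.φ m)).symm

lemma dlt_map (a : LAut) (ha : ∀ z z' : V, ∀ w : ℕ,
    (|(a.φ z).1 - (a.φ z').1| < (w : ℤ) ∧ |(a.φ z).2 - (a.φ z').2| < (w : ℤ)) ↔
      (|z.1 - z'.1| < (w : ℤ) ∧ |z.2 - z'.2| < (w : ℤ))) (w : ℕ) (l : List V) :
    dlt w (l.map a.φ) ↔ dlt w l := by
  unfold dlt
  simp only [List.mem_map, forall_exists_index, and_imp, forall_apply_eq_imp_iff₂, ha]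

/-- A corner sum of one of the four types gives `T2` for a reflected configuration. -/
lemma clause3 {b A₀ : ℝ} {w L : ℕ} {ω : Cfg}
    (h : ∃ s ∈ sq (0, 0) L, ∃ e ∈ sq (0, 0) L,
      Real.exp (A₀ * w) ≤ gs (Op ω) (sq (0, 0) L) b (fun l => dlt w l ∧ hext s l ∧ vext e l) s e) :
    T2 b A₀ w (sq (0, 0) L) ω ∨ T2 b A₀ w (sq (0, 0) L) ((LAut.refl1 (L - 1)).act ω) ∨
      T2 b A₀ w (sq (0, 0) L) ((LAut.refl2 (L - 1)).act ω) ∨
      T2 b A₀ w (sq (0, 0) L) (((LAut.refl1 (L - 1)).comp (LAut.refl2 (L - 1))).act ω) := by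
  classical
  obtain ⟨s, hs, e, he, h1⟩ := h
  set B := sq (0, 0) L with hB
  -- the four types
  have h4 : gs (Op ω) B b (fun l => dlt w l ∧ hext s l ∧ vext e l) s e ≤
      gs (Op ω) B b (fun l => dlt w l ∧ (∀ z ∈ l, s.1 ≤ z.1) ∧ (∀ z ∈ l, z.2 ≤ e.2)) s e +
      gs (Op ω) B b (fun l => dlt w l ∧ (∀ z ∈ l, z.1 ≤ s.1) ∧ (∀ z ∈ l, z.2 ≤ e.2)) s e +
      gs (Op ω) B b (fun l => dlt w l ∧ (∀ z ∈ l, s.1 ≤ z.1) ∧ (∀ z ∈ l, e.2 ≤ z.2)) s e +
      gs (Op ω) B b (fun l => dlt w l ∧ (∀ z ∈ l, z.1 ≤ s.1) ∧ (∀ z ∈ l, e.2 ≤ z.2)) s e := by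
    have hor : ∀ Q Q' : List V → Prop, gs (Op ω) B b (fun l => Q l ∨ Q' l) s e ≤
        gs (Op ω) B b Q s e + gs (Op ω) B b Q' s e := by
      intro Q Q'
      unfold gs
      rw [← Finset.sum_union_inter]
      refine le_trans (le_of_eq (Finset.sum_congr ?_ fun _ _ => rfl))
        (le_add_of_nonneg_right (Finset.sum_nonneg fun _ _ => (Real.exp_pos _).le))
      ext l
      simp only [Finset.mem_filter, Finset.mem_union]
      tauto
    refine le_trans ?_ (add_le_add_left (add_le_add_left (hor _ _) _) _)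
    refine le_trans ?_ (add_le_add_left (hor _ _) _)
    refine le_trans ?_ (hor _ _)
    refine gs_mono fun l h1 h2 h3 => ⟨h1, h2, ?_⟩
    obtain ⟨h5, h6, h7⟩ := h3
    rcases h6 with h6 | h6 <;> rcases h7 with h7 | h7 <;> tauto
  have h5 : Real.exp (A₀ * w) / 4 ≤
        gs (Op ω) B b (fun l => dlt w l ∧ (∀ z ∈ l, s.1 ≤ z.1) ∧ (∀ z ∈ l, z.2 ≤ e.2)) s e ∨
      Real.exp (A₀ * w) / 4 ≤
        gs (Op ω) B b (fun l => dlt w l ∧ (∀ z ∈ l, z.1 ≤ s.1) ∧ (∀ z ∈ l, z.2 ≤ e.2)) s e ∨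
      Real.exp (A₀ * w) / 4 ≤
        gs (Op ω) B b (fun l => dlt w l ∧ (∀ z ∈ l, s.1 ≤ z.1) ∧ (∀ z ∈ l, e.2 ≤ z.2)) s e ∨
      Real.exp (A₀ * w) / 4 ≤
        gs (Op ω) B b (fun l => dlt w l ∧ (∀ z ∈ l, z.1 ≤ s.1) ∧ (∀ z ∈ l, e.2 ≤ z.2)) s e := by
    by_contra hcon
    push Not at hcon
    obtain ⟨c1, c2, c3, c4⟩ := hcon
    linarith
  have hr1 : ∀ z, (LAut.refl1 ((L : ℤ) - 1)).φ ((LAut.refl1 ((L : ℤ) - 1)).φ z) = z := by
    intro z; simp [LAut.refl1_apply]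
  have hr2 : ∀ z, (LAut.refl2 ((L : ℤ) - 1)).φ ((LAut.refl2 ((L : ℤ) - 1)).φ z) = z := by
    intro z; simp [LAut.refl2_apply]
  have hd1 : ∀ (l : List V), dlt w (l.map (LAut.refl1 ((L : ℤ) - 1)).φ) ↔ dlt w l := by
    refine fun l => dlt_map _ (fun z z' w => ?_) w l
    simp only [LAut.refl1_apply]
    have : (L : ℤ) - 1 - z.1 - ((L : ℤ) - 1 - z'.1) = z'.1 - z.1 := by ring
    rw [this, abs_sub_comm z'.1]
  have hd2 : ∀ (l : List V), dlt w (l.map (LAut.refl2 ((L : ℤ) - 1)).φ) ↔ dlt w l := by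
    refine fun l => dlt_map _ (fun z z' w => ?_) w l
    simp only [LAut.refl2_apply]
    have : (L : ℤ) - 1 - z.2 - ((L : ℤ) - 1 - z'.2) = z'.2 - z.2 := by ring
    rw [this, abs_sub_comm z'.2]
  have hd3 : ∀ (l : List V), dlt w (l.map
      ((LAut.refl1 ((L : ℤ) - 1)).comp (LAut.refl2 ((L : ℤ) - 1))).φ) ↔ dlt w l := by
    intro l
    have : l.map ((LAut.refl1 ((L : ℤ) - 1)).comp (LAut.refl2 ((L : ℤ) - 1))).φ =
        (l.map (LAut.refl1 ((L : ℤ) - 1)).φ).map (LAut.refl2 ((L : ℤ) - 1)).φ := by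
      rw [List.map_map]; rfl
    rw [this, hd2, hd1]
  rcases h5 with h5 | h5 | h5 | h5
  · exact Or.inl ⟨s, hs, e, he, h5⟩
  · refine Or.inr (Or.inl ⟨(LAut.refl1 (L - 1)).φ s, (mem_sq_refl1 s).2 hs,
      (LAut.refl1 (L - 1)).φ e, (mem_sq_refl1 e).2 he, h5.trans (le_of_eq ?_)⟩)
    symm
    rw [(LAut.refl1 ((L : ℤ) - 1)).gs_eq ω (R' := B) (fun z => mem_sq_refl1 z) b
      (Q' := fun l => dlt w l ∧ (∀ z ∈ l, z.1 ≤ s.1) ∧ (∀ z ∈ l, z.2 ≤ e.2)), hr1, hr1]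
    intro l
    rw [hd1]
    simp only [List.mem_map, forall_exists_index, and_imp, forall_apply_eq_imp_iff₂,
      LAut.refl1_apply]
    refine and_congr_right fun _ => and_congr (forall₂_congr fun z _ => ?_) Iff.rfl
    omega
  · refine Or.inr (Or.inr (Or.inl ⟨(LAut.refl2 (L - 1)).φ s, (mem_sq_refl2 s).2 hs,
      (LAut.refl2 (L - 1)).φ e, (mem_sq_refl2 e).2 he, h5.trans (le_of_eq ?_)⟩))
    symm
    rw [(LAut.refl2 ((L : ℤ) - 1)).gs_eq ω (R' := B) (fun z => mem_sq_refl2 z) b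
      (Q' := fun l => dlt w l ∧ (∀ z ∈ l, s.1 ≤ z.1) ∧ (∀ z ∈ l, e.2 ≤ z.2)), hr2, hr2]
    intro l
    rw [hd2]
    simp only [List.mem_map, forall_exists_index, and_imp, forall_apply_eq_imp_iff₂,
      LAut.refl2_apply]
    refine and_congr_right fun _ => and_congr Iff.rfl (forall₂_congr fun z _ => ?_)
    omega
  · have h3 : ∀ z : V, ((LAut.refl1 ((L : ℤ) - 1)).comp (LAut.refl2 ((L : ℤ) - 1))).φ z =
        ((L : ℤ) - 1 - z.1, (L : ℤ) - 1 - z.2) := fun z => rfl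
    have hm3 : ∀ z : V, ((LAut.refl1 ((L : ℤ) - 1)).comp (LAut.refl2 ((L : ℤ) - 1))).φ z ∈ B ↔
        z ∈ B := fun z => (mem_sq_refl2 _).trans (mem_sq_refl1 z)
    refine Or.inr (Or.inr (Or.inr ⟨((LAut.refl1 (L - 1)).comp (LAut.refl2 (L - 1))).φ s,
      (hm3 s).2 hs, ((LAut.refl1 (L - 1)).comp (LAut.refl2 (L - 1))).φ e, (hm3 e).2 he,
      h5.trans (le_of_eq ?_)⟩))
    symm
    have hr3 : ∀ z, ((LAut.refl1 ((L : ℤ) - 1)).comp (LAut.refl2 ((L : ℤ) - 1))).φ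
        (((LAut.refl1 ((L : ℤ) - 1)).comp (LAut.refl2 ((L : ℤ) - 1))).φ z) = z := by
      intro z; simp [h3]
    rw [((LAut.refl1 ((L : ℤ) - 1)).comp (LAut.refl2 ((L : ℤ) - 1))).gs_eq ω (R' := B) hm3 b
      (Q' := fun l => dlt w l ∧ (∀ z ∈ l, z.1 ≤ s.1) ∧ (∀ z ∈ l, e.2 ≤ z.2)), hr3, hr3]
    intro l
    rw [hd3]
    simp only [List.mem_map, forall_exists_index, and_imp, forall_apply_eq_imp_iff₂, h3]
    refine and_congr_right fun _ => and_congr (forall₂_congr fun z _ => ?_)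
      (forall₂_congr fun z _ => ?_) <;> omega

theorem kbad_split (p : unitInterval) (b β A₀ : ℝ) {w : ℕ} (hw : 1 ≤ w) (L : ℕ) :
    PR p {ω | KBad b β A₀ w (sq (0, 0) L) ω} ≤
      2 * PR p {ω | BR b β w (sq (0, 0) L) ω} + 4 * PR p {ω | T2 b A₀ w (sq (0, 0) L) ω} := by
  have hB : FD {ω | BR b β w (sq (0, 0) L) ω} := ⟨_, dep_BR b β w _⟩
  have hT : FD {ω | T2 b A₀ w (sq (0, 0) L) ω} := ⟨_, dep_T2 b A₀ w _⟩
  have hsub : {ω | KBad b β A₀ w (sq (0, 0) L) ω} ⊆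
      ({ω | BR b β w (sq (0, 0) L) ω} ∪
        {ω | LAut.swap.act ω ∈ {ω | BR b β w (sq (0, 0) L) ω}}) ∪
      (({ω | T2 b A₀ w (sq (0, 0) L) ω} ∪
        {ω | (LAut.refl1 (L - 1)).act ω ∈ {ω | T2 b A₀ w (sq (0, 0) L) ω}}) ∪
       ({ω | (LAut.refl2 (L - 1)).act ω ∈ {ω | T2 b A₀ w (sq (0, 0) L) ω}} ∪
        {ω | ((LAut.refl1 (L - 1)).comp (LAut.refl2 (L - 1))).act ω ∈
          {ω | T2 b A₀ w (sq (0, 0) L) ω}})) := by
    rintro ω (h | h | h)
    · exact Or.inl (Or.inl (clause1 h))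
    · exact Or.inl (Or.inr (clause2 h))
    · rcases clause3 h with h | h | h | h
      · exact Or.inr (Or.inl (Or.inl h))
      · exact Or.inr (Or.inl (Or.inr h))
      · exact Or.inr (Or.inr (Or.inl h))
      · exact Or.inr (Or.inr (Or.inr h))
  refine (PR_mono p hsub).trans ?_
  refine (PR_union_le _ _ _).trans ?_
  have h1 := PR_union_le p {ω | BR b β w (sq (0, 0) L) ω}
    {ω | LAut.swap.act ω ∈ {ω | BR b β w (sq (0, 0) L) ω}}
  have h2 := PR_union_le p ({ω | T2 b A₀ w (sq (0, 0) L) ω} ∪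
        {ω | (LAut.refl1 (L - 1)).act ω ∈ {ω | T2 b A₀ w (sq (0, 0) L) ω}})
       ({ω | (LAut.refl2 (L - 1)).act ω ∈ {ω | T2 b A₀ w (sq (0, 0) L) ω}} ∪
        {ω | ((LAut.refl1 (L - 1)).comp (LAut.refl2 (L - 1))).act ω ∈
          {ω | T2 b A₀ w (sq (0, 0) L) ω}})
  have h3 := PR_union_le p {ω | T2 b A₀ w (sq (0, 0) L) ω}
        {ω | (LAut.refl1 (L - 1)).act ω ∈ {ω | T2 b A₀ w (sq (0, 0) L) ω}}
  have h4 := PR_union_le p {ω | (LAut.refl2 (L - 1)).act ω ∈ {ω | T2 b A₀ w (sq (0, 0) L) ω}}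
        {ω | ((LAut.refl1 (L - 1)).comp (LAut.refl2 (L - 1))).act ω ∈
          {ω | T2 b A₀ w (sq (0, 0) L) ω}}
  rw [LAut.PR_eq _ p hB] at h1
  rw [LAut.PR_eq _ p hT] at h3
  rw [LAut.PR_eq _ p hT, LAut.PR_eq _ p hT] at h4
  linarith

end Pool.Agent.SAWP
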