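import Pool.Agent.SAWP.L.CornerBridge
import Pool.Agent.SAWP.L.Explore
import Pool.Agent.SAWP.L.Sym
import Pool.Agent.SAWP.L.NetProb
import Pool.Agent.SAWP.Perc.Arms

/-!
# SAWP, case L: `ρ_k ≤ K₀ (P(bridge at scale k) + 16^{-k})` (module L7; paper 4.2)

Let `C, c` be from `crossing`, `θ` from `arms`, `C' = 9C`, `w = 16^{k-i₂}`, `u = 16^k`, `r = C₃ k` with `C₃` so large that
`2·64·16^{2k}·C·e^{-c r} ≤ 16^{-k}`.
`kbad_split`: `ρ_k ≤ 2 P(BR in sq 0 (4u)) + 4 P(T2 in sq 0 (4u))`; the first is `≤ P(BR in sq (-2u,-2u) (8u)) = P(BR in sq 0 (8u))` (monotone in the box; `BR_translate`).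
T2: exploration (`exploration`) over pairs `(s,e) ∈ R×R` with level `lev = e₂`, `D a` = edges with both ends in `{x₂ ≤ a}`,
`Q_{(s,e)}` = the corner sum is `≥ e^{A₀w}/4` (all counted paths are in `{x₂ ≤ e₂}`, so it depends on `D (e₂)`), `R_{(s,e)}` = `ω (e,true) = true` and `NEarm (e₁,e₂+1) (3r)`
(depends on edges not in `D (e₂)`; the two parts are independent, `P ≥ p θ`).  So `p θ P(T2) ≤ P(⋃ Q ∩ R) ≤ P(⋃ Q∩R ∩ Net) + P(not Net)`, and `⋃ Q∩R ∩ Net ⊆ BR` by `corner_to_bridge`.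
-/

set_option autoImplicit false

open MeasureTheory

namespace Pool.Agent.SAWP

namespace RhoB

/-- the edges below the line `x₂ = a` -/
def DD (a : ℤ) : Set Edge := eS {x : V | x.2 ≤ a}

lemma DD_mono : Monotone DD := by
  intro a a' h e he
  exact ⟨le_trans he.1 h, le_trans he.2 h⟩

/-- the corner event with fixed ends -/
def QQ (b A₀ : ℝ) (w : ℕ) (B : Finset V) (i : V × V) : Set Cfg :=
  {ω | Real.exp (A₀ * w) / 4 ≤ gs (Op ω) B b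
    (fun l => dlt w l ∧ (∀ z ∈ l, i.1.1 ≤ z.1) ∧ (∀ z ∈ l, z.2 ≤ i.2.2)) i.1 i.2}

/-- the arm event above the end `e` -/
def RR (n : ℕ) (i : V × V) : Set Cfg :=
  {ω | ω (i.2, true) = true} ∩ {ω | NEarm (Op ω) (i.2.1, i.2.2 + 1) n}

lemma gs_restrict (O : Set Edge) (B : Finset V) (b : ℝ) (Q : List V → Prop) (x y : V)
    (R : Set V) (hR : ∀ l, (∀ z ∈ l, z ∈ B) → Q l → ∀ z ∈ l, z ∈ R) :
    gs O B b Q x y = gs (O ∩ eS R) B b Q x y := by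
  refine gs_congr fun l => ?_
  constructor
  · rintro ⟨h1, h2, h3⟩
    exact ⟨h1.restrict (hR l h2 h3), h2, h3⟩
  · rintro ⟨h1, h2, h3⟩
    exact ⟨h1.mono Set.inter_subset_left, h2, h3⟩

lemma dep_QQ (b A₀ : ℝ) (w : ℕ) (B : Finset V) (i : V × V) :
    Dep (DD i.2.2) (QQ b A₀ w B i) := by
  have h := dep_of_op (D := DD i.2.2) (fun O => Real.exp (A₀ * w) / 4 ≤ gs O B b
    (fun l => dlt w l ∧ (∀ z ∈ l, i.1.1 ≤ z.1) ∧ (∀ z ∈ l, z.2 ≤ i.2.2)) i.1 i.2)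
  have e : QQ b A₀ w B i = {ω : Cfg | Real.exp (A₀ * w) / 4 ≤ gs (Op ω ∩ DD i.2.2) B b
    (fun l => dlt w l ∧ (∀ z ∈ l, i.1.1 ≤ z.1) ∧ (∀ z ∈ l, z.2 ≤ i.2.2)) i.1 i.2} := by
    ext ω
    simp only [QQ, Set.mem_ofPred_eq]
    rw [gs_restrict (Op ω) B b _ i.1 i.2 {x : V | x.2 ≤ i.2.2} (fun l _ h => h.2.2)]
    rfl
  rw [e]
  exact h

lemma fd_QQ (b A₀ : ℝ) (w : ℕ) (B : Finset V) (i : V × V) : FD (QQ b A₀ w B i) := by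
  refine ⟨eF B, ?_⟩
  rw [coe_eF]
  have h := dep_of_op (D := eS (↑B : Set V)) (fun O => Real.exp (A₀ * w) / 4 ≤ gs O B b
    (fun l => dlt w l ∧ (∀ z ∈ l, i.1.1 ≤ z.1) ∧ (∀ z ∈ l, z.2 ≤ i.2.2)) i.1 i.2)
  have e : QQ b A₀ w B i = {ω : Cfg | Real.exp (A₀ * w) / 4 ≤ gs (Op ω ∩ eS (↑B : Set V)) B b
    (fun l => dlt w l ∧ (∀ z ∈ l, i.1.1 ≤ z.1) ∧ (∀ z ∈ l, z.2 ≤ i.2.2)) i.1 i.2} := by
    ext ω
    simp only [QQ, Set.mem_ofPred_eq]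
    rw [gs_restrict (Op ω) B b _ i.1 i.2 (↑B : Set V) (fun l h _ => h)]
  rw [e]
  exact h

lemma dep_open (e : Edge) : Dep {e} {ω : Cfg | ω e = true} := by
  intro ω ω' hω
  simp only [Set.mem_ofPred_eq, hω e (Set.mem_singleton _)]

lemma NEarm_restrict {O : Set Edge} {z : V} {n : ℕ} :
    NEarm O z n ↔ NEarm (O ∩ eS (↑(rect z.1 (z.1 + n) z.2 (z.2 + n)) : Set V)) z n := by
  constructor
  · rintro ⟨y, l, h1, h2, h3⟩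
    exact ⟨y, l, h1.restrict h2, h2, h3⟩
  · rintro ⟨y, l, h1, h2, h3⟩
    exact ⟨y, l, h1.mono Set.inter_subset_left, h2, h3⟩

lemma dep_NEarm (z : V) (n : ℕ) :
    Dep (eS (↑(rect z.1 (z.1 + n) z.2 (z.2 + n)) : Set V)) {ω | NEarm (Op ω) z n} := by
  have h := dep_of_op (D := eS (↑(rect z.1 (z.1 + n) z.2 (z.2 + n)) : Set V))
    (fun O => NEarm O z n)
  have e : {ω : Cfg | NEarm (Op ω) z n} = {ω : Cfg | NEarm (Op ω ∩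
      eS (↑(rect z.1 (z.1 + n) z.2 (z.2 + n)) : Set V)) z n} := by
    ext ω
    exact NEarm_restrict
  rw [e]
  exact h

lemma fd_NEarm (z : V) (n : ℕ) : FD {ω | NEarm (Op ω) z n} := by
  refine ⟨eF (rect z.1 (z.1 + n) z.2 (z.2 + n)), ?_⟩
  rw [coe_eF]
  exact dep_NEarm z n

lemma dep_NEarm_up (x : V) (n : ℕ) :
    Dep (eS {z : V | x.2 + 1 ≤ z.2}) {ω | NEarm (Op ω) (x.1, x.2 + 1) n} := by
  refine (dep_NEarm (x.1, x.2 + 1) n).mono ?_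
  intro e he
  have h1 := mem_rect.1 (Finset.mem_coe.1 he.1)
  have h2 := mem_rect.1 (Finset.mem_coe.1 he.2)
  exact ⟨h1.2.2.1, h2.2.2.1⟩

lemma fd_open (e : Edge) : FD {ω : Cfg | ω e = true} := by
  refine ⟨{e}, ?_⟩
  rw [Finset.coe_singleton]
  exact dep_open e

lemma dep_RR (n : ℕ) (i : V × V) : Dep (DD i.2.2)ᶜ (RR n i) := by
  refine Dep.inter ((dep_open _).mono ?_) ((dep_NEarm_up i.2 n).mono ?_)
  · rintro e rfl h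
    have := h.2
    simp only [tgt_true, Set.mem_ofPred_eq] at this
    omega
  · intro e he h
    have h1 : i.2.2 + 1 ≤ (src e).2 := he.1
    have h2 : (src e).2 ≤ i.2.2 := h.1
    omega

lemma fd_RR (n : ℕ) (i : V × V) : FD (RR n i) := by
  obtain ⟨F, hF⟩ := fd_open (i.2, true)
  obtain ⟨F', hF'⟩ := fd_NEarm (i.2.1, i.2.2 + 1) n
  classical
  refine ⟨F ∪ F', ?_⟩
  refine Dep.inter (hF.mono ?_) (hF'.mono ?_)
  · intro e he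
    simp only [Finset.coe_union, Set.mem_union]
    exact Or.inl he
  · intro e he
    simp only [Finset.coe_union, Set.mem_union]
    exact Or.inr he

lemma PR_RR (p : unitInterval) {θ : ℝ} (hθ : ∀ (z : V) (n : ℕ), θ ≤ PR p {ω | NEarm (Op ω) z n} ∧
      θ ≤ PR p {ω | NWarm (Op ω) z n}) (n : ℕ) (i : V × V) :
    p.1 * θ ≤ PR p (RR n i) := by
  unfold RR
  rw [PR_indep p (dep_open (i.2, true)) (dep_NEarm_up i.2 n) ?_ (fd_open _) (fd_NEarm _ _), PR_open]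
  · exact mul_le_mul_of_nonneg_left (hθ _ _).1 p.2.1
  · rw [Set.disjoint_left]
    rintro e rfl h
    have h1 : i.2.2 + 1 ≤ i.2.2 := h.1
    omega

lemma BR_mono {b β : ℝ} {w : ℕ} {B B' : Finset V} (h : B ⊆ B') {ω : Cfg} (hω : BR b β w B ω) :
    BR b β w B' ω := by
  obtain ⟨s, hs, m, hm, h1, h2⟩ := hω
  refine ⟨s, h hs, m, h hm, h1, h2.trans ?_⟩
  exact gs_mono fun l h3 h4 h5 => ⟨h3, fun z hz => h (h4 z hz), h5⟩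

lemma sq_subset {L L' : ℕ} (h : L ≤ L') : sq (0, 0) L ⊆ sq (0, 0) L' := by
  intro x hx
  rw [mem_sq] at hx ⊢
  refine ⟨hx.1, ?_, hx.2.2.1, ?_⟩ <;> omega

/-- Part (2): corner events. -/
lemma T2_le (p : unitInterval) {C : ℕ} {c θ : ℝ} (hC : 1 ≤ C)
    (hX : ∀ r : ℕ, 1 ≤ r → ∀ x : V,
      1 - C * Real.exp (-(c * r)) ≤ PR p {ω | HX (Op ω) x r C} ∧
      1 - C * Real.exp (-(c * r)) ≤ PR p {ω | VX (Op ω) x r C})
    (hθ : ∀ (z : V) (n : ℕ), θ ≤ PR p {ω | NEarm (Op ω) z n} ∧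
      θ ≤ PR p {ω | NWarm (Op ω) z n})
    {b β A₀ : ℝ} (hb : 0 ≤ b) (hA : 9 * C * b + β / 4 + 1 ≤ A₀) {u w r : ℕ} (hr : 1 ≤ r)
    (hw : 2 ≤ w) (hwu : w ≤ u) (hrw : (3 * r + 1) ^ 2 ≤ w) :
    p.1 * θ * PR p {ω | T2 b A₀ w (sq (0, 0) (4 * u)) ω} ≤
      PR p {ω | BR b β w (sq (0, 0) (8 * u)) ω} +
        2 * ((8 * u : ℕ) : ℝ) ^ 2 * (C * Real.exp (-(c * r))) := by
  have hT2 : {ω | T2 b A₀ w (sq (0, 0) (4 * u)) ω} =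
      ⋃ i ∈ (sq (0, 0) (4 * u) ×ˢ sq (0, 0) (4 * u)), QQ b A₀ w (sq (0, 0) (4 * u)) i := by
    ext ω
    simp only [T2, Set.mem_ofPred_eq, Set.mem_iUnion, Finset.mem_product, QQ, exists_prop]
    constructor
    · rintro ⟨s, hs, e, he, h⟩
      exact ⟨(s, e), ⟨hs, he⟩, h⟩
    · rintro ⟨⟨s, e⟩, ⟨hs, he⟩, h⟩
      exact ⟨s, hs, e, he, h⟩
  have hex := exploration p (sq (0, 0) (4 * u) ×ˢ sq (0, 0) (4 * u))
    (QQ b A₀ w (sq (0, 0) (4 * u))) (RR (3 * r)) (fun i => i.2.2) DD DD_mono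
    (fun i _ => dep_QQ b A₀ w _ i) (fun i _ => fd_QQ b A₀ w _ i)
    (fun i _ => dep_RR (3 * r) i) (fun i _ => fd_RR (3 * r) i) (θ := p.1 * θ)
    (fun i _ => PR_RR p hθ (3 * r) i)
  rw [← hT2] at hex
  refine hex.trans ?_
  have hsub : (⋃ i ∈ (sq (0, 0) (4 * u) ×ˢ sq (0, 0) (4 * u)),
      QQ b A₀ w (sq (0, 0) (4 * u)) i ∩ RR (3 * r) i) ⊆
      {ω | BR b β w (sq ((0, 0).1 - 2 * u, (0, 0).2 - 2 * u) (8 * u)) ω} ∪
      {ω | ¬ Net (Op ω) (sq ((0, 0).1 - 2 * u, (0, 0).2 - 2 * u) (8 * u)) r C} := by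
    intro ω hω
    simp only [Set.mem_iUnion] at hω
    obtain ⟨i, hi, hQ, hR⟩ := hω
    rw [Finset.mem_product] at hi
    by_cases hnet : Net (Op ω) (sq ((0, 0).1 - 2 * u, (0, 0).2 - 2 * u) (8 * u)) r C
    · left
      exact corner_to_bridge (c := (0, 0)) hb hC hr hw hwu hrw hA hi.1 hi.2 hQ hR.1 hR.2 hnet
    · right
      exact hnet
  refine (PR_mono p hsub).trans ((PR_union_le p _ _).trans ?_)
  refine add_le_add ?_ ?_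
  · exact (BR_translate p b β w (8 * u) _ (0, 0)).le
  · refine (net_prob p hX _ hr).trans (le_of_eq ?_)
    rw [sq_card]
    push_cast
    ring

lemma growth (C₃ i₂ k : ℕ) (hk : i₂ + (3 * C₃ * (i₂ + 1) + 1) ≤ k) :
    (3 * (C₃ * k) + 1) ^ 2 ≤ 16 ^ (k - i₂) := by
  obtain ⟨j, rfl⟩ := Nat.exists_eq_add_of_le (show i₂ ≤ k by omega)
  have hj : 3 * C₃ * (i₂ + 1) + 1 ≤ j := by omega
  rw [Nat.add_sub_cancel_left]
  have h1 : 3 * (C₃ * (i₂ + j)) + 1 ≤ (3 * C₃ * (i₂ + 1) + 1) * (j + 1) := by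
    nlinarith [Nat.zero_le (C₃ * i₂ * j), Nat.zero_le (C₃ * i₂), Nat.zero_le (C₃ * j),
      Nat.zero_le C₃, Nat.zero_le j]
  have h2 : 3 * C₃ * (i₂ + 1) + 1 ≤ 2 ^ j := hj.trans Nat.lt_two_pow_self.le
  have h3 : j + 1 ≤ 2 ^ j := Nat.lt_two_pow_self
  have h4 : 3 * (C₃ * (i₂ + j)) + 1 ≤ 2 ^ j * 2 ^ j := h1.trans (Nat.mul_le_mul h2 h3)
  calc (3 * (C₃ * (i₂ + j)) + 1) ^ 2 ≤ (2 ^ j * 2 ^ j) ^ 2 := Nat.pow_le_pow_left h4 2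
    _ = 16 ^ j := by
      rw [← mul_pow, ← pow_mul, mul_comm j 2, pow_mul]
      norm_num

lemma expo {c : ℝ} (hc : 0 < c) {C₃ : ℕ} (hC₃ : Real.log (16 ^ 3) / c ≤ C₃) (k : ℕ) :
    Real.exp (-(c * ((C₃ * k : ℕ) : ℝ))) ≤ ((16 : ℝ) ^ 3)⁻¹ ^ k := by
  have h1 : Real.log (16 ^ 3) ≤ c * C₃ := by
    rw [div_le_iff₀ hc] at hC₃
    linarith
  have h2 : Real.exp (-(c * ((C₃ * k : ℕ) : ℝ))) = Real.exp (-(c * C₃)) ^ k := by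
    rw [← Real.exp_nat_mul]
    congr 1
    push_cast
    ring
  rw [h2]
  refine pow_le_pow_left₀ (Real.exp_pos _).le ?_ k
  rw [Real.exp_neg]
  refine inv_anti₀ (by positivity) ?_
  calc (16 : ℝ) ^ 3 = Real.exp (Real.log (16 ^ 3)) := (Real.exp_log (by positivity)).symm
    _ ≤ Real.exp (c * C₃) := Real.exp_le_exp.2 h1

end RhoB

open RhoB in
theorem rho_le_bridge (p : unitInterval) (hp : 1 / 2 < p.1) :
    ∃ C' : ℝ, 1 ≤ C' ∧ ∀ (b β A₀ : ℝ) (i₂ : ℕ), 0 ≤ b → 0 < β → C' * b + β / 4 + 1 ≤ A₀ →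
      ∃ K₀ : ℝ, 0 < K₀ ∧ ∃ k₀ : ℕ, ∀ k, k₀ ≤ k →
        rho p b β A₀ i₂ k ≤
          K₀ * (PR p {ω | BR b β (16 ^ (k - i₂)) (sq (0, 0) (8 * 16 ^ k)) ω} + (16 : ℝ)⁻¹ ^ k) := by
  obtain ⟨C, c, hC, hc, hX⟩ := crossing p hp
  obtain ⟨θ, hθ0, hθ⟩ := arms p hp
  have hp0 : 0 < p.1 := by linarith
  have hpθ : 0 < p.1 * θ := mul_pos hp0 hθ0
  have hCr : (1 : ℝ) ≤ C := by exact_mod_cast hC
  refine ⟨9 * C, by linarith, ?_⟩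
  intro b β A₀ i₂ hb hβ hA
  obtain ⟨C₃', hC₃'⟩ := exists_nat_ge (Real.log (16 ^ 3) / c)
  set C₃ := C₃' + 1 with hC₃def
  have hC₃ : Real.log (16 ^ 3) / c ≤ C₃ := by
    refine hC₃'.trans ?_
    rw [hC₃def]
    push_cast
    linarith
  refine ⟨2 + 4 / (p.1 * θ) * (128 * C), by positivity, i₂ + (3 * C₃ * (i₂ + 1) + 1), ?_⟩
  intro k hk
  have hk1 : i₂ + 1 ≤ k := by omega
  have hw1 : 1 ≤ 16 ^ (k - i₂) := Nat.one_le_pow _ _ (by norm_num)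
  have hr : 1 ≤ C₃ * k := by
    have : 1 ≤ k := by omega
    have h3 : 1 ≤ C₃ := by omega
    exact Nat.mul_le_mul h3 this
  have hw2 : 2 ≤ 16 ^ (k - i₂) := by
    have h1 : 1 ≤ k - i₂ := by omega
    calc 2 ≤ 16 ^ 1 := by norm_num
      _ ≤ 16 ^ (k - i₂) := Nat.pow_le_pow_right (by norm_num) h1
  have hwu : 16 ^ (k - i₂) ≤ 16 ^ k := Nat.pow_le_pow_right (by norm_num) (by omega)
  have hT := T2_le p hC hX hθ (b := b) (β := β) (A₀ := A₀) hb hA (u := 16 ^ k)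
    (w := 16 ^ (k - i₂)) (r := C₃ * k) hr hw2 hwu (growth C₃ i₂ k hk)
  have hsplit := kbad_split p b β A₀ (w := 16 ^ (k - i₂)) hw1 (4 * 16 ^ k)
  have hBR : PR p {ω | BR b β (16 ^ (k - i₂)) (sq (0, 0) (4 * 16 ^ k)) ω} ≤
      PR p {ω | BR b β (16 ^ (k - i₂)) (sq (0, 0) (8 * 16 ^ k)) ω} :=
    PR_mono p fun ω hω => BR_mono (sq_subset (by omega)) hω
  set X := PR p {ω | BR b β (16 ^ (k - i₂)) (sq (0, 0) (8 * 16 ^ k)) ω} with hXdef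
  have hX0 : 0 ≤ X := PR_nonneg _ _
  set T := PR p {ω | T2 b A₀ (16 ^ (k - i₂)) (sq (0, 0) (4 * 16 ^ k)) ω} with hTdef
  have hE : 2 * (((8 * 16 ^ k : ℕ) : ℝ)) ^ 2 * (C * Real.exp (-(c * ((C₃ * k : ℕ) : ℝ)))) ≤
      128 * C * (16 : ℝ)⁻¹ ^ k := by
    have h1 := expo hc hC₃ k
    calc 2 * (((8 * 16 ^ k : ℕ) : ℝ)) ^ 2 * (C * Real.exp (-(c * ((C₃ * k : ℕ) : ℝ))))
        ≤ 2 * (((8 * 16 ^ k : ℕ) : ℝ)) ^ 2 * (C * ((16 : ℝ) ^ 3)⁻¹ ^ k) := by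
          refine mul_le_mul_of_nonneg_left ?_ (by positivity)
          exact mul_le_mul_of_nonneg_left h1 (by positivity)
      _ = 128 * C * (16 : ℝ)⁻¹ ^ k := by
          push_cast
          have h2 : ((16 : ℝ) ^ 3)⁻¹ ^ k = (16 : ℝ)⁻¹ ^ k * (16 : ℝ)⁻¹ ^ k * (16 : ℝ)⁻¹ ^ k := by
            rw [← mul_pow, ← mul_pow]
            congr 1
            norm_num
          have h3 : (16 : ℝ) ^ k * (16 : ℝ)⁻¹ ^ k = 1 := by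
            rw [← mul_pow]
            norm_num
          rw [h2]
          calc 2 * (8 * (16 : ℝ) ^ k) ^ 2 * (C * ((16 : ℝ)⁻¹ ^ k * (16 : ℝ)⁻¹ ^ k * (16 : ℝ)⁻¹ ^ k))
              = 128 * C * (16 : ℝ)⁻¹ ^ k * ((16 : ℝ) ^ k * (16 : ℝ)⁻¹ ^ k) ^ 2 := by ring
            _ = 128 * C * (16 : ℝ)⁻¹ ^ k := by rw [h3]; ring
  have hT2 : p.1 * θ * T ≤ X + 128 * C * (16 : ℝ)⁻¹ ^ k := hT.trans (by linarith)
  have hT3 : T ≤ (X + 128 * C * (16 : ℝ)⁻¹ ^ k) / (p.1 * θ) := by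
    rw [le_div_iff₀ hpθ]
    linarith
  have hy0 : 0 ≤ (16 : ℝ)⁻¹ ^ k := by positivity
  have h128 : X + 128 * C * (16 : ℝ)⁻¹ ^ k ≤ 128 * C * (X + (16 : ℝ)⁻¹ ^ k) := by
    nlinarith
  have hT4 : T ≤ 128 * C * (X + (16 : ℝ)⁻¹ ^ k) / (p.1 * θ) :=
    hT3.trans (div_le_div_of_nonneg_right h128 hpθ.le)
  calc rho p b β A₀ i₂ k ≤ 2 * PR p {ω | BR b β (16 ^ (k - i₂)) (sq (0, 0) (4 * 16 ^ k)) ω} +
        4 * T := hsplit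
    _ ≤ 2 * X + 4 * (128 * C * (X + (16 : ℝ)⁻¹ ^ k) / (p.1 * θ)) := by linarith
    _ = 2 * X + 4 / (p.1 * θ) * (128 * C) * (X + (16 : ℝ)⁻¹ ^ k) := by ring
    _ ≤ 2 * (X + (16 : ℝ)⁻¹ ^ k) + 4 / (p.1 * θ) * (128 * C) * (X + (16 : ℝ)⁻¹ ^ k) := by
        linarith
    _ = (2 + 4 / (p.1 * θ) * (128 * C)) * (X + (16 : ℝ)⁻¹ ^ k) := by ring

end Pool.Agent.SAWP
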