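import Pool.Agent.SAWP.L.Explore
import Pool.Agent.SAWP.L.Sym
import Pool.Agent.SAWP.Perc.Arms

/-!
# SAWP, case L: arms at both ends of a bridge (module L8; paper 4.3)

`dep_TA`: the event `TA` depends only on the edges in the slab `cs₁ - 3r - 1 ≤ x₁ ≤ cm₁ + h + 3r` (bridge paths: `s₁ ≤ x₁ ≤ m₁`; right arm:
edge `m, m+e₁` and `x₁ ≥ m₁+1`, up to `m₁+1+3r`, `m₁ ≤ cm₁+h-1`; left arm symmetric), and on finitely many edges.
`TA_ge`: explore twice.  (i) pairs `i = (s,m)`, level `m₁`, `D a` = edges with both ends in `{x₁ ≤ a}`, `Q_i` = `s,m` in the cells, `m₁-s₁ ≥ w`, gs ≥ …,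
`R_i = RArm m` (independent of `D(m₁)`; `P ≥ p θ`).  (ii) level `-s₁`, `D a` = edges with both ends in `{x₁ ≥ -a}`, `Q_i` = the event of (i) with its arm
(depends on edges in `{x₁ ≥ s₁}`, as `m₁ > s₁`, `w ≥ 1`), `R_i = LArm s`.  So `θ' = (pθ)²`.
`TAk_ge`: translation (`TB_translate`).
-/

set_option autoImplicit false

open MeasureTheory

namespace Pool.Agent.SAWP

namespace TAP

/-- restriction of a weighted sum to the edges of a region containing all the counted paths -/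
lemma gs_inter {O : Set Edge} {R : Finset V} {b : ℝ} {Q : List V → Prop} {x y : V} {W : Set V}
    (h : ∀ l, (∀ z ∈ l, z ∈ R) → Q l → ∀ z ∈ l, z ∈ W) :
    gs O R b Q x y = gs (O ∩ eS W) R b Q x y := by
  refine gs_congr fun l => ?_
  constructor
  · rintro ⟨h1, h2, h3⟩
    exact ⟨h1.restrict (h l h2 h3), h2, h3⟩
  · rintro ⟨h1, h2, h3⟩
    exact ⟨h1.mono Set.inter_subset_left, h2, h3⟩

lemma NEarm_inter {O : Set Edge} {z : V} {n : ℕ} :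
    NEarm O z n ↔ NEarm (O ∩ eS (↑(rect z.1 (z.1 + n) z.2 (z.2 + n)) : Set V)) z n := by
  constructor
  · rintro ⟨y, l, h1, h2, h3⟩
    exact ⟨y, l, h1.restrict h2, h2, h3⟩
  · rintro ⟨y, l, h1, h2, h3⟩
    exact ⟨y, l, h1.mono Set.inter_subset_left, h2, h3⟩

lemma NWarm_inter {O : Set Edge} {z : V} {n : ℕ} :
    NWarm O z n ↔ NWarm (O ∩ eS (↑(rect (z.1 - n) z.1 z.2 (z.2 + n)) : Set V)) z n := by
  constructor
  · rintro ⟨y, l, h1, h2, h3⟩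
    exact ⟨y, l, h1.restrict h2, h2, h3⟩
  · rintro ⟨y, l, h1, h2, h3⟩
    exact ⟨y, l, h1.mono Set.inter_subset_left, h2, h3⟩

lemma fd_inter {A B : Set Cfg} (hA : FD A) (hB : FD B) : FD (A ∩ B) := by
  classical
  obtain ⟨F, hF⟩ := hA
  obtain ⟨G, hG⟩ := hB
  refine ⟨F ∪ G, Dep.inter (hF.mono ?_) (hG.mono ?_)⟩ <;> simp

lemma fd_biUnion {ι : Type*} (s : Finset ι) {A : ι → Set Cfg} (h : ∀ i ∈ s, FD (A i)) :
    FD (⋃ i ∈ s, A i) := by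
  classical
  choose! F hF using h
  refine ⟨s.biUnion F, ?_⟩
  refine Dep.iUnion fun i => Dep.iUnion fun hi => (hF i hi).mono ?_
  intro e he
  simp only [Finset.coe_biUnion, Set.mem_iUnion]
  exact ⟨i, hi, he⟩

lemma dep_biUnion {ι : Type*} (s : Finset ι) {D : Set Edge} {A : ι → Set Cfg}
    (h : ∀ i ∈ s, Dep D (A i)) : Dep D (⋃ i ∈ s, A i) :=
  Dep.iUnion fun i => Dep.iUnion fun hi => h i hi

/-- the bridge event of the pair `i = (s, m)` -/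
def QQ (b β : ℝ) (w : ℕ) (B : Finset V) (h : ℕ) (cs cm : V) (i : V × V) : Set Cfg :=
  {ω | i.1 ∈ sq cs h ∧ i.2 ∈ sq cm h ∧ (w : ℤ) ≤ i.2.1 - i.1.1 ∧
    Real.exp (β / 4 * w) ≤ gs (Op ω) B b (btw i.1 i.2) i.1 i.2}

def RA (r : ℕ) (m : V) : Set Cfg := {ω | RArm ω m r}

def LA (r : ℕ) (s : V) : Set Cfg := {ω | LArm ω s r}

lemma TB_eq (b β : ℝ) (w : ℕ) (B : Finset V) (h : ℕ) (cs cm : V) :
    {ω | TB b β w B h cs cm ω} = ⋃ i ∈ B ×ˢ B, QQ b β w B h cs cm i := by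
  ext ω
  simp only [Set.mem_iUnion, Finset.mem_product, exists_prop, Set.mem_ofPred_eq, TB, QQ]
  constructor
  · rintro ⟨s, hs, m, hm, h1⟩
    exact ⟨(s, m), ⟨hs, hm⟩, h1⟩
  · rintro ⟨⟨s, m⟩, ⟨hs, hm⟩, h1⟩
    exact ⟨s, hs, m, hm, h1⟩

lemma TA_eq (b β : ℝ) (w : ℕ) (B : Finset V) (h : ℕ) (cs cm : V) (r : ℕ) :
    {ω | TA b β w B h cs cm r ω} =
      ⋃ i ∈ B ×ˢ B, (QQ b β w B h cs cm i ∩ RA r i.2) ∩ LA r i.1 := by
  ext ω
  simp only [Set.mem_iUnion, Finset.mem_product, exists_prop, Set.mem_ofPred_eq, TA, QQ, RA, LA,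
    Set.mem_inter_iff]
  constructor
  · rintro ⟨s, hs, m, hm, h1, h2, h3, h4, h5, h6⟩
    exact ⟨(s, m), ⟨hs, hm⟩, ⟨⟨h1, h2, h3, h4⟩, h5⟩, h6⟩
  · rintro ⟨⟨s, m⟩, ⟨hs, hm⟩, ⟨⟨h1, h2, h3, h4⟩, h5⟩, h6⟩
    exact ⟨s, hs, m, hm, h1, h2, h3, h4, h5, h6⟩

/-- dependence of the bridge event -/
lemma dep_QQ (b β : ℝ) (w : ℕ) (B : Finset V) (h : ℕ) (cs cm : V) (i : V × V) {W : Set V}
    (hW : i.1 ∈ sq cs h → i.2 ∈ sq cm h → i.1.1 ≤ i.2.1 → ∀ x ∈ B, i.1.1 ≤ x.1 → x.1 ≤ i.2.1 → x ∈ W) :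
    Dep (eS W) (QQ b β w B h cs cm i) := by
  by_cases hc : i.1 ∈ sq cs h ∧ i.2 ∈ sq cm h ∧ (w : ℤ) ≤ i.2.1 - i.1.1
  · obtain ⟨h1, h2, h3⟩ := hc
    have hle : i.1.1 ≤ i.2.1 := by omega
    have e1 : QQ b β w B h cs cm i =
        {ω | Real.exp (β / 4 * w) ≤ gs (Op ω ∩ eS W) B b (btw i.1 i.2) i.1 i.2} := by
      ext ω
      simp only [QQ, Set.mem_ofPred_eq]
      rw [gs_inter (W := W)]
      · exact ⟨fun h => h.2.2.2, fun h => ⟨h1, h2, h3, h⟩⟩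
      · intro l hl hb z hz
        have := hb z hz
        rw [min_eq_left hle, max_eq_right hle] at this
        exact hW h1 h2 hle z (hl z hz) this.1 this.2
    rw [e1]
    exact dep_of_op (fun O => Real.exp (β / 4 * w) ≤ gs O B b (btw i.1 i.2) i.1 i.2)
  · have e1 : QQ b β w B h cs cm i = ∅ := by
      ext ω
      simp only [QQ, Set.mem_ofPred_eq, Set.mem_empty_iff_false, iff_false]
      rintro ⟨h1, h2, h3, -⟩
      exact hc ⟨h1, h2, h3⟩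
    rw [e1]
    exact fun ω ω' _ => Iff.rfl

lemma fd_QQ (b β : ℝ) (w : ℕ) (B : Finset V) (h : ℕ) (cs cm : V) (i : V × V) :
    FD (QQ b β w B h cs cm i) := by
  refine ⟨eF B, ?_⟩
  rw [coe_eF]
  exact dep_QQ b β w B h cs cm i fun _ _ _ x hx _ _ => hx

lemma dep_edge (e : Edge) : Dep {e} {ω : Cfg | ω e = true} := by
  intro ω ω' hω
  simp only [Set.mem_ofPred_eq, hω e rfl]

lemma dep_NE (z : V) (n : ℕ) :
    Dep (eS (↑(rect z.1 (z.1 + n) z.2 (z.2 + n)) : Set V)) {ω | NEarm (Op ω) z n} := by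
  have : {ω : Cfg | NEarm (Op ω) z n} =
      {ω | NEarm (Op ω ∩ eS (↑(rect z.1 (z.1 + n) z.2 (z.2 + n)) : Set V)) z n} := by
    ext ω; exact NEarm_inter
  rw [this]
  exact dep_of_op (fun O => NEarm O z n)

lemma dep_NW (z : V) (n : ℕ) :
    Dep (eS (↑(rect (z.1 - n) z.1 z.2 (z.2 + n)) : Set V)) {ω | NWarm (Op ω) z n} := by
  have : {ω : Cfg | NWarm (Op ω) z n} =
      {ω | NWarm (Op ω ∩ eS (↑(rect (z.1 - n) z.1 z.2 (z.2 + n)) : Set V)) z n} := by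
    ext ω; exact NWarm_inter
  rw [this]
  exact dep_of_op (fun O => NWarm O z n)

lemma fd_edge (e : Edge) : FD {ω : Cfg | ω e = true} :=
  ⟨{e}, by rw [Finset.coe_singleton]; exact dep_edge e⟩

lemma fd_NE (z : V) (n : ℕ) : FD {ω | NEarm (Op ω) z n} :=
  ⟨eF (rect z.1 (z.1 + n) z.2 (z.2 + n)), by rw [coe_eF]; exact dep_NE z n⟩

lemma fd_NW (z : V) (n : ℕ) : FD {ω | NWarm (Op ω) z n} :=
  ⟨eF (rect (z.1 - n) z.1 z.2 (z.2 + n)), by rw [coe_eF]; exact dep_NW z n⟩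

lemma RA_eq (r : ℕ) (m : V) :
    RA r m = {ω | ω (m, false) = true} ∩ {ω | NEarm (Op ω) (m.1 + 1, m.2) (3 * r)} := rfl

lemma LA_eq (r : ℕ) (s : V) :
    LA r s = {ω | ω ((s.1 - 1, s.2), false) = true} ∩
      {ω | NWarm (Op ω) (s.1 - 1, s.2) (3 * r)} := rfl

lemma fd_RA (r : ℕ) (m : V) : FD (RA r m) := fd_inter (fd_edge _) (fd_NE _ _)

lemma fd_LA (r : ℕ) (s : V) : FD (LA r s) := fd_inter (fd_edge _) (fd_NW _ _)

/-- dependence of the right arm -/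
lemma dep_RA (r : ℕ) (m : V) {D : Set Edge} (h1 : ((m, false) : Edge) ∈ D)
    (h2 : ∀ e ∈ eS {x : V | m.1 + 1 ≤ x.1 ∧ x.1 ≤ m.1 + 1 + 3 * r}, e ∈ D) : Dep D (RA r m) := by
  rw [RA_eq]
  refine Dep.inter ((dep_edge _).mono (Set.singleton_subset_iff.2 h1)) ((dep_NE _ _).mono ?_)
  rintro e ⟨he1, he2⟩
  rw [Finset.mem_coe, mem_rect] at he1 he2
  refine h2 e ⟨?_, ?_⟩
  · simp only [Set.mem_ofPred_eq]; push_cast at he1; exact ⟨he1.1, he1.2.1⟩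
  · simp only [Set.mem_ofPred_eq]; push_cast at he2; exact ⟨he2.1, he2.2.1⟩

/-- dependence of the left arm -/
lemma dep_LA (r : ℕ) (s : V) {D : Set Edge} (h1 : (((s.1 - 1, s.2), false) : Edge) ∈ D)
    (h2 : ∀ e ∈ eS {x : V | s.1 - 1 - 3 * r ≤ x.1 ∧ x.1 ≤ s.1 - 1}, e ∈ D) : Dep D (LA r s) := by
  rw [LA_eq]
  refine Dep.inter ((dep_edge _).mono (Set.singleton_subset_iff.2 h1)) ((dep_NW _ _).mono ?_)
  rintro e ⟨he1, he2⟩
  rw [Finset.mem_coe, mem_rect] at he1 he2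
  refine h2 e ⟨?_, ?_⟩
  · simp only [Set.mem_ofPred_eq]; push_cast at he1; exact ⟨he1.1, he1.2.1⟩
  · simp only [Set.mem_ofPred_eq]; push_cast at he2; exact ⟨he2.1, he2.2.1⟩

lemma PR_RA (p : unitInterval) (r : ℕ) (m : V) :
    PR p (RA r m) = p.1 * PR p {ω | NEarm (Op ω) (m.1 + 1, m.2) (3 * r)} := by
  rw [RA_eq, PR_indep p (dep_edge _) (dep_NE _ _) ?_ (fd_edge _) (fd_NE _ _), PR_open]
  rw [Set.disjoint_singleton_left]
  rintro ⟨he, -⟩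
  rw [Finset.mem_coe, mem_rect] at he
  have h := he.1
  simp only [src] at h
  omega

lemma PR_LA (p : unitInterval) (r : ℕ) (s : V) :
    PR p (LA r s) = p.1 * PR p {ω | NWarm (Op ω) (s.1 - 1, s.2) (3 * r)} := by
  rw [LA_eq, PR_indep p (dep_edge _) (dep_NW _ _) ?_ (fd_edge _) (fd_NW _ _), PR_open]
  rw [Set.disjoint_singleton_left]
  rintro ⟨-, he⟩
  rw [Finset.mem_coe, mem_rect] at he
  have h := he.2.1
  simp only [tgt] at h
  simp at h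

end TAP

open TAP

theorem dep_TA (b β : ℝ) (w : ℕ) (B : Finset V) (h : ℕ) (cs cm : V) (r : ℕ) :
    Dep (eS {x : V | cs.1 - 3 * r - 1 ≤ x.1 ∧ x.1 ≤ cm.1 + h + 3 * r})
      {ω | TA b β w B h cs cm r ω} := by
  rw [TA_eq]
  refine dep_biUnion _ fun i _ => ?_
  by_cases hc : i.1 ∈ sq cs h ∧ i.2 ∈ sq cm h ∧ (w : ℤ) ≤ i.2.1 - i.1.1
  · obtain ⟨h1, h2, h3⟩ := hc
    have h1' := mem_sq.1 h1
    have h2' := mem_sq.1 h2
    refine Dep.inter (Dep.inter (dep_QQ b β w B h cs cm i ?_) (dep_RA r i.2 ?_ ?_))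
      (dep_LA r i.1 ?_ ?_)
    · intro _ _ _ x _ hx1 hx2
      simp only [Set.mem_ofPred_eq]
      omega
    · simp only [eS, src, tgt, Set.mem_ofPred_eq]
      refine ⟨⟨?_, ?_⟩, ?_, ?_⟩ <;> (try simp) <;> omega
    · rintro e ⟨he1, he2⟩
      simp only [Set.mem_ofPred_eq] at he1 he2
      refine ⟨?_, ?_⟩ <;> simp only [Set.mem_ofPred_eq] <;> omega
    · simp only [eS, src, tgt, Set.mem_ofPred_eq]
      refine ⟨⟨?_, ?_⟩, ?_, ?_⟩ <;> (try simp) <;> omega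
    · rintro e ⟨he1, he2⟩
      simp only [Set.mem_ofPred_eq] at he1 he2
      refine ⟨?_, ?_⟩ <;> simp only [Set.mem_ofPred_eq] <;> omega
  · have e1 : QQ b β w B h cs cm i = ∅ := by
      ext ω
      simp only [QQ, Set.mem_ofPred_eq, Set.mem_empty_iff_false, iff_false]
      rintro ⟨h1, h2, h3, -⟩
      exact hc ⟨h1, h2, h3⟩
    rw [e1, Set.empty_inter, Set.empty_inter]
    exact fun ω ω' _ => Iff.rfl

theorem fd_TA (b β : ℝ) (w : ℕ) (B : Finset V) (h : ℕ) (cs cm : V) (r : ℕ) :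
    FD {ω | TA b β w B h cs cm r ω} := by
  rw [TA_eq]
  exact fd_biUnion _ fun i _ => fd_inter (fd_inter (fd_QQ b β w B h cs cm i) (fd_RA r i.2))
    (fd_LA r i.1)

theorem TA_ge (p : unitInterval) (hp : 1 / 2 < p.1) : ∃ θ' : ℝ, 0 < θ' ∧
    ∀ (b β : ℝ) (w : ℕ) (B : Finset V) (h : ℕ) (cs cm : V) (r : ℕ), 1 ≤ w →
      θ' * PR p {ω | TB b β w B h cs cm ω} ≤ PR p {ω | TA b β w B h cs cm r ω} := by
  obtain ⟨θ, hθ, harm⟩ := arms p hp
  have hp0 : 0 < p.1 := by linarith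
  refine ⟨(p.1 * θ) * (p.1 * θ), by positivity, ?_⟩
  intro b β w B h cs cm r hw
  have hRA : ∀ m : V, p.1 * θ ≤ PR p (RA r m) := fun m => by
    rw [PR_RA]; exact mul_le_mul_of_nonneg_left (harm _ _).1 hp0.le
  have hLA : ∀ s : V, p.1 * θ ≤ PR p (LA r s) := fun s => by
    rw [PR_LA]; exact mul_le_mul_of_nonneg_left (harm _ _).2 hp0.le
  rw [TB_eq, TA_eq]
  have step1 : p.1 * θ * PR p (⋃ i ∈ B ×ˢ B, QQ b β w B h cs cm i) ≤
      PR p (⋃ i ∈ B ×ˢ B, QQ b β w B h cs cm i ∩ RA r i.2) := by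
    refine exploration p (B ×ˢ B) (fun i => QQ b β w B h cs cm i) (fun i => RA r i.2)
      (fun i => i.2.1) (fun a => eS {x : V | x.1 ≤ a}) ?_ ?_ ?_ ?_ ?_ ?_
    · intro a a' haa e he
      exact ⟨le_trans he.1 haa, le_trans he.2 haa⟩
    · intro i _
      exact dep_QQ b β w B h cs cm i fun _ _ _ x _ _ hx => hx
    · intro i _; exact fd_QQ b β w B h cs cm i
    · intro i _
      refine dep_RA r i.2 ?_ ?_
      · rintro ⟨-, he⟩
        simp only [tgt, Set.mem_ofPred_eq] at he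
        simp at he
      · rintro e ⟨he, -⟩ ⟨he', -⟩
        simp only [Set.mem_ofPred_eq] at he he'
        omega
    · intro i _; exact fd_RA r i.2
    · intro i _; exact hRA i.2
  have step2 : p.1 * θ * PR p (⋃ i ∈ B ×ˢ B, QQ b β w B h cs cm i ∩ RA r i.2) ≤
      PR p (⋃ i ∈ B ×ˢ B, (QQ b β w B h cs cm i ∩ RA r i.2) ∩ LA r i.1) := by
    refine exploration p (B ×ˢ B) (fun i => QQ b β w B h cs cm i ∩ RA r i.2) (fun i => LA r i.1)
      (fun i => -i.1.1) (fun a => eS {x : V | -a ≤ x.1}) ?_ ?_ ?_ ?_ ?_ ?_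
    · intro a a' haa e he
      exact ⟨le_trans (neg_le_neg haa) he.1, le_trans (neg_le_neg haa) he.2⟩
    · intro i _
      by_cases hc : i.1 ∈ sq cs h ∧ i.2 ∈ sq cm h ∧ (w : ℤ) ≤ i.2.1 - i.1.1
      · obtain ⟨h1, h2, h3⟩ := hc
        refine Dep.inter (dep_QQ b β w B h cs cm i ?_) (dep_RA r i.2 ?_ ?_)
        · intro _ _ _ x _ hx1 _
          simp only [Set.mem_ofPred_eq, neg_neg]
          exact hx1
        · simp only [eS, src, tgt, Set.mem_ofPred_eq, neg_neg]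
          refine ⟨?_, ?_⟩ <;> (try simp) <;> omega
        · rintro e ⟨he1, he2⟩
          simp only [Set.mem_ofPred_eq] at he1 he2
          refine ⟨?_, ?_⟩ <;> simp only [Set.mem_ofPred_eq, neg_neg] <;> omega
      · have e1 : QQ b β w B h cs cm i = ∅ := by
          ext ω
          simp only [QQ, Set.mem_ofPred_eq, Set.mem_empty_iff_false, iff_false]
          rintro ⟨h1, h2, h3, -⟩
          exact hc ⟨h1, h2, h3⟩
        rw [e1, Set.empty_inter]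
        exact fun ω ω' _ => Iff.rfl
    · intro i _; exact fd_inter (fd_QQ b β w B h cs cm i) (fd_RA r i.2)
    · intro i _
      refine dep_LA r i.1 ?_ ?_
      · rintro ⟨he, -⟩
        simp only [src, Set.mem_ofPred_eq, neg_neg] at he
        omega
      · rintro e ⟨he, -⟩ ⟨he', -⟩
        simp only [Set.mem_ofPred_eq, neg_neg] at he he'
        omega
    · intro i _; exact fd_LA r i.1
    · intro i _; exact hLA i.1
  calc (p.1 * θ) * (p.1 * θ) * PR p (⋃ i ∈ B ×ˢ B, QQ b β w B h cs cm i)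
      = (p.1 * θ) * ((p.1 * θ) * PR p (⋃ i ∈ B ×ˢ B, QQ b β w B h cs cm i)) := by ring
    _ ≤ (p.1 * θ) * PR p (⋃ i ∈ B ×ˢ B, QQ b β w B h cs cm i ∩ RA r i.2) :=
        mul_le_mul_of_nonneg_left step1 (by positivity)
    _ ≤ _ := step2

theorem TAk_ge (p : unitInterval) (hp : 1 / 2 < p.1) : ∃ θ' : ℝ, 0 < θ' ∧
    ∀ (b β : ℝ) (i₂ iη : ℕ) (a D : V) (r k : ℕ) (t : V),
      θ' * PR p {ω | TB b β (16 ^ (k - i₂)) (sq (0, 0) (8 * 16 ^ k)) (16 ^ (k - iη))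
          (16 ^ (k - iη) * a.1, 16 ^ (k - iη) * a.2)
          (16 ^ (k - iη) * (a.1 + D.1), 16 ^ (k - iη) * (a.2 + D.2)) ω} ≤
        PR p {ω | TAk b β i₂ iη a D r k t ω} := by
  obtain ⟨θ', h0, h1⟩ := TA_ge p hp
  refine ⟨θ', h0, ?_⟩
  intro b β i₂ iη a D r k t
  have h2 := TB_translate p b β (16 ^ (k - i₂)) (8 * 16 ^ k) (16 ^ (k - iη)) (0, 0)
    (16 ^ (k - iη) * a.1, 16 ^ (k - iη) * a.2)
    (16 ^ (k - iη) * (a.1 + D.1), 16 ^ (k - iη) * (a.2 + D.2))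
    (t.1 + 2 * 16 ^ (k - iη) - 16 ^ (k - iη) * a.1, t.2 - 16 ^ (k - iη) * a.2)
  rw [← h2]
  have e0 : (((0, 0) : V) + (t.1 + 2 * 16 ^ (k - iη) - 16 ^ (k - iη) * a.1,
      t.2 - 16 ^ (k - iη) * a.2)) =
      (t.1 + 2 * 16 ^ (k - iη) - 16 ^ (k - iη) * a.1, t.2 - 16 ^ (k - iη) * a.2) := by
    simp
  have e1 : (((16 ^ (k - iη) * a.1, 16 ^ (k - iη) * a.2) : V) +
      (t.1 + 2 * 16 ^ (k - iη) - 16 ^ (k - iη) * a.1, t.2 - 16 ^ (k - iη) * a.2)) =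
      (t.1 + 2 * 16 ^ (k - iη), t.2) := by
    ext <;> simp
  have e2 : (((16 ^ (k - iη) * (a.1 + D.1), 16 ^ (k - iη) * (a.2 + D.2)) : V) +
      (t.1 + 2 * 16 ^ (k - iη) - 16 ^ (k - iη) * a.1, t.2 - 16 ^ (k - iη) * a.2)) =
      (t.1 + 2 * 16 ^ (k - iη) + 16 ^ (k - iη) * D.1, t.2 + 16 ^ (k - iη) * D.2) := by
    ext <;> simp <;> ring
  rw [e0, e1, e2]
  exact h1 b β (16 ^ (k - i₂)) _ _ _ _ r (Nat.one_le_pow _ _ (by norm_num))

end Pool.Agent.SAWP
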