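import Pool.Agent.SAWP.NetDefs
import Pool.Agent.SAWP.Perc.Planar

/-!
# SAWP, case L: travelling in the network (module L1; paper 4.0)

`h_cross_v`: if `x₁ ≤ y₁ ≤ x₁+2r` and `x₂-2r ≤ y₂ ≤ x₂` then a crossing of `H(x)` and a crossing of
`Vt(y)` share a vertex (`cross_meet` with `a=y₁, b=y₁+r, c=x₂, d=x₂+r`).
`travel_step`: if `nrm (x'-x) ≤ r`, `v` on a crossing of `H(x)`, `v'` on a crossing of `H(x')`: both crossings meet the crossing of
`Vt(y)`, `y = (max x₁ x'₁, max x₂ x'₂ - 2r)`; go `v → · → · → v'` along the three crossings: at most `3Cr` steps.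
`travel`: move from `x` towards `x'` by vectors of sup norm `≤ r` (coordinatewise clamping), `nrm (x'-x)/r + 1` steps; all intermediate
positions are in the bounding box of `x, x'`, so their `Hr` are inside `G` and `Net` gives crossings.
-/

set_option autoImplicit false

namespace Pool.Agent.SAWP

theorem h_cross_v {O : Set Edge} {x y : V} {r C : ℕ} {l l' : List V} (hl : IsHX O x r C l)
    (hl' : IsVX O y r C l') (h1 : x.1 ≤ y.1) (h2 : y.1 ≤ x.1 + 2 * r) (h3 : x.2 - 2 * r ≤ y.2)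
    (h4 : y.2 ≤ x.2) : ∃ v, v ∈ l ∧ v ∈ l' := by
  obtain ⟨a, b, hP, hin, ha, hb, -⟩ := hl
  obtain ⟨c, d, hP', hin', hc, hd, -⟩ := hl'
  refine cross_meet (a := y.1) (b := y.1 + r) (c := x.2) (d := x.2 + r) hP.1 hP'.1 ?_ ?_ ?_ ?_ ?_ ?_
  · intro v hv
    have := mem_rect.1 (hin v hv)
    exact ⟨this.2.2.1, this.2.2.2⟩
  · omega
  · omega
  · intro v hv
    have := mem_rect.1 (hin' v hv)
    exact ⟨this.1, this.2.1⟩
  · omega
  · omega

/-- Between two vertices of a walk one can go along the walk. -/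
theorem IsW.travel_between {O : Set Edge} {x y a b : V} {l : List V} (h : IsW O x y l) (ha : a ∈ l)
    (hb : b ∈ l) : ∃ l', IsW O a b l' ∧ (∀ v ∈ l', v ∈ l) ∧ len l' ≤ len l := by
  obtain ⟨l₁, l₂, h1, h2, h3⟩ := h.split ha
  have h4 : len l = len l₁ + len l₂ := by rw [h3]; exact len_append_tail h1 h2
  have hm1 : ∀ v ∈ l₁, v ∈ l := fun v hv => by rw [h3]; exact List.mem_append_left _ hv
  have hm2 : ∀ v ∈ l₂, v ∈ l := by
    intro v hv
    obtain ⟨t, rfl⟩ := h2.eq_cons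
    rw [h3]
    rcases List.mem_cons.1 hv with rfl | hv
    · exact List.mem_append_left _ h1.right_mem
    · exact List.mem_append_right _ hv
  have hb' : b ∈ l₁ ∨ b ∈ l₂ := by rw [h3] at hb; exact mem_append_tail hb
  rcases hb' with hb' | hb'
  · obtain ⟨m₁, m₂, h5, h6, h7⟩ := h1.split hb'
    refine ⟨m₂.reverse, h6.reverse, ?_, ?_⟩
    · intro v hv
      rw [List.mem_reverse] at hv
      apply hm1
      obtain ⟨t, rfl⟩ := h6.eq_cons
      rw [h7]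
      rcases List.mem_cons.1 hv with rfl | hv
      · exact List.mem_append_left _ h5.right_mem
      · exact List.mem_append_right _ hv
    · rw [len_reverse]
      have : len l₁ = len m₁ + len m₂ := by rw [h7]; exact len_append_tail h5 h6
      omega
  · obtain ⟨m₁, m₂, h5, h6, h7⟩ := h2.split hb'
    refine ⟨m₁, h5, ?_, ?_⟩
    · intro v hv
      apply hm2
      rw [h7]
      exact List.mem_append_left _ hv
    · have : len l₂ = len m₁ + len m₂ := by rw [h7]; exact len_append_tail h5 h6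
      omega

/-- One step of travelling. -/
theorem travel_step {O : Set Edge} {B : Finset V} {r C : ℕ} (hnet : Net O B r C)
    {g₁ g₁' g₂ g₂' : ℤ} (hG : rect g₁ g₁' g₂ g₂' ⊆ B) {x x' : V}
    (hx : g₁ ≤ x.1 ∧ x.1 + 3 * r ≤ g₁' ∧ g₂ + 2 * r ≤ x.2 ∧ x.2 + r ≤ g₂')
    (hx' : g₁ ≤ x'.1 ∧ x'.1 + 3 * r ≤ g₁' ∧ g₂ + 2 * r ≤ x'.2 ∧ x'.2 + r ≤ g₂')
    (hd1 : |x'.1 - x.1| ≤ r) (hd2 : |x'.2 - x.2| ≤ r) {v v' : V} (hv : OnH O x r C v)
    (hv' : OnH O x' r C v') :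
    ∃ l, IsW O v v' l ∧ (∀ z ∈ l, z ∈ rect g₁ g₁' g₂ g₂') ∧ len l ≤ 3 * C * r := by
  obtain ⟨l₁, hl₁, hvl⟩ := hv
  obtain ⟨l₂, hl₂, hvl'⟩ := hv'
  rw [abs_le] at hd1 hd2
  set y : V := (max x.1 x'.1, max x.2 x'.2 - 2 * r) with hy
  have hy1 : y.1 = max x.1 x'.1 := rfl
  have hy2 : y.2 = max x.2 x'.2 - 2 * r := rfl
  have hVB : Vr y r ⊆ rect g₁ g₁' g₂ g₂' := by
    intro z hz
    rw [Vr, mem_rect] at hz
    rw [mem_rect]
    omega
  obtain ⟨l₃, hl₃⟩ := hnet.2 y (hVB.trans hG)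
  obtain ⟨u, hu1, hu3⟩ := h_cross_v hl₁ hl₃ (by omega) (by omega) (by omega) (by omega)
  obtain ⟨u', hu2, hu3'⟩ := h_cross_v hl₂ hl₃ (by omega) (by omega) (by omega) (by omega)
  obtain ⟨a₁, b₁, hP₁, hin₁, -, -, hlen₁⟩ := hl₁
  obtain ⟨a₂, b₂, hP₂, hin₂, -, -, hlen₂⟩ := hl₂
  obtain ⟨a₃, b₃, hP₃, hin₃, -, -, hlen₃⟩ := hl₃
  obtain ⟨m₁, hm₁, hs₁, hle₁⟩ := hP₁.1.travel_between hvl hu1
  obtain ⟨m₂, hm₂, hs₂, hle₂⟩ := hP₂.1.travel_between hu2 hvl'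
  obtain ⟨m₃, hm₃, hs₃, hle₃⟩ := hP₃.1.travel_between hu3 hu3'
  have h13 := hm₁.append hm₃
  refine ⟨_, h13.append hm₂, ?_, ?_⟩
  · intro z hz
    rcases mem_append_tail hz with hz | hz
    · rcases mem_append_tail hz with hz | hz
      · have := hin₁ z (hs₁ z hz)
        rw [Hr, mem_rect] at this
        rw [mem_rect]
        omega
      · exact hVB (hin₃ z (hs₃ z hz))
    · have := hin₂ z (hs₂ z hz)
      rw [Hr, mem_rect] at this
      rw [mem_rect]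
      omega
  · rw [len_append_tail h13 hm₂, len_append_tail hm₁ hm₃]
    have : 3 * C * r = C * r + C * r + C * r := by ring
    omega

/-- Several steps of travelling. -/
theorem travel_steps {O : Set Edge} {B : Finset V} {r C : ℕ} (hnet : Net O B r C)
    {g₁ g₁' g₂ g₂' : ℤ} (hG : rect g₁ g₁' g₂ g₂' ⊆ B) (n : ℕ) : ∀ {x x' : V},
    (g₁ ≤ x.1 ∧ x.1 + 3 * r ≤ g₁' ∧ g₂ + 2 * r ≤ x.2 ∧ x.2 + r ≤ g₂') →
    (g₁ ≤ x'.1 ∧ x'.1 + 3 * r ≤ g₁' ∧ g₂ + 2 * r ≤ x'.2 ∧ x'.2 + r ≤ g₂') →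
    |x'.1 - x.1| ≤ ((n + 1) * r : ℕ) → |x'.2 - x.2| ≤ ((n + 1) * r : ℕ) → ∀ {v v' : V},
    OnH O x r C v → OnH O x' r C v' →
    ∃ l, IsW O v v' l ∧ (∀ z ∈ l, z ∈ rect g₁ g₁' g₂ g₂') ∧ len l ≤ 3 * C * ((n + 1) * r) := by
  induction n with
  | zero =>
    intro x x' hx hx' hd1 hd2 v v' hv hv'
    rw [zero_add, one_mul] at hd1 hd2 ⊢
    exact travel_step hnet hG hx hx' hd1 hd2 hv hv'
  | succ n ih =>
    intro x x' hx hx' hd1 hd2 v v' hv hv'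
    have e1 : (n + 1 + 1) * r = (n + 1) * r + r := by ring
    rw [e1] at hd1 hd2 ⊢
    rw [abs_le] at hd1 hd2
    set N : ℕ := (n + 1) * r with hN
    push_cast at hd1 hd2
    set y : V := (x.1 + max (-(r : ℤ)) (min r (x'.1 - x.1)),
      x.2 + max (-(r : ℤ)) (min r (x'.2 - x.2))) with hy
    have hy1 : y.1 = x.1 + max (-(r : ℤ)) (min r (x'.1 - x.1)) := rfl
    have hy2 : y.2 = x.2 + max (-(r : ℤ)) (min r (x'.2 - x.2)) := rfl
    have hN0 : (0 : ℤ) ≤ N := Int.natCast_nonneg _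
    have hr0 : (0 : ℤ) ≤ r := Int.natCast_nonneg _
    have hyG : g₁ ≤ y.1 ∧ y.1 + 3 * r ≤ g₁' ∧ g₂ + 2 * r ≤ y.2 ∧ y.2 + r ≤ g₂' := by
      refine ⟨?_, ?_, ?_, ?_⟩ <;> omega
    have hHB : Hr y r ⊆ B := by
      refine Finset.Subset.trans ?_ hG
      intro z hz
      rw [Hr, mem_rect] at hz
      rw [mem_rect]
      omega
    obtain ⟨l₀, hl₀⟩ := hnet.1 y hHB
    obtain ⟨w, hw⟩ : ∃ w, w ∈ l₀ := by
      obtain ⟨a, b, hP, -⟩ := hl₀
      exact ⟨a, hP.1.left_mem⟩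
    obtain ⟨m₁, hm₁, hs₁, hle₁⟩ := travel_step hnet hG hx hyG (by rw [abs_le]; omega)
      (by rw [abs_le]; omega) hv ⟨l₀, hl₀, hw⟩
    obtain ⟨m₂, hm₂, hs₂, hle₂⟩ := ih hyG hx' (by rw [abs_le]; omega)
      (by rw [abs_le]; omega) ⟨l₀, hl₀, hw⟩ hv'
    refine ⟨_, hm₁.append hm₂, ?_, ?_⟩
    · intro z hz
      rcases mem_append_tail hz with hz | hz
      · exact hs₁ z hz
      · exact hs₂ z hz
    · rw [len_append_tail hm₁ hm₂]
      have : 3 * C * (N + r) = 3 * C * N + 3 * C * r := by ring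
      omega

theorem travel {O : Set Edge} {B : Finset V} {r C : ℕ} (hr : 1 ≤ r) (hnet : Net O B r C)
    {g₁ g₁' g₂ g₂' : ℤ} (hG : rect g₁ g₁' g₂ g₂' ⊆ B) {x x' : V}
    (hx : Hr x r ⊆ rect g₁ g₁' g₂ g₂') (hx' : Hr x' r ⊆ rect g₁ g₁' g₂ g₂')
    (h2 : g₂ + 2 * r ≤ x.2) (h2' : g₂ + 2 * r ≤ x'.2) {v v' : V} (hv : OnH O x r C v)
    (hv' : OnH O x' r C v') :
    ∃ l, IsW O v v' l ∧ (∀ z ∈ l, z ∈ rect g₁ g₁' g₂ g₂') ∧
      len l ≤ 3 * C * (nrm (x' - x) + r) := by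
  have key : ∀ w : V, Hr w r ⊆ rect g₁ g₁' g₂ g₂' →
      g₁ ≤ w.1 ∧ w.1 + 3 * r ≤ g₁' ∧ w.2 + r ≤ g₂' := by
    intro w hw
    have h3 := mem_rect.1 (hw (show w ∈ Hr w r by rw [Hr, mem_rect]; omega))
    have h4 := mem_rect.1 (hw (show (w.1 + 3 * (r : ℤ), w.2 + (r : ℤ)) ∈ Hr w r by
      rw [Hr, mem_rect]; simp only; omega))
    simp only at h4
    omega
  obtain ⟨k1, k2, k3⟩ := key x hx
  obtain ⟨k1', k2', k3'⟩ := key x' hx'
  set m : ℕ := nrm (x' - x) with hm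
  have hm1 : |x'.1 - x.1| ≤ (m : ℤ) := by
    have := le_max_left (x' - x).1.natAbs (x' - x).2.natAbs
    rw [Prod.fst_sub] at this
    have h5 : (x'.1 - x.1).natAbs ≤ m := this
    rw [abs_le]; omega
  have hm2 : |x'.2 - x.2| ≤ (m : ℤ) := by
    have := le_max_right (x' - x).1.natAbs (x' - x).2.natAbs
    rw [Prod.snd_sub] at this
    have h5 : (x'.2 - x.2).natAbs ≤ m := this
    rw [abs_le]; omega
  have hdiv := Nat.div_add_mod m r
  have hmod := Nat.mod_lt m (show 0 < r by omega)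
  have e1 : (m / r + 1) * r = r * (m / r) + r := by ring
  have hmn : m ≤ (m / r + 1) * r := by rw [e1]; omega
  have hmn' : (m / r + 1) * r ≤ m + r := by rw [e1]; omega
  have hc : (m : ℤ) ≤ ((m / r + 1) * r : ℕ) := by exact_mod_cast hmn
  obtain ⟨l, h5, h6, h7⟩ := travel_steps hnet hG (m / r) ⟨k1, k2, h2, k3⟩ ⟨k1', k2', h2', k3'⟩
    (hm1.trans hc) (hm2.trans hc) hv hv'
  exact ⟨l, h5, h6, h7.trans (Nat.mul_le_mul_left _ hmn')⟩

end Pool.Agent.SAWP
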