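import Pool.Agent.SAWP.L.LDefs

/-!
# SAWP, case L: choice of the type and of the scales (module L9; paper 4.3)

Hypothesis: `δ₂ ≤ ∑_{k=j₀}^{7j₀} P(BR_k)` for all `j₀ ≥ J`, `BR_k = BR b β 16^{k-i₂} (sq 0 (8·16^k))`.
Take `m` large and `H = 8^m`; the windows `[8^i k₁, 7·8^i k₁]`, `i < m`, are disjoint subsets of `[k₁, H k₁]`, so `∑_{k=k₁}^{H k₁} P(BR_k) ≥ m δ₂`.
Cells of side `h = 16^{k-iη}` (`k ≥ iη`): `BR_k ⊆ ⋃_{(a,g)} TB_k(a,g)`, `a, g ∈ [0, 8·16^{iη})²` (cell corners `h a`, `h g`), at most `Tau = (8·16^{iη})⁴` types; if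
`g₁ ≤ a₁` then `TB_k(a,g)` is impossible, because `m₁ - s₁ ≥ 16^{k-i₂} ≥ 16 h` (`iη ≥ i₂+1`).  Pigeonhole over the types and the residues of
`k` mod `iη+1`: some type `(a, a+D)` and class `K` have `∑_{k∈K} P(TB_k) ≥ m δ₂ / (Tau (iη+1)) ≥ M₀`.
-/

set_option autoImplicit false

open MeasureTheory

namespace Pool.Agent.SAWP

namespace TypesAux

/-- the types: pairs of cells, the second strictly to the right of the first -/
noncomputable def Ty (iη : ℕ) : Finset (V × V) :=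
  ((Finset.Ico (0 : ℤ) (8 * 16 ^ iη) ×ˢ Finset.Ico (0 : ℤ) (8 * 16 ^ iη)) ×ˢ
    (Finset.Ico (0 : ℤ) (8 * 16 ^ iη) ×ˢ Finset.Ico (0 : ℤ) (8 * 16 ^ iη))).filter
    (fun x => x.1.1 + 1 ≤ x.2.1)

/-- the typed event -/
def TBk (b β : ℝ) (i₂ iη k : ℕ) (x : V × V) : Set Cfg :=
  {ω | TB b β (16 ^ (k - i₂)) (sq (0, 0) (8 * 16 ^ k)) (16 ^ (k - iη))
          (16 ^ (k - iη) * x.1.1, 16 ^ (k - iη) * x.1.2)
          (16 ^ (k - iη) * x.2.1, 16 ^ (k - iη) * x.2.2) ω}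

lemma cell {h N : ℤ} (hh : 0 < h) {x : ℤ} (h0 : 0 ≤ x) (h1 : x < N * h) :
    x / h ∈ Finset.Ico (0 : ℤ) N ∧ h * (x / h) ≤ x ∧ x < h * (x / h) + h := by
  have e := Int.emod_add_mul_ediv x h
  have e1 := Int.emod_nonneg x hh.ne'
  have e2 := Int.emod_lt_of_pos x hh
  refine ⟨Finset.mem_Ico.2 ⟨Int.ediv_nonneg h0 hh.le, ?_⟩, by omega, by omega⟩
  exact Int.ediv_lt_of_lt_mul hh h1

lemma cover (b β : ℝ) {i₂ iη : ℕ} (hiη : i₂ + 1 ≤ iη) {k : ℕ} (hk : iη ≤ k) :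
    {ω | BR b β (16 ^ (k - i₂)) (sq (0, 0) (8 * 16 ^ k)) ω} ⊆
      ⋃ x ∈ Ty iη, TBk b β i₂ iη k x := by
  rintro ω ⟨s, hs, m, hm, hw, hg⟩
  have hpos : (0 : ℤ) < 16 ^ (k - iη) := by positivity
  have e8 : (8 * 16 ^ iη : ℤ) * 16 ^ (k - iη) = 8 * 16 ^ k := by
    rw [mul_assoc, ← pow_add, Nat.add_sub_cancel' hk]
  have e16 : (16 : ℤ) * 16 ^ (k - iη) ≤ 16 ^ (k - i₂) := by
    rw [← pow_succ']
    exact pow_le_pow_right₀ (by norm_num) (by omega)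
  have hs' := mem_sq.1 hs
  have hm' := mem_sq.1 hm
  push_cast at hs' hm' hw
  simp only [zero_add] at hs' hm'
  obtain ⟨a1, a2, a3⟩ := cell hpos hs'.1 (by rw [e8]; exact hs'.2.1)
  obtain ⟨b1, b2, b3⟩ := cell hpos hs'.2.2.1 (by rw [e8]; exact hs'.2.2.2)
  obtain ⟨c1, c2, c3⟩ := cell hpos hm'.1 (by rw [e8]; exact hm'.2.1)
  obtain ⟨d1, d2, d3⟩ := cell hpos hm'.2.2.1 (by rw [e8]; exact hm'.2.2.2)
  simp only [Set.mem_iUnion]
  refine ⟨((s.1 / 16 ^ (k - iη), s.2 / 16 ^ (k - iη)), (m.1 / 16 ^ (k - iη), m.2 / 16 ^ (k - iη))),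
    ?_, ?_⟩
  · simp only [Ty, Finset.mem_filter, Finset.mem_product]
    refine ⟨⟨⟨a1, b1⟩, ⟨c1, d1⟩⟩, ?_⟩
    by_contra hcon
    have hle : m.1 / 16 ^ (k - iη) ≤ s.1 / 16 ^ (k - iη) := by omega
    have := mul_le_mul_of_nonneg_left hle hpos.le
    nlinarith
  · refine ⟨s, hs, m, hm, ?_, ?_, by push_cast; exact hw, hg⟩
    · rw [mem_sq]; push_cast; exact ⟨a2, a3, b2, b3⟩
    · rw [mem_sq]; push_cast; exact ⟨c2, c3, d2, d3⟩

lemma windows (f : ℕ → ℝ) (hf : ∀ k, 0 ≤ f k) (δ : ℝ) (J k₁ : ℕ) (hJ : J ≤ k₁) (h1 : 1 ≤ k₁)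
    (h : ∀ j₀, J ≤ j₀ → δ ≤ ∑ k ∈ Finset.Icc j₀ (7 * j₀), f k) (m : ℕ) :
    m * δ ≤ ∑ k ∈ Finset.Ico k₁ (8 ^ m * k₁), f k := by
  induction m with
  | zero => simp
  | succ m ih =>
    have hp : 1 ≤ 8 ^ m := Nat.one_le_pow _ _ (by norm_num)
    have hj : k₁ ≤ 8 ^ m * k₁ := Nat.le_mul_of_pos_left k₁ hp
    have hs := h (8 ^ m * k₁) (hJ.trans hj)
    have hsub : Finset.Icc (8 ^ m * k₁) (7 * (8 ^ m * k₁)) ⊆
        Finset.Ico (8 ^ m * k₁) (8 ^ (m + 1) * k₁) := by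
      intro k hk
      rw [Finset.mem_Icc] at hk
      rw [Finset.mem_Ico, pow_succ]
      refine ⟨hk.1, ?_⟩
      have : 8 ^ m * 8 * k₁ = 8 * (8 ^ m * k₁) := by ring
      rw [this]
      omega
    have h2 := Finset.sum_le_sum_of_subset_of_nonneg hsub (fun i _ _ => hf i)
    have h3 : ∑ k ∈ Finset.Ico k₁ (8 ^ (m + 1) * k₁), f k =
        ∑ k ∈ Finset.Ico k₁ (8 ^ m * k₁), f k +
          ∑ k ∈ Finset.Ico (8 ^ m * k₁) (8 ^ (m + 1) * k₁), f k := by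
      rw [Finset.sum_Ico_consecutive _ hj]
      rw [pow_succ]
      have : 8 ^ m * 8 * k₁ = 8 * (8 ^ m * k₁) := by ring
      rw [this]
      omega
    rw [h3]
    push_cast
    linarith

end TypesAux

open TypesAux in
theorem types (p : unitInterval) {b β : ℝ} {i₂ iη J : ℕ} (hiη : i₂ + 1 ≤ iη) {δ₂ : ℝ}
    (hδ : 0 < δ₂)
    (h : ∀ j₀, J ≤ j₀ → δ₂ ≤ ∑ k ∈ Finset.Icc j₀ (7 * j₀),
      PR p {ω | BR b β (16 ^ (k - i₂)) (sq (0, 0) (8 * 16 ^ k)) ω}) (M₀ : ℝ) :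
    ∃ H : ℕ, 1 ≤ H ∧ ∃ J' : ℕ, ∀ k₁, J' ≤ k₁ → ∃ (a D : V) (K : Finset ℕ),
      (∀ k ∈ K, k₁ ≤ k ∧ k ≤ H * k₁) ∧ (∀ k ∈ K, ∀ k' ∈ K, k < k' → k + (iη + 1) ≤ k') ∧
      1 ≤ D.1 ∧ nrm D ≤ 8 * 16 ^ iη ∧
      M₀ ≤ ∑ k ∈ K, PR p {ω | TB b β (16 ^ (k - i₂)) (sq (0, 0) (8 * 16 ^ k)) (16 ^ (k - iη))
          (16 ^ (k - iη) * a.1, 16 ^ (k - iη) * a.2)
          (16 ^ (k - iη) * (a.1 + D.1), 16 ^ (k - iη) * (a.2 + D.2)) ω} := by
  set M₁ : ℝ := max M₀ 1 with hM₁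
  have hM₁0 : 0 < M₁ := lt_of_lt_of_le one_pos (le_max_right _ _)
  obtain ⟨m, hm⟩ := exists_nat_gt (((Ty iη).card : ℝ) * ((iη + 1 : ℕ) : ℝ) * M₁ / δ₂)
  have hm' : ((Ty iη).card : ℝ) * ((iη + 1 : ℕ) : ℝ) * M₁ < m * δ₂ := (div_lt_iff₀ hδ).1 hm
  refine ⟨8 ^ m, Nat.one_le_pow _ _ (by norm_num), max J (iη + 1), fun k₁ hk₁ => ?_⟩
  have hJk : J ≤ k₁ := (le_max_left _ _).trans hk₁
  have hηk : iη + 1 ≤ k₁ := (le_max_right _ _).trans hk₁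
  have hsum := windows (fun k => PR p {ω | BR b β (16 ^ (k - i₂)) (sq (0, 0) (8 * 16 ^ k)) ω})
    (fun k => PR_nonneg p _) δ₂ J k₁ hJk (by omega) h m
  set I := Finset.Ico k₁ (8 ^ m * k₁) with hI
  have hsum2 : ∑ k ∈ I, PR p {ω | BR b β (16 ^ (k - i₂)) (sq (0, 0) (8 * 16 ^ k)) ω} ≤
      ∑ x ∈ Ty iη, ∑ ρ ∈ Finset.range (iη + 1),
        ∑ k ∈ I.filter (fun k => k % (iη + 1) = ρ), PR p (TBk b β i₂ iη k x) := by
    have h1 : ∀ k ∈ I, PR p {ω | BR b β (16 ^ (k - i₂)) (sq (0, 0) (8 * 16 ^ k)) ω} ≤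
        ∑ x ∈ Ty iη, PR p (TBk b β i₂ iη k x) := by
      intro k hk
      have hk1 : k₁ ≤ k := (Finset.mem_Ico.1 hk).1
      exact (PR_mono p (cover b β hiη (by omega))).trans (PR_biUnion_le p _ _)
    refine (Finset.sum_le_sum h1).trans ?_
    rw [Finset.sum_comm]
    refine Finset.sum_le_sum fun x _ => ?_
    rw [Finset.sum_fiberwise_of_maps_to (fun k _ => Finset.mem_range.2 (Nat.mod_lt _ (by omega)))]
  by_contra hcon
  push Not at hcon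
  have hlt : ∀ x ∈ Ty iη, ∀ ρ ∈ Finset.range (iη + 1),
      ∑ k ∈ I.filter (fun k => k % (iη + 1) = ρ), PR p (TBk b β i₂ iη k x) ≤ M₁ := by
    intro x hx ρ _
    simp only [Ty, Finset.mem_filter, Finset.mem_product, Finset.mem_Ico] at hx
    have hx' := hcon x.1 (x.2 - x.1) (I.filter (fun k => k % (iη + 1) = ρ))
    have key := hx' (by
        intro k hk
        have := Finset.mem_Ico.1 (Finset.mem_filter.1 hk).1
        exact ⟨this.1, this.2.le⟩)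
      (by
        intro k hk k' hk' hkk
        have e1 := (Finset.mem_filter.1 hk).2
        have e2 := (Finset.mem_filter.1 hk').2
        have h1 := Nat.mod_add_div k (iη + 1)
        have h2 := Nat.mod_add_div k' (iη + 1)
        rw [e1] at h1
        rw [e2] at h2
        have h3 : (iη + 1) * (k / (iη + 1)) < (iη + 1) * (k' / (iη + 1)) := by omega
        have h4 : k / (iη + 1) + 1 ≤ k' / (iη + 1) := lt_of_mul_lt_mul_left h3 (Nat.zero_le _)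
        have h5 := Nat.mul_le_mul_left (iη + 1) h4
        rw [mul_add, mul_one] at h5
        omega)
      (by simp only [Prod.fst_sub]; omega)
      (by
        have e : ((8 * 16 ^ iη : ℕ) : ℤ) = 8 * 16 ^ iη := by push_cast; ring
        simp only [nrm, Prod.fst_sub, Prod.snd_sub]
        refine max_le ?_ ?_ <;> omega)
    have e : ∑ k ∈ I.filter (fun k => k % (iη + 1) = ρ), PR p (TBk b β i₂ iη k x) < M₀ := by
      simpa only [Prod.fst_sub, Prod.snd_sub, add_sub_cancel, TBk] using key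
    exact (e.trans_le (le_max_left _ _)).le
  have h2 : ∑ x ∈ Ty iη, ∑ ρ ∈ Finset.range (iη + 1),
      ∑ k ∈ I.filter (fun k => k % (iη + 1) = ρ), PR p (TBk b β i₂ iη k x) ≤
      ((Ty iη).card : ℝ) * ((iη + 1 : ℕ) : ℝ) * M₁ := by
    calc _ ≤ ∑ x ∈ Ty iη, ∑ ρ ∈ Finset.range (iη + 1), M₁ :=
          Finset.sum_le_sum fun x hx => Finset.sum_le_sum fun ρ hρ => hlt x hx ρ hρ
      _ = _ := by simp [mul_assoc]
  linarith

end Pool.Agent.SAWP
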